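import Pool.Agent.Run7.h233.ZK.Base

set_option autoImplicit false

namespace Pool.Agent.Run7.h233.ZK.A617

open scoped InnerProductSpace

/-- Discrete convexity. -/
theorem convex_seq (t : ℕ → ℝ) (k : ℕ) (hk : 2 ≤ k)
    (h : ∀ r, r + 2 ≤ k → 0 ≤ t r - 2 * t (r + 1) + t (r + 2)) :
    t k + k * (t (k - 1) - t k) + (t 0 - 2 * t 1 + t 2) ≤ t 0 := by
  have key : ∀ m : ℕ, 1 ≤ m → m + 1 ≤ k →
      t (m + 1) + ((m : ℝ) + 1) * (t m - t (m + 1)) ≤ 2 * t 1 - t 2 := by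
    intro m hm
    induction m, hm using Nat.le_induction with
    | base =>
      intro _
      norm_num
      linarith
    | succ m hm ih =>
      intro hmk
      have h1 := ih (by omega)
      have h2 := h m (by omega)
      push_cast
      have h3 : 0 ≤ ((m : ℝ) + 1) * (t m - 2 * t (m + 1) + t (m + 2)) := by positivity
      have e : m + 1 + 1 = m + 2 := rfl
      rw [e]
      nlinarith
  have h1 := key (k - 1) (by omega) (by omega)
  have e : k - 1 + 1 = k := by omega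
  have e2 : ((k - 1 : ℕ) : ℝ) + 1 = (k : ℝ) := by
    have : ((k - 1 + 1 : ℕ) : ℝ) = (k : ℝ) := by rw [e]
    push_cast at this
    exact this
  rw [e, e2] at h1
  linarith

variable {V : Type*} [NormedAddCommGroup V] [InnerProductSpace ℂ V] [FiniteDimensional ℂ V]

/-- P6 from P5. -/
theorem P6h (P5 : ∀ (Y Z W : V →ₗ[ℂ] V), Y.IsPositive → Z.IsPositive → W.IsSymmetric →
      ∀ q r : ℕ, 0 ≤ (LinearMap.trace ℂ V (Y ^ q * W * Z ^ r * W)).re)
    (Y Z : V →ₗ[ℂ] V) (hY : Y.IsPositive) (hZ : Z.IsPositive) (k : ℕ) (hk : 2 ≤ k) :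
    (LinearMap.trace ℂ V (Z ^ k)).re + k * (LinearMap.trace ℂ V (Z ^ (k - 1) * (Y - Z))).re
      + (LinearMap.trace ℂ V (Y ^ (k - 2) * (Y - Z) * (Y - Z))).re
      ≤ (LinearMap.trace ℂ V (Y ^ k)).re := by
  have hW : (Y - Z).IsSymmetric := hY.isSymmetric.sub hZ.isSymmetric
  let t : ℕ → ℝ := fun r => (LinearMap.trace ℂ V (Y ^ (k - r) * Z ^ r)).re
  have hsd : ∀ r, r + 2 ≤ k → t r - 2 * t (r + 1) + t (r + 2) =
      (LinearMap.trace ℂ V (Y ^ (k - 2 - r) * (Y - Z) * Z ^ r * (Y - Z))).re := by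
    intro r hr
    have e0 : Y ^ (k - 2 - r) * (Y - Z) * Z ^ r * (Y - Z) =
        Y ^ (k - 2 - r) * Y * Z ^ r * Y - Y ^ (k - 2 - r) * Y * Z ^ r * Z
        - Y ^ (k - 2 - r) * Z * Z ^ r * Y + Y ^ (k - 2 - r) * Z * Z ^ r * Z := by
      noncomm_ring
    have e1 : LinearMap.trace ℂ V (Y ^ (k - 2 - r) * Y * Z ^ r * Y) =
        LinearMap.trace ℂ V (Y ^ (k - r) * Z ^ r) := by
      rw [LinearMap.trace_mul_comm, ← mul_assoc, ← pow_succ, ← pow_succ']
      congr 4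
      omega
    have e2 : Y ^ (k - 2 - r) * Y * Z ^ r * Z = Y ^ (k - (r + 1)) * Z ^ (r + 1) := by
      rw [mul_assoc, ← pow_succ, ← pow_succ]
      congr 2
      omega
    have e3 : LinearMap.trace ℂ V (Y ^ (k - 2 - r) * Z * Z ^ r * Y) =
        LinearMap.trace ℂ V (Y ^ (k - (r + 1)) * Z ^ (r + 1)) := by
      rw [LinearMap.trace_mul_comm, mul_assoc, ← pow_succ', ← mul_assoc, ← pow_succ']
      congr 4
      omega
    have e4 : Y ^ (k - 2 - r) * Z * Z ^ r * Z = Y ^ (k - (r + 2)) * Z ^ (r + 2) := by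
      rw [mul_assoc, mul_assoc, ← pow_succ, ← pow_succ']
      congr 2
      omega
    rw [e0, map_add, map_sub, map_sub, e1, e2, e3, e4]
    simp only [Complex.add_re, Complex.sub_re, t]
    ring
  have hconv := convex_seq t k hk (fun r hr => by
    rw [hsd r hr]
    exact P5 Y Z (Y - Z) hY hZ hW (k - 2 - r) r)
  have f0 : t 0 = (LinearMap.trace ℂ V (Y ^ k)).re := by
    simp [t]
  have f1 : t k = (LinearMap.trace ℂ V (Z ^ k)).re := by
    simp [t]
  have f2 : t (k - 1) - t k = (LinearMap.trace ℂ V (Z ^ (k - 1) * (Y - Z))).re := by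
    rw [mul_sub, map_sub, Complex.sub_re, f1]
    have e : k - (k - 1) = 1 := by omega
    have e' : Z ^ (k - 1) * Z = Z ^ k := by
      rw [← pow_succ]
      congr 1
      omega
    rw [e', LinearMap.trace_mul_comm]
    simp only [t, e, pow_one]
  have f3 : t 0 - 2 * t 1 + t 2 = (LinearMap.trace ℂ V (Y ^ (k - 2) * (Y - Z) * (Y - Z))).re := by
    have := hsd 0 (by omega)
    rw [pow_zero, mul_one, Nat.sub_zero] at this
    exact this
  rw [f3, f2, f1, f0] at hconv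
  exact hconv

/-- P7 from P4. -/
theorem P7h (P4 : ∀ (T : V →ₗ[ℂ] V), T.IsPositive → ∀ x : V, ‖x‖ = 1 → ∀ p : ℕ,
      (RCLike.re ⟪x, T x⟫_ℂ) ^ p ≤ RCLike.re ⟪x, (T ^ p) x⟫_ℂ)
    {n : ℕ} (b : OrthonormalBasis (Fin n) ℂ V) (μ : Fin n → ℝ) (m w : V →ₗ[ℂ] V)
    (hw : ∀ i, w (b i) = (μ i : ℂ) • b i) (hU : (m + w).IsPositive) (hT : (m - w).IsPositive)
    (k : ℕ) (hk : 2 ≤ k) :
    ∑ i, |μ i| ^ k ≤ (LinearMap.trace ℂ V ((m + w) ^ (k - 2) * w * w)).re
      + (LinearMap.trace ℂ V ((m - w) ^ (k - 2) * w * w)).re := by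
  have htr : ∀ U : V →ₗ[ℂ] V, (LinearMap.trace ℂ V (U ^ (k - 2) * w * w)).re =
      ∑ i, μ i ^ 2 * (⟪b i, (U ^ (k - 2)) (b i)⟫_ℂ).re := by
    intro U
    rw [LinearMap.trace_eq_sum_inner _ b, Complex.re_sum]
    refine Finset.sum_congr rfl (fun i _ => ?_)
    have h1 : (U ^ (k - 2) * w * w) (b i) = ((μ i : ℂ) * (μ i : ℂ)) • (U ^ (k - 2)) (b i) := by
      rw [Module.End.mul_apply, Module.End.mul_apply, hw i, map_smul, hw i, map_smul, map_smul,
        smul_smul]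
    rw [h1, inner_smul_right]
    have h2 : ((μ i : ℂ) * (μ i : ℂ)) = ((μ i ^ 2 : ℝ) : ℂ) := by
      push_cast
      ring
    rw [h2, Complex.re_ofReal_mul]
  rw [htr, htr, ← Finset.sum_add_distrib]
  refine Finset.sum_le_sum (fun i _ => ?_)
  have hn : ‖b i‖ = 1 := b.orthonormal.1 i
  have hin : ⟪b i, w (b i)⟫_ℂ = (μ i : ℂ) := by
    rw [hw i, inner_smul_right, inner_self_eq_norm_sq_to_K, hn]
    simp
  set a : ℝ := (⟪b i, m (b i)⟫_ℂ).re with ha
  have h1 : RCLike.re ⟪b i, (m + w) (b i)⟫_ℂ = a + μ i := by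
    rw [LinearMap.add_apply, inner_add_right, hin]
    simp [ha]
  have h2 : RCLike.re ⟪b i, (m - w) (b i)⟫_ℂ = a - μ i := by
    rw [LinearMap.sub_apply, inner_sub_right, hin]
    simp [ha]
  have h3 := P4 (m + w) hU (b i) hn (k - 2)
  have h4 := P4 (m - w) hT (b i) hn (k - 2)
  have h5 : 0 ≤ a + μ i := by
    rw [← h1]
    exact hU.re_inner_nonneg_right (b i)
  have h6 : 0 ≤ a - μ i := by
    rw [← h2]
    exact hT.re_inner_nonneg_right (b i)
  rw [h1] at h3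
  rw [h2] at h4
  have h7 : |μ i| ^ (k - 2) ≤ (a + μ i) ^ (k - 2) + (a - μ i) ^ (k - 2) := by
    have h8 : 0 ≤ (a + μ i) ^ (k - 2) := pow_nonneg h5 _
    have h9 : 0 ≤ (a - μ i) ^ (k - 2) := pow_nonneg h6 _
    rcases abs_cases (μ i) with ⟨h10, h11⟩ | ⟨h10, h11⟩
    · have : |μ i| ^ (k - 2) ≤ (a + μ i) ^ (k - 2) :=
        pow_le_pow_left₀ (abs_nonneg _) (by rw [h10]; linarith) _
      linarith
    · have : |μ i| ^ (k - 2) ≤ (a - μ i) ^ (k - 2) :=
        pow_le_pow_left₀ (abs_nonneg _) (by rw [h10]; linarith) _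
      linarith
  have h8 : |μ i| ^ k = μ i ^ 2 * |μ i| ^ (k - 2) := by
    rw [← sq_abs, ← pow_add]
    congr 1
    omega
  rw [h8, ← mul_add]
  refine mul_le_mul_of_nonneg_left ?_ (sq_nonneg _)
  have h3' : (a + μ i) ^ (k - 2) ≤ (⟪b i, ((m + w) ^ (k - 2)) (b i)⟫_ℂ).re := h3
  have h4' : (a - μ i) ^ (k - 2) ≤ (⟪b i, ((m - w) ^ (k - 2)) (b i)⟫_ℂ).re := h4
  linarith

/-- P27: summability of products. -/
theorem P27h (p : ℕ) (g : ℤ → ℝ) (hg : ∀ n, 0 ≤ g n) (hs : Summable g) :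
    Summable (fun j : Fin p → ℤ => ∏ i, g (j i)) := by
  classical
  refine summable_of_sum_le (c := (∑' n, g n) ^ p)
    (fun j => Finset.prod_nonneg (fun i _ => hg _)) (fun u => ?_)
  let t : Fin p → Finset ℤ := fun i => u.image (fun j => j i)
  have hu : u ⊆ Fintype.piFinset t := by
    intro j hj
    rw [Fintype.mem_piFinset]
    intro i
    exact Finset.mem_image_of_mem _ hj
  calc ∑ j ∈ u, ∏ i, g (j i) ≤ ∑ j ∈ Fintype.piFinset t, ∏ i, g (j i) :=
        Finset.sum_le_sum_of_subset_of_nonneg hu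
          (fun j _ _ => Finset.prod_nonneg (fun i _ => hg _))
    _ = ∏ i, ∑ n ∈ t i, g n := by
        rw [Finset.prod_univ_sum]
    _ ≤ ∏ _i : Fin p, ∑' n, g n :=
        Finset.prod_le_prod (fun i _ => Finset.sum_nonneg (fun n _ => hg n))
          (fun i _ => hs.sum_le_tsum _ (fun n _ => hg n))
    _ = (∑' n, g n) ^ p := by
        rw [Finset.prod_const, Finset.card_univ, Fintype.card_fin]

end Pool.Agent.Run7.h233.ZK.A617
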