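import Pool.Agent.Run7.h233.ZK.Defs

open Finset
open scoped InnerProductSpace ComplexConjugate

namespace Pool.Agent.Run7.h233.ZK

/-- Normalized test vector of a window, positive side. -/
noncomputable def xv (N : ℕ) (M : ℕ) (α : ℤ → ℂ) (j : ℕ) : Vs N :=
  vec N (fun m => conj ((1 / Real.sqrt (4 * M) : ℝ) * α m * zr M j ^ m))

/-- Normalized test vector of a window, negative side. -/
noncomputable def yv (N : ℕ) (M : ℕ) (β : ℤ → ℂ) (j : ℕ) : Vs N :=
  vec N (fun m => (1 / Real.sqrt (4 * M) : ℝ) * β (-m) * zr M j ^ (-m))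

end Pool.Agent.Run7.h233.ZK
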