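import Mathlib

open Finset
open scoped InnerProductSpace ComplexConjugate

namespace Pool.Agent.Run7.h233.ZK

/-- `f(n) = n (n + j_1) ... (n + j_1 + ... + j_{p-1})`. -/
def fpoly {p : ℕ} (j : Fin p → ℤ) (n : ℤ) : ℤ := ∏ i : Fin p, (n + ∑ l ∈ Finset.Iio i, j l)

/-- `N_j = ∑ (|f(n)| - f(n))`, a sum with finitely many nonzero terms. -/
noncomputable def Nj {p : ℕ} (j : Fin p → ℤ) : ℤ := ∑ᶠ n : ℤ, (|fpoly j n| - fpoly j n)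

/-- The term of index `j` of the zeta invariant. -/
noncomputable def Zterm (k : ℕ) (c : ℤ → ℂ) (j : Fin (2 * k) → ℤ) : ℂ :=
  if ∑ i, j i = 0 then (Nj j : ℂ) * ∏ i, c (j i) else 0

/-- The zeta invariant. -/
noncomputable def Zk (k : ℕ) (c : ℤ → ℂ) : ℂ := ∑' j : Fin (2 * k) → ℤ, Zterm k c j

/-- Fourier coefficient of a `2 pi`-periodic function. -/
noncomputable def fc (a : ℝ → ℝ) (n : ℤ) : ℂ :=
  (1 / (2 * Real.pi) : ℂ) * ∫ θ in (0 : ℝ)..(2 * Real.pi),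
    (a θ : ℂ) * Complex.exp (-(n : ℂ) * (θ : ℂ) * Complex.I)

/-- Index set `[-N, N]`. -/
abbrev Bx (N : ℕ) := {x : ℤ // x ∈ Finset.Icc (-(N : ℤ)) (N : ℤ)}

abbrev Vs (N : ℕ) := EuclideanSpace ℂ (Bx N)

/-- A function on `ℤ` restricted to the box. -/
noncomputable def vec (N : ℕ) (g : ℤ → ℂ) : Vs N := WithLp.toLp 2 (fun m : Bx N => g m)

/-- `M_u (m, l) = u m * c (l - m)`. -/
def Mu (N : ℕ) (c : ℤ → ℂ) (u : ℤ → ℂ) : Matrix (Bx N) (Bx N) ℂ :=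
  Matrix.of fun m l => u (m : ℤ) * c ((l : ℤ) - (m : ℤ))

/-- The matrix `sqrt |m| sqrt |l| c (l - m)`. -/
noncomputable def Amat (N : ℕ) (c : ℤ → ℂ) : Matrix (Bx N) (Bx N) ℂ :=
  Matrix.of fun m l => ((Real.sqrt |((m : ℤ) : ℝ)| * Real.sqrt |((l : ℤ) : ℝ)| : ℝ) : ℂ)
    * c ((l : ℤ) - (m : ℤ))

/-- The diagonal matrix of signs. -/
def Smat (N : ℕ) : Matrix (Bx N) (Bx N) ℂ :=
  Matrix.diagonal fun m => if (m : ℤ) < 0 then (-1 : ℂ) else 1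

noncomputable def Aop (N : ℕ) (c : ℤ → ℂ) : Vs N →ₗ[ℂ] Vs N := Matrix.toEuclideanLin (Amat N c)

noncomputable def Sop (N : ℕ) : Vs N →ₗ[ℂ] Vs N := Matrix.toEuclideanLin (Smat N)

noncomputable def Wop (N : ℕ) (c : ℤ → ℂ) : Vs N →ₗ[ℂ] Vs N :=
  (1 / 2 : ℂ) • ((Aop N c) ^ 2 - (Sop N * Aop N c * Sop N) ^ 2)

/-- `G (m, n) = ∑ |l| c (l - m) c (- l - n)`. -/
noncomputable def G (c : ℤ → ℂ) (m n : ℤ) : ℂ :=
  ∑' l : ℤ, ((|l| : ℤ) : ℂ) * c (l - m) * c (-l - n)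

/-- `c` vanishes outside `[-D, D]`. -/
def Fin0 (D : ℕ) (c : ℤ → ℂ) : Prop := ∀ n : ℤ, n ∉ Finset.Icc (-(D : ℤ)) D → c n = 0

/-- The window function with support in `(M, 4M)`. -/
noncomputable def pw (M : ℕ) (m : ℤ) : ℝ :=
  (max 0 ((m : ℝ) - M)) ^ 2 * (max 0 (4 * (M : ℝ) - m)) ^ 2 / (M : ℝ) ^ 4

/-- The root of unity of order `4 M`, power `j`. -/
noncomputable def zr (M : ℕ) (j : ℕ) : ℂ := Complex.exp (2 * Real.pi * Complex.I * j / (4 * M))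

/-- The normalized bilinear sum of a window. -/
noncomputable def Q (c : ℤ → ℂ) (M : ℕ) (α β : ℤ → ℂ) (j : ℕ) : ℂ :=
  (1 / (4 * M) : ℂ) * ∑ m ∈ Finset.Icc (M : ℤ) (4 * M), ∑ n ∈ Finset.Icc (M : ℤ) (4 * M),
    α m * β n * ((Real.sqrt m * Real.sqrt n : ℝ) : ℂ) * G c m n * zr M j ^ (m + n)

end Pool.Agent.Run7.h233.ZK
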