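import Mathlib
import Pool.Agent.Run7.h233.ZK.Base

namespace Pool.Agent.Run7.h233.ZK

open scoped InnerProductSpace ComplexConjugate

theorem P1_schur_aux (n : ℕ) : ∀ (V : Type*) [NormedAddCommGroup V] [InnerProductSpace ℂ V]
    [FiniteDimensional ℂ V] (T : V →ₗ[ℂ] V) (_ : Module.finrank ℂ V = n),
    ∃ b : OrthonormalBasis (Fin n) ℂ V, ∀ i j, j < i → ⟪b i, T (b j)⟫_ℂ = 0 := by
  induction n with
  | zero =>
    intro V _ _ _ T hn
    exact ⟨(stdOrthonormalBasis ℂ V).reindex (finCongr hn), fun i => i.elim0⟩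
  | succ n ih =>
    intro V _ _ _ T hn
    haveI : Nontrivial V := Module.nontrivial_of_finrank_pos (R := ℂ) (by omega)
    obtain ⟨μ, hμ⟩ := Module.End.exists_eigenvalue (K := ℂ) (LinearMap.adjoint T)
    obtain ⟨v0, hv0⟩ := hμ.exists_hasEigenvector
    have hv0n : v0 ≠ 0 := hv0.2
    have hv0e : LinearMap.adjoint T v0 = μ • v0 := hv0.apply_eq_smul
    set v : V := ((‖v0‖ : ℂ)⁻¹) • v0 with hv
    have hvn : ‖v‖ = 1 := by
      rw [hv, norm_smul, norm_inv, Complex.norm_real, norm_norm]
      exact inv_mul_cancel₀ (norm_ne_zero_iff.2 hv0n)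
    have hve : LinearMap.adjoint T v = μ • v := by
      rw [hv, map_smul, hv0e, smul_comm]
    let W : Submodule ℂ V := (ℂ ∙ v)ᗮ
    have hW : Module.finrank ℂ W = n := by
      haveI : Fact (Module.finrank ℂ V = n + 1) := ⟨hn⟩
      exact Submodule.finrank_orthogonal_span_singleton (by
        intro h; rw [h, norm_zero] at hvn; exact zero_ne_one hvn)
    have hWm : ∀ w : V, w ∈ W ↔ ⟪v, w⟫_ℂ = 0 := fun w => Submodule.mem_orthogonal_singleton_iff_inner_right
    have hinv : ∀ w ∈ W, T w ∈ W := by
      intro w hw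
      rw [hWm] at hw ⊢
      rw [← LinearMap.adjoint_inner_left, hve, inner_smul_left, hw, mul_zero]
    obtain ⟨b', hb'⟩ := ih W (T.restrict hinv) hW
    have horth : Orthonormal ℂ (Fin.snoc (α := fun _ => V) (fun i => (b' i : V)) v) := by
      rw [orthonormal_iff_ite]
      intro i j
      refine Fin.lastCases ?_ (fun i => ?_) i
      · refine Fin.lastCases ?_ (fun j => ?_) j
        · simp [inner_self_eq_norm_sq_to_K, hvn]
        · rw [Fin.snoc_last, Fin.snoc_castSucc, if_neg (Fin.castSucc_lt_last j).ne']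
          exact (hWm _).1 (b' j).2
      · refine Fin.lastCases ?_ (fun j => ?_) j
        · rw [Fin.snoc_last, Fin.snoc_castSucc, if_neg (Fin.castSucc_lt_last i).ne]
          rw [← inner_conj_symm, (hWm _).1 (b' i).2, map_zero]
        · rw [Fin.snoc_castSucc, Fin.snoc_castSucc]
          have h := orthonormal_iff_ite.1 b'.orthonormal i j
          rw [Submodule.coe_inner] at h
          rw [h]
          simp only [Fin.castSucc_inj]
    have hspan : ⊤ ≤ Submodule.span ℂ (Set.range (Fin.snoc (α := fun _ => V) (fun i => (b' i : V)) v)) := by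
      have h := horth.linearIndependent.span_eq_top_of_card_eq_finrank (by simp [hn])
      rw [h]
    refine ⟨OrthonormalBasis.mk horth hspan, ?_⟩
    intro i j hij
    simp only [OrthonormalBasis.coe_mk]
    revert hij
    refine Fin.lastCases ?_ (fun i => ?_) i
    · refine Fin.lastCases ?_ (fun j => ?_) j
      · intro h; exact absurd h (lt_irrefl _)
      · intro _
        rw [Fin.snoc_last, Fin.snoc_castSucc]
        exact (hWm _).1 (hinv _ (b' j).2)
    · refine Fin.lastCases ?_ (fun j => ?_) j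
      · intro h; exact absurd h (not_lt.2 (Fin.castSucc_lt_last i).le)
      · intro h
        rw [Fin.snoc_castSucc, Fin.snoc_castSucc]
        have h2 := hb' i j (Fin.castSucc_lt_castSucc_iff.1 h)
        rw [Submodule.coe_inner] at h2
        exact h2

variable {V : Type*} [NormedAddCommGroup V] [InnerProductSpace ℂ V] [FiniteDimensional ℂ V]

/-- P1 (Schur): upper triangular in an orthonormal basis. -/
theorem P1 (T : V →ₗ[ℂ] V) (n : ℕ) (hn : Module.finrank ℂ V = n) :
    ∃ b : OrthonormalBasis (Fin n) ℂ V, ∀ i j, j < i → ⟪b i, T (b j)⟫_ℂ = 0 :=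
  P1_schur_aux n V T hn

end Pool.Agent.Run7.h233.ZK
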