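import Mathlib
import Pool.Agent.Run7.h233.ZK.Base

open Finset
open scoped InnerProductSpace ComplexConjugate

namespace Pool.Agent.Run7.h233.ZK

/-- Weighted number of walks of length `p` from `x` to `l`. -/
noncomputable def P10_F (D : ℕ) (u c : ℤ → ℂ) (p : ℕ) (x l : ℤ) : ℂ :=
  ∑ j ∈ Fintype.piFinset (fun _ : Fin p => Finset.Icc (-(D : ℤ)) D),
    if x + ∑ i, j i = l then
      (∏ i : Fin p, u (x + ∑ l ∈ Finset.Iio i, j l)) * ∏ i, c (j i) else 0

theorem P10_Iio {p : ℕ} (j : Fin (p + 1) → ℤ) (i : Fin p) :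
    ∑ l ∈ Finset.Iio i.succ, j l = j 0 + ∑ l ∈ Finset.Iio i, j l.succ := by
  rw [show Finset.Iio i.succ = insert 0 ((Finset.Iio i).map (Fin.succEmb p)) from ?_,
    Finset.sum_insert ?_, Finset.sum_map]
  · rfl
  · simp
  · ext x
    simp only [Finset.mem_Iio, Finset.mem_insert, Finset.mem_map]
    refine Fin.cases ?_ (fun y => ?_) x
    · simp [Fin.succ_pos]
    · constructor
      · intro h
        exact Or.inr ⟨y, by simpa using h, rfl⟩
      · rintro (h | ⟨a, ha, hb⟩)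
        · exact absurd h (Fin.succ_ne_zero y)
        · have : a = y := Fin.succ_injective _ hb
          subst this
          simpa using ha

theorem P10_F_succ (D : ℕ) (u c : ℤ → ℂ) (p : ℕ) (x l : ℤ) :
    P10_F D u c (p + 1) x l = ∑ j0 ∈ Finset.Icc (-(D : ℤ)) D, u x * c j0 * P10_F D u c p (x + j0) l := by
  rw [P10_F]
  have h1 : ∀ f : (Fin (p + 1) → ℤ) → ℂ,
      ∑ j ∈ Fintype.piFinset (fun _ : Fin (p + 1) => Finset.Icc (-(D : ℤ)) D), f j
      = ∑ j0 ∈ Finset.Icc (-(D : ℤ)) D, ∑ j' ∈ Fintype.piFinset (fun _ : Fin p => Finset.Icc (-(D : ℤ)) D),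
          f (Fin.cons j0 j') := by
    intro f
    rw [← Finset.sum_product']
    refine (Finset.sum_bij' (fun q _ => (Fin.cons q.1 q.2 : Fin (p + 1) → ℤ))
      (fun j _ => (j 0, fun i => j i.succ)) ?_ ?_ ?_ ?_ ?_).symm
    · intro q hq
      rw [Finset.mem_product] at hq
      rw [Fintype.mem_piFinset]
      intro i
      refine Fin.cases ?_ (fun i => ?_) i
      · simpa using hq.1
      · simpa using (Fintype.mem_piFinset.1 hq.2 i)
    · intro j hj
      rw [Fintype.mem_piFinset] at hj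
      rw [Finset.mem_product]
      exact ⟨hj 0, Fintype.mem_piFinset.2 fun i => hj i.succ⟩
    · intro q _
      simp
    · intro j _
      funext i
      refine Fin.cases ?_ (fun i => ?_) i <;> simp
    · intro q _
      rfl
  rw [h1]
  refine Finset.sum_congr rfl fun j0 _ => ?_
  rw [P10_F, Finset.mul_sum]
  refine Finset.sum_congr rfl fun j' _ => ?_
  rw [Fin.sum_univ_succ, Fin.prod_univ_succ, Fin.prod_univ_succ]
  simp only [Fin.cons_zero, Fin.cons_succ, P10_Iio]
  have h0 : ∑ l ∈ Finset.Iio (0 : Fin (p + 1)), (Fin.cons j0 j' : Fin (p + 1) → ℤ) l = 0 := by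
    rw [show Finset.Iio (0 : Fin (p + 1)) = ∅ from by ext; simp, Finset.sum_empty]
  rw [h0, add_zero]
  simp only [← add_assoc]
  split_ifs
  · ring
  · ring

theorem P10_F_out (N D : ℕ) (u : ℤ → ℂ) (hu : ∀ n : ℤ, n ∉ Finset.Icc (-(N : ℤ)) N → u n = 0)
    (c : ℤ → ℂ) (p : ℕ) (x l : ℤ) (hl : l ∈ Finset.Icc (-(N : ℤ)) N)
    (hx : x ∉ Finset.Icc (-(N : ℤ)) N) : P10_F D u c p x l = 0 := by
  cases p with
  | zero =>
    rw [P10_F]
    refine Finset.sum_eq_zero fun j _ => ?_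
    rw [if_neg]
    rw [Finset.univ_eq_empty, Finset.sum_empty, add_zero]
    rintro rfl
    exact hx hl
  | succ p =>
    rw [P10_F_succ]
    refine Finset.sum_eq_zero fun j _ => ?_
    rw [hu x hx, zero_mul, zero_mul]

theorem P10_entry (N D : ℕ) (u : ℤ → ℂ) (hu : ∀ n : ℤ, n ∉ Finset.Icc (-(N : ℤ)) N → u n = 0)
    (c : ℤ → ℂ) (hc : Fin0 D c) (p : ℕ) (m l : Bx N) :
    ((Mu N c u) ^ p) m l = P10_F D u c p m l := by
  induction p generalizing m with
  | zero =>
    rw [pow_zero, P10_F, Matrix.one_apply]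
    rw [Fintype.piFinset_of_isEmpty, Fintype.sum_unique]
    simp only [Finset.univ_eq_empty, Finset.sum_empty, add_zero, Finset.prod_empty, mul_one]
    by_cases h : m = l
    · rw [if_pos h, if_pos (by rw [h])]
    · rw [if_neg h, if_neg (fun h' => h (Subtype.ext h'))]
  | succ p ih =>
    rw [pow_succ', Matrix.mul_apply, P10_F_succ]
    have h1 : ∑ x : Bx N, Mu N c u m x * (Mu N c u ^ p) x l
        = ∑ x : Bx N, u m * c ((x : ℤ) - m) * P10_F D u c p x l :=
      Finset.sum_congr rfl fun x _ => by rw [ih x]; rfl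
    rw [h1]
    have h2 : ∑ x : Bx N, u m * c ((x : ℤ) - m) * P10_F D u c p x l
        = ∑ x ∈ Finset.Icc (-(N : ℤ)) N, u m * c (x - m) * P10_F D u c p x l := by
      exact (Finset.sum_coe_sort (Finset.Icc (-(N : ℤ)) N)
        (fun x => u m * c (x - m) * P10_F D u c p x l))
    have h3 : ∑ x ∈ Finset.Icc (-(N : ℤ)) N, u m * c (x - m) * P10_F D u c p x l
        = ∑' x : ℤ, u m * c (x - m) * P10_F D u c p x l :=
      (tsum_eq_sum fun x hx => by rw [P10_F_out N D u hu c p x l l.2 hx, mul_zero]).symm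
    have h4 : ∑' x : ℤ, u m * c (x - m) * P10_F D u c p x l
        = ∑' x : ℤ, u m * c x * P10_F D u c p (m + x) l := by
      rw [← (Equiv.addLeft (m : ℤ)).tsum_eq (fun x => u m * c (x - m) * P10_F D u c p x l)]
      refine tsum_congr fun x => ?_
      simp only [Equiv.coe_addLeft, add_sub_cancel_left]
    rw [h2, h3, h4]
    exact tsum_eq_sum fun x hx => by rw [hc x hx, mul_zero, zero_mul]

/-- P10: path expansion of the trace of a power. -/
theorem P10 (N D : ℕ) (u : ℤ → ℂ) (hu : ∀ n : ℤ, n ∉ Finset.Icc (-(N : ℤ)) N → u n = 0)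
    (c : ℤ → ℂ) (hc : Fin0 D c) (p : ℕ) (hp : 1 ≤ p) :
    Matrix.trace ((Mu N c u) ^ p) = ∑ j ∈ Fintype.piFinset (fun _ : Fin p => Finset.Icc (-(D : ℤ)) D),
      if ∑ i, j i = 0 then
        (∑ n ∈ Finset.Icc (-(N : ℤ)) N, ∏ i : Fin p, u (n + ∑ l ∈ Finset.Iio i, j l)) * ∏ i, c (j i)
      else 0 := by
  rw [Matrix.trace]
  have h1 : ∑ m : Bx N, Matrix.diag (Mu N c u ^ p) m = ∑ m : Bx N, P10_F D u c p m m :=
    Finset.sum_congr rfl fun m _ => by rw [Matrix.diag_apply, P10_entry N D u hu c hc p m m]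
  have h2 : ∑ m : Bx N, P10_F D u c p m m = ∑ m ∈ Finset.Icc (-(N : ℤ)) N, P10_F D u c p m m :=
    Finset.sum_coe_sort (Finset.Icc (-(N : ℤ)) N) (fun m => P10_F D u c p m m)
  rw [h1, h2]
  simp only [P10_F]
  rw [Finset.sum_comm]
  refine Finset.sum_congr rfl fun j _ => ?_
  by_cases h : ∑ i, j i = 0
  · rw [if_pos h, Finset.sum_mul]
    exact Finset.sum_congr rfl fun n _ => by rw [if_pos (by rw [h, add_zero])]
  · rw [if_neg h]
    refine Finset.sum_eq_zero fun n _ => ?_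
    rw [if_neg]
    intro h'
    exact h (by linarith)

end Pool.Agent.Run7.h233.ZK
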