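import Mathlib
import Pool.Agent.Run7.h233.ZK.Base

open Finset
open scoped InnerProductSpace ComplexConjugate

namespace Pool.Agent.Run7.h233.ZK

theorem P11_part {p : ℕ} (j : Fin p → ℤ) (i : Fin p) :
    |∑ l ∈ Finset.Iio i, j l| ≤ ∑ l, |j l| :=
  (Finset.abs_sum_le_sum_abs _ _).trans
    (Finset.sum_le_sum_of_subset_of_nonneg (Finset.subset_univ _) fun _ _ _ => abs_nonneg _)

theorem P11_abs {k : ℕ} (j : Fin (2 * k) → ℤ) (n : ℤ) (hn : ∑ l, |j l| < |n|) :
    |fpoly j n| = fpoly j n := by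
  rw [abs_eq_self]
  rcases le_or_gt 0 n with h | h
  · rw [abs_of_nonneg h] at hn
    refine Finset.prod_nonneg fun i _ => ?_
    have := (abs_le.1 (P11_part j i)).1
    linarith
  · rw [abs_of_neg h] at hn
    have h1 : fpoly j n = ∏ i : Fin (2 * k), (-1 : ℤ) * |n + ∑ l ∈ Finset.Iio i, j l| := by
      refine Finset.prod_congr rfl fun i _ => ?_
      have h2 := (abs_le.1 (P11_part j i)).2
      have h3 : n + ∑ l ∈ Finset.Iio i, j l < 0 := by linarith
      rw [abs_of_neg h3]; ring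
    rw [h1, Finset.prod_mul_distrib, Finset.prod_const, Finset.card_univ, Fintype.card_fin,
      pow_mul]
    norm_num
    exact Finset.prod_nonneg fun i _ => abs_nonneg _

/-- P11: terms of `N_j` with `|n|` larger than `∑ |j_i|` vanish; so `N_j` is a finite sum,
where moreover only `n` with all partial sums in the box count. -/
theorem P11 (k N : ℕ) (j : Fin (2 * k) → ℤ) (hN : 2 * ∑ i, |j i| ≤ (N : ℤ)) :
    ((Nj j : ℤ) : ℂ) = ∑ n ∈ Finset.Icc (-(N : ℤ)) N,
      (∏ i : Fin (2 * k), (if n + ∑ l ∈ Finset.Iio i, j l ∈ Finset.Icc (-(N : ℤ)) N then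
          ((|n + ∑ l ∈ Finset.Iio i, j l| : ℤ) : ℂ) else 0)
        - ∏ i : Fin (2 * k), (if n + ∑ l ∈ Finset.Iio i, j l ∈ Finset.Icc (-(N : ℤ)) N then
          ((n + ∑ l ∈ Finset.Iio i, j l : ℤ) : ℂ) else 0)) := by
  have hs0 : 0 ≤ ∑ l, |j l| := Finset.sum_nonneg fun _ _ => abs_nonneg _
  have hNj : Nj j = ∑ n ∈ Finset.Icc (-(N : ℤ)) N, (|fpoly j n| - fpoly j n) := by
    rw [Nj]
    refine finsum_eq_sum_of_support_subset _ ?_
    intro n hn
    rw [Function.mem_support] at hn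
    rw [Finset.coe_Icc, Set.mem_Icc]
    by_contra hcon
    refine hn ?_
    rw [P11_abs j n ?_, sub_self]
    by_contra hle
    rw [not_lt, abs_le] at hle
    exact hcon ⟨by linarith [hle.1], by linarith [hle.2]⟩
  rw [hNj, Int.cast_sum]
  refine Finset.sum_congr rfl fun n _ => ?_
  by_cases hall : ∀ i : Fin (2 * k), n + ∑ l ∈ Finset.Iio i, j l ∈ Finset.Icc (-(N : ℤ)) N
  · rw [Finset.prod_congr rfl fun i _ => if_pos (hall i),
      Finset.prod_congr rfl fun i _ => if_pos (hall i)]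
    rw [fpoly, Finset.abs_prod]
    push_cast
    rfl
  · have hall' := hall
    push Not at hall
    obtain ⟨i, hi⟩ := hall
    rw [Finset.prod_eq_zero (Finset.mem_univ i) (if_neg hi),
      Finset.prod_eq_zero (Finset.mem_univ i) (if_neg hi), sub_zero]
    rw [P11_abs j n ?_, sub_self, Int.cast_zero]
    by_contra hle
    rw [not_lt, abs_le] at hle
    refine hall' fun i' => ?_
    have h2 := abs_le.1 (P11_part j i')
    rw [Finset.mem_Icc]
    exact ⟨by linarith [hle.1, h2.1], by linarith [hle.2, h2.2]⟩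

end Pool.Agent.Run7.h233.ZK
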