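import Mathlib
import Pool.Agent.Run7.h233.ZK.Base
import Pool.Agent.Run7.h233.ZK.P10
import Pool.Agent.Run7.h233.ZK.P11

open Finset
open scoped InnerProductSpace ComplexConjugate

namespace Pool.Agent.Run7.h233.ZK

theorem P12_Mu (N : ℕ) (c u : ℤ → ℂ) :
    Mu N c (fun n => if n ∈ Finset.Icc (-(N : ℤ)) N then u n else 0) = Mu N c u := by
  ext m l
  simp only [Mu, Matrix.of_apply]
  rw [if_pos m.2]

theorem P12 (k N D : ℕ) (hk : 1 ≤ k) (hN : 4 * k * D ≤ N) (c : ℤ → ℂ) (hc : Fin0 D c) :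
    Zk k c = Matrix.trace ((Mu N c (fun n => ((|n| : ℤ) : ℂ))) ^ (2 * k))
      - Matrix.trace ((Mu N c (fun n => (n : ℂ))) ^ (2 * k)) := by
  have h1 := P10 N D (fun n => if n ∈ Finset.Icc (-(N : ℤ)) N then ((|n| : ℤ) : ℂ) else 0)
    (fun n hn => if_neg hn) c hc (2 * k) (by omega)
  have h2 := P10 N D (fun n => if n ∈ Finset.Icc (-(N : ℤ)) N then (n : ℂ) else 0)
    (fun n hn => if_neg hn) c hc (2 * k) (by omega)
  rw [P12_Mu N c (fun n => ((|n| : ℤ) : ℂ))] at h1
  rw [P12_Mu N c (fun n => (n : ℂ))] at h2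
  rw [h1, h2, ← Finset.sum_sub_distrib]
  unfold Zk
  rw [tsum_eq_sum (s := Fintype.piFinset (fun _ : Fin (2 * k) => Finset.Icc (-(D : ℤ)) D))]
  · refine Finset.sum_congr rfl fun j hj => ?_
    unfold Zterm
    by_cases h0 : ∑ i, j i = 0
    · rw [if_pos h0, if_pos h0, if_pos h0, ← sub_mul, ← Finset.sum_sub_distrib]
      congr 1
      apply P11 k N j
      have hb : ∀ i, |j i| ≤ (D : ℤ) := by
        intro i
        have := Finset.mem_Icc.1 (Fintype.mem_piFinset.1 hj i)
        rw [abs_le]; exact this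
      have hs : ∑ i, |j i| ≤ ((2 * k : ℕ) : ℤ) * D := by
        refine (Finset.sum_le_sum fun i _ => hb i).trans ?_
        simp
      have hN' : (4 * k * D : ℤ) ≤ N := by exact_mod_cast hN
      push_cast at hs
      nlinarith
    · rw [if_neg h0, if_neg h0, if_neg h0, sub_zero]
  · intro j hj
    unfold Zterm
    split_ifs with h0
    · have : ∃ i, j i ∉ Finset.Icc (-(D : ℤ)) D := by
        by_contra hcon
        push Not at hcon
        exact hj (Fintype.mem_piFinset.2 hcon)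
      obtain ⟨i, hi⟩ := this
      rw [Finset.prod_eq_zero (mem_univ i) (hc _ hi), mul_zero]
    · rfl

end Pool.Agent.Run7.h233.ZK
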