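import Mathlib
import Pool.Agent.Run7.h233.ZK.Base

open Finset
open scoped InnerProductSpace ComplexConjugate

namespace Pool.Agent.Run7.h233.ZK

theorem P13_trace (N : ℕ) (M : Matrix (Bx N) (Bx N) ℂ) :
    LinearMap.trace ℂ (Vs N) (Matrix.toEuclideanLin M) = Matrix.trace M := by
  rw [Matrix.toEuclideanLin_eq_toLin_orthonormal]
  exact Matrix.trace_toLin_eq _ _

theorem P13_mul (N : ℕ) (A B : Matrix (Bx N) (Bx N) ℂ) :
    Matrix.toEuclideanLin A * Matrix.toEuclideanLin B = Matrix.toEuclideanLin (A * B) := by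
  exact (Matrix.toLpLin_mul_same 2 A B).symm

theorem P13_pow (N : ℕ) (A : Matrix (Bx N) (Bx N) ℂ) (p : ℕ) :
    (Matrix.toEuclideanLin A) ^ p = Matrix.toEuclideanLin (A ^ p) := by
  exact (Matrix.toLpLin_pow 2 A p).symm

theorem P13_cyc {ι : Type} [Fintype ι] [DecidableEq ι] (A B : Matrix ι ι ℂ) (p : ℕ) :
    Matrix.trace ((A * B) ^ p) = Matrix.trace ((B * A) ^ p) := by
  rcases p with _ | p
  · simp
  · have h : (A * B) ^ (p + 1) = A * ((B * A) ^ p * B) := by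
      rw [pow_succ, ← mul_assoc, mul_pow_mul, mul_assoc]
    rw [h, Matrix.trace_mul_comm, mul_assoc, ← pow_succ]

theorem P13 (N p : ℕ) (c : ℤ → ℂ) :
    LinearMap.trace ℂ (Vs N) ((Aop N c) ^ p) = Matrix.trace ((Mu N c (fun n => ((|n| : ℤ) : ℂ))) ^ p)
    ∧ LinearMap.trace ℂ (Vs N) ((Aop N c * Sop N) ^ p)
      = Matrix.trace ((Mu N c (fun n => (n : ℂ))) ^ p) := by
  set R : Matrix (Bx N) (Bx N) ℂ :=
    Matrix.diagonal fun m => ((Real.sqrt |((m : ℤ) : ℝ)| : ℝ) : ℂ) with hR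
  set C : Matrix (Bx N) (Bx N) ℂ := Matrix.of fun m l => c ((l : ℤ) - (m : ℤ)) with hC
  have hsq : ∀ m : Bx N, ((Real.sqrt |((m : ℤ) : ℝ)| : ℝ) : ℂ) * ((Real.sqrt |((m : ℤ) : ℝ)| : ℝ) : ℂ)
      = ((|(m : ℤ)| : ℤ) : ℂ) := by
    intro m
    rw [← Complex.ofReal_mul, Real.mul_self_sqrt (abs_nonneg _)]
    have : |((m : ℤ) : ℝ)| = ((|(m : ℤ)| : ℤ) : ℝ) := by rw [Int.cast_abs]
    rw [this, Complex.ofReal_intCast]
  have e1 : Amat N c = (R * C) * R := by
    ext m l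
    rw [hR, Matrix.mul_diagonal, Matrix.diagonal_mul]
    simp only [Amat, hC, Matrix.of_apply]
    push_cast
    ring
  have e2 : Mu N c (fun n => ((|n| : ℤ) : ℂ)) = R * (R * C) := by
    ext m l
    rw [hR, Matrix.diagonal_mul, Matrix.diagonal_mul]
    simp only [Mu, hC, Matrix.of_apply]
    rw [← mul_assoc, hsq]
  have e3 : Amat N c * Smat N = (R * C) * (R * Smat N) := by
    rw [e1]; simp only [mul_assoc]
  have e4 : Mu N c (fun n => (n : ℂ)) = (R * Smat N) * (R * C) := by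
    ext m l
    have : (R * Smat N) = Matrix.diagonal (fun m : Bx N => ((Real.sqrt |((m : ℤ) : ℝ)| : ℝ) : ℂ) *
        (if (m : ℤ) < 0 then (-1 : ℂ) else 1)) := by
      rw [hR, Smat, Matrix.diagonal_mul_diagonal]
    rw [this, hR, Matrix.diagonal_mul, Matrix.diagonal_mul]
    simp only [Mu, hC, Matrix.of_apply]
    have h := hsq m
    have h2 : ((m : ℤ) : ℂ) = (if (m : ℤ) < 0 then (-1 : ℂ) else 1) * ((|(m : ℤ)| : ℤ) : ℂ) := by
      split_ifs with hm
      · rw [abs_of_neg hm]; push_cast; ring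
      · rw [abs_of_nonneg (not_lt.1 hm), one_mul]
    rw [h2, ← h]
    ring
  constructor
  · rw [Aop, P13_pow, P13_trace, e1, P13_cyc, ← e2]
  · rw [Aop, Sop, P13_mul, P13_pow, P13_trace, e3, P13_cyc, ← e4]

end Pool.Agent.Run7.h233.ZK
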