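import Mathlib
import Pool.Agent.Run7.h233.ZK.Base

open Finset
open scoped InnerProductSpace ComplexConjugate

namespace Pool.Agent.Run7.h233.ZK

theorem P14 (N : ℕ) (c : ℤ → ℂ) (hc : ∀ n, c (-n) = conj (c n)) :
    (Aop N c).IsSymmetric ∧ (Sop N).IsSymmetric ∧ Sop N * Sop N = 1 ∧ (Wop N c).IsSymmetric := by
  have hA : (Aop N c).IsSymmetric := by
    unfold Aop
    rw [← Matrix.isHermitian_iff_isSymmetric]
    ext m l
    simp only [Amat, Matrix.conjTranspose_apply, Matrix.of_apply, star_mul', RCLike.star_def,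
      Complex.conj_ofReal]
    rw [← hc]
    have : -((m : ℤ) - (l : ℤ)) = (l : ℤ) - (m : ℤ) := by ring
    rw [this, mul_comm (Real.sqrt |((l : ℤ) : ℝ)|)]
  have hS : (Sop N).IsSymmetric := by
    unfold Sop
    rw [← Matrix.isHermitian_iff_isSymmetric]
    unfold Smat Matrix.IsHermitian
    rw [Matrix.diagonal_conjTranspose]
    congr 1
    funext m
    simp only [Pi.star_apply]
    split_ifs <;> simp
  have hSS : Sop N * Sop N = 1 := by
    unfold Sop
    have h1 : Smat N * Smat N = 1 := by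
      unfold Smat
      rw [Matrix.diagonal_mul_diagonal, ← Matrix.diagonal_one]
      congr 1
      funext m
      split_ifs <;> simp
    have h2 := Matrix.toLpLin_mul_same 2 (Smat N) (Smat N)
    rw [h1, Matrix.toLpLin_one] at h2
    exact h2.symm
  refine ⟨hA, hS, hSS, ?_⟩
  have hSAS : (Sop N * Aop N c * Sop N).IsSymmetric := by
    intro x y
    change ⟪Sop N (Aop N c (Sop N x)), y⟫_ℂ = ⟪x, Sop N (Aop N c (Sop N y))⟫_ℂ
    rw [hS, hA, hS]
  have h1 := (hA.pow 2).sub (hSAS.pow 2)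
  intro x y
  have h2 := h1 x y
  change ⟪(1 / 2 : ℂ) • ((Aop N c ^ 2 - (Sop N * Aop N c * Sop N) ^ 2) x), y⟫_ℂ =
    ⟪x, (1 / 2 : ℂ) • ((Aop N c ^ 2 - (Sop N * Aop N c * Sop N) ^ 2) y)⟫_ℂ
  have h3 : (starRingEnd ℂ) (1 / 2 : ℂ) = 1 / 2 := by rw [map_div₀, map_one, map_ofNat]
  rw [inner_smul_left, inner_smul_right, h2, h3]

end Pool.Agent.Run7.h233.ZK
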