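import Mathlib
import Pool.Agent.Run7.h233.ZK.Base

open Finset
open scoped InnerProductSpace ComplexConjugate

namespace Pool.Agent.Run7.h233.ZK

theorem P16_summable (D : ℕ) (c : ℤ → ℂ) (hc : Fin0 D c) (m n : ℤ) (u : ℤ → ℂ) :
    Summable fun l : ℤ => u l * c (l - m) * c (-l - n) := by
  apply summable_of_ne_finset_zero (s := Finset.Icc (m - D) (m + D))
  intro l hl
  have : c (l - m) = 0 := by
    apply hc
    intro h
    apply hl
    rw [Finset.mem_Icc] at h ⊢
    constructor <;> omega
  rw [this]
  ring

theorem P16 (D : ℕ) (c : ℤ → ℂ) (hc : Fin0 D c) (m n : ℤ) :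
    G c m n = G c n m ∧
    G c (m + 1) (n - 1) - 2 * G c m n + G c (m - 1) (n + 1) = 2 * c (-m) * c (-n) := by
  constructor
  · unfold G
    rw [← (Equiv.neg ℤ).tsum_eq]
    apply tsum_congr
    intro l
    simp only [Equiv.neg_apply, abs_neg, neg_neg]
    ring
  · have h1 : G c (m + 1) (n - 1) = ∑' l : ℤ, ((|l + 1| : ℤ) : ℂ) * c (l - m) * c (-l - n) := by
      unfold G
      rw [← (Equiv.addRight (1 : ℤ)).tsum_eq]
      apply tsum_congr
      intro l
      simp only [Equiv.coe_addRight]
      rw [show l + 1 - (m + 1) = l - m by ring, show -(l + 1) - (n - 1) = -l - n by ring]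
    have h2 : G c (m - 1) (n + 1) = ∑' l : ℤ, ((|l - 1| : ℤ) : ℂ) * c (l - m) * c (-l - n) := by
      unfold G
      rw [← (Equiv.subRight (1 : ℤ)).tsum_eq]
      apply tsum_congr
      intro l
      simp only [Equiv.subRight_apply]
      rw [show l - 1 - (m - 1) = l - m by ring, show -(l - 1) - (n + 1) = -l - n by ring]
    have h3 : 2 * G c m n = ∑' l : ℤ, (2 * ((|l| : ℤ) : ℂ)) * c (l - m) * c (-l - n) := by
      unfold G
      rw [← tsum_mul_left]
      apply tsum_congr
      intro l
      ring
    rw [h1, h2, h3, ← (P16_summable D c hc m n _).tsum_sub (P16_summable D c hc m n _),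
      ← ((P16_summable D c hc m n _).sub (P16_summable D c hc m n _)).tsum_add
        (P16_summable D c hc m n _)]
    rw [tsum_eq_single (0 : ℤ)]
    · simp only [zero_add, abs_one, abs_zero, zero_sub, abs_neg, neg_zero]
      push_cast
      ring
    · intro l hl
      have : ((|l + 1| : ℤ) : ℂ) - 2 * ((|l| : ℤ) : ℂ) + ((|l - 1| : ℤ) : ℂ) = 0 := by
        have h : |l + 1| - 2 * |l| + |l - 1| = 0 := by
          rcases lt_or_gt_of_ne hl with h | h
          · rw [abs_of_nonpos (by omega : l + 1 ≤ 0), abs_of_neg h,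
              abs_of_neg (by omega : l - 1 < 0)]
            ring
          · rw [abs_of_pos (by omega : 0 < l + 1), abs_of_pos h,
              abs_of_nonneg (by omega : 0 ≤ l - 1)]
            ring
        exact_mod_cast h
      linear_combination (c (l - m) * c (-l - n)) * this

end Pool.Agent.Run7.h233.ZK
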