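import Mathlib
import Pool.Agent.Run7.h233.ZK.Base

open Finset
open scoped InnerProductSpace ComplexConjugate

namespace Pool.Agent.Run7.h233.ZK

theorem P17_mid (M : ℕ) (m : ℤ) (h1 : (M : ℤ) ≤ m) (h2 : m ≤ 4 * (M : ℤ)) :
    pw M m = (((m : ℝ) - M) * (4 * (M : ℝ) - m)) ^ 2 / (M : ℝ) ^ 4 := by
  have h1' : (M : ℝ) ≤ m := by exact_mod_cast h1
  have h2' : (m : ℝ) ≤ 4 * (M : ℝ) := by exact_mod_cast h2
  rw [pw, max_eq_right (by linarith), max_eq_right (by linarith), mul_pow]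

theorem P17_zl (M : ℕ) (m : ℤ) (h : m ≤ M) : pw M m = 0 := by
  have : max 0 ((m : ℝ) - M) = 0 := by
    rw [max_eq_left_iff]
    have : (m : ℝ) ≤ M := by exact_mod_cast h
    linarith
  rw [pw, this]; simp

theorem P17_zr (M : ℕ) (m : ℤ) (h : 4 * (M : ℤ) ≤ m) : pw M m = 0 := by
  have : max 0 (4 * (M : ℝ) - m) = 0 := by
    rw [max_eq_left_iff]
    have : 4 * (M : ℝ) ≤ m := by exact_mod_cast h
    linarith
  rw [pw, this]; simp

theorem P17_edge (R : ℝ) (hR : 1 ≤ R) (e : ℝ) (he : e = 1 * (3 * R - 1)) :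
    |e ^ 2 / R ^ 4| ≤ 1000 / R ^ 2 := by
  have hR0 : 0 < R := by linarith
  rw [abs_of_nonneg (by positivity), div_le_div_iff₀ (by positivity) (by positivity), he]
  have h1 : (1 * (3 * R - 1)) ^ 2 ≤ 1000 * R ^ 2 := by nlinarith
  calc (1 * (3 * R - 1)) ^ 2 * R ^ 2 ≤ 1000 * R ^ 2 * R ^ 2 :=
        mul_le_mul_of_nonneg_right h1 (by positivity)
    _ = 1000 * R ^ 4 := by ring

theorem P17_sq_le (R : ℝ) (hR : 1 ≤ R) : 1000 / R ^ 2 ≤ 1000 / R := by
  have hR0 : 0 < R := by linarith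
  rw [div_le_div_iff₀ (by positivity) (by positivity)]
  nlinarith

theorem P17_int1 (R a : ℝ) (hR : 1 ≤ R) (ha : 0 ≤ a) (hb : a ≤ 3 * R) :
    |((a + 1) * (3 * R - a - 1)) ^ 2 / R ^ 4 - (a * (3 * R - a)) ^ 2 / R ^ 4| ≤ 1000 / R := by
  have hR0 : 0 < R := by linarith
  have hG0 : 0 ≤ a * (3 * R - a) := mul_nonneg ha (by linarith)
  have hG1 : a * (3 * R - a) ≤ 9 * R ^ 2 := by nlinarith
  rw [← sub_div, abs_div, abs_of_pos (by positivity : 0 < R ^ 4),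
    div_le_div_iff₀ (by positivity) (by positivity)]
  have e1 : ((a + 1) * (3 * R - a - 1)) ^ 2 - (a * (3 * R - a)) ^ 2
      = (3 * R - 2 * a - 1) * (2 * (a * (3 * R - a)) + (3 * R - 2 * a - 1)) := by ring
  have h1 : |3 * R - 2 * a - 1| ≤ 4 * R := abs_le.2 ⟨by linarith, by linarith⟩
  have h2 : |2 * (a * (3 * R - a)) + (3 * R - 2 * a - 1)| ≤ 22 * R ^ 2 := by
    have hRR : R ≤ R ^ 2 := by nlinarith
    refine abs_le.2 ⟨?_, ?_⟩
    · nlinarith
    · nlinarith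
  rw [e1, abs_mul]
  calc |3 * R - 2 * a - 1| * |2 * (a * (3 * R - a)) + (3 * R - 2 * a - 1)| * R
      ≤ (4 * R) * (22 * R ^ 2) * R := by
        refine mul_le_mul_of_nonneg_right ?_ hR0.le
        exact mul_le_mul h1 h2 (abs_nonneg _) (by positivity)
    _ = 88 * R ^ 4 := by ring
    _ ≤ 1000 * R ^ 4 := by
        have : 0 ≤ R ^ 4 := by positivity
        linarith

theorem P17_int2 (R a : ℝ) (hR : 1 ≤ R) (ha : 0 ≤ a) (hb : a ≤ 3 * R) :
    |((a + 1) * (3 * R - a - 1)) ^ 2 / R ^ 4 - 2 * ((a * (3 * R - a)) ^ 2 / R ^ 4)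
      + ((a - 1) * (3 * R - a + 1)) ^ 2 / R ^ 4| ≤ 1000 / R ^ 2 := by
  have hR0 : 0 < R := by linarith
  have hG0 : 0 ≤ a * (3 * R - a) := mul_nonneg ha (by linarith)
  have hG1 : a * (3 * R - a) ≤ 9 * R ^ 2 := by nlinarith
  have e1 : ((a + 1) * (3 * R - a - 1)) ^ 2 / R ^ 4 - 2 * ((a * (3 * R - a)) ^ 2 / R ^ 4)
      + ((a - 1) * (3 * R - a + 1)) ^ 2 / R ^ 4
      = (2 * (3 * R - 2 * a) ^ 2 - 4 * (a * (3 * R - a)) + 2) / R ^ 4 := by ring
  rw [e1, abs_div, abs_of_pos (by positivity : 0 < R ^ 4),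
    div_le_div_iff₀ (by positivity) (by positivity)]
  have h1 : |2 * (3 * R - 2 * a) ^ 2 - 4 * (a * (3 * R - a)) + 2| ≤ 1000 * R ^ 2 := by
    have hRR : 1 ≤ R ^ 2 := by nlinarith
    have hd : (3 * R - 2 * a) ^ 2 ≤ 9 * R ^ 2 := by nlinarith
    have hd0 : 0 ≤ (3 * R - 2 * a) ^ 2 := sq_nonneg _
    refine abs_le.2 ⟨?_, ?_⟩
    · linarith
    · linarith
  calc |2 * (3 * R - 2 * a) ^ 2 - 4 * (a * (3 * R - a)) + 2| * R ^ 2
      ≤ 1000 * R ^ 2 * R ^ 2 := mul_le_mul_of_nonneg_right h1 (by positivity)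
    _ = 1000 * R ^ 4 := by ring

/-- P17: bounds for the window function. -/
theorem P17 (M : ℕ) (hM : 1 ≤ M) (m : ℤ) :
    0 ≤ pw M m ∧ pw M m ≤ 81 ∧
    |pw M (m + 1) - pw M m| ≤ 1000 / M ∧
    |pw M (m + 1) - 2 * pw M m + pw M (m - 1)| ≤ 1000 / (M : ℝ) ^ 2 ∧
    (m ≤ M → pw M m = 0) ∧ (4 * (M : ℤ) ≤ m → pw M m = 0) ∧
    (3 * (M : ℤ) ≤ 2 * m → m ≤ 3 * (M : ℤ) → 1 / 4 ≤ pw M m) := by
  have hR : (1 : ℝ) ≤ (M : ℝ) := by exact_mod_cast hM
  have hR0 : (0 : ℝ) < (M : ℝ) := by linarith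
  have hMz : (1 : ℤ) ≤ (M : ℤ) := by exact_mod_cast hM
  refine ⟨?_, ?_, ?_, ?_, P17_zl M m, P17_zr M m, ?_⟩
  · rw [pw]; positivity
  · rcases le_or_gt m M with h | h
    · rw [P17_zl M m h]; norm_num
    rcases le_or_gt (4 * (M : ℤ)) m with h' | h'
    · rw [P17_zr M m h']; norm_num
    rw [P17_mid M m h.le h'.le, div_le_iff₀ (by positivity)]
    have h1 : (M : ℝ) ≤ m := by exact_mod_cast h.le
    have h2 : (m : ℝ) ≤ 4 * (M : ℝ) := by exact_mod_cast h'.le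
    have h3 : ((m : ℝ) - M) * (4 * (M : ℝ) - m) ≤ 9 * (M : ℝ) ^ 2 := by nlinarith
    have h4 : 0 ≤ ((m : ℝ) - M) * (4 * (M : ℝ) - m) := mul_nonneg (by linarith) (by linarith)
    calc (((m : ℝ) - M) * (4 * (M : ℝ) - m)) ^ 2 ≤ (9 * (M : ℝ) ^ 2) ^ 2 :=
          pow_le_pow_left₀ h4 h3 2
      _ = 81 * (M : ℝ) ^ 4 := by ring
  · rcases lt_or_ge m M with h | h
    · rw [P17_zl M m h.le, P17_zl M (m + 1) (by omega), sub_zero, abs_zero]; positivity
    rcases le_or_gt (4 * (M : ℤ)) m with h' | h'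
    · rw [P17_zr M m h', P17_zr M (m + 1) (by omega), sub_zero, abs_zero]; positivity
    have h1 : (M : ℝ) ≤ m := by exact_mod_cast h
    have h2 : (m : ℝ) ≤ 4 * (M : ℝ) := by exact_mod_cast h'.le
    rw [P17_mid M m h h'.le, P17_mid M (m + 1) (by omega) (by omega)]
    have := P17_int1 (M : ℝ) ((m : ℝ) - M) hR (by linarith) (by linarith)
    rw [show 3 * (M : ℝ) - ((m : ℝ) - M) = 4 * (M : ℝ) - m by ring] at this
    rw [show (((m + 1 : ℤ) : ℝ) - M) = (m : ℝ) - M + 1 by push_cast; ring,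
      show (4 * (M : ℝ) - ((m + 1 : ℤ) : ℝ)) = 4 * (M : ℝ) - m - 1 by push_cast; ring]
    exact this
  · rcases lt_trichotomy m M with h | h | h
    · rw [P17_zl M m h.le, P17_zl M (m + 1) (by omega), P17_zl M (m - 1) (by omega)]
      simp only [mul_zero, sub_zero, add_zero, abs_zero]
      positivity
    · rw [P17_zl M m h.le, P17_zl M (m - 1) (by omega),
        P17_mid M (m + 1) (by omega) (by omega)]
      simp only [mul_zero, sub_zero, add_zero]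
      refine P17_edge (M : ℝ) hR _ ?_
      rw [h]
      push_cast
      ring
    · rcases lt_trichotomy m (4 * (M : ℤ)) with h' | h' | h'
      · have h1 : (M : ℝ) ≤ m := by exact_mod_cast h.le
        have h2 : (m : ℝ) ≤ 4 * (M : ℝ) := by exact_mod_cast h'.le
        rw [P17_mid M m h.le h'.le, P17_mid M (m + 1) (by omega) (by omega),
          P17_mid M (m - 1) (by omega) (by omega)]
        have := P17_int2 (M : ℝ) ((m : ℝ) - M) hR (by linarith) (by linarith)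
        rw [show 3 * (M : ℝ) - ((m : ℝ) - M) = 4 * (M : ℝ) - m by ring] at this
        rw [show (((m + 1 : ℤ) : ℝ) - M) = (m : ℝ) - M + 1 by push_cast; ring,
          show (4 * (M : ℝ) - ((m + 1 : ℤ) : ℝ)) = 4 * (M : ℝ) - m - 1 by push_cast; ring,
          show (((m - 1 : ℤ) : ℝ) - M) = (m : ℝ) - M - 1 by push_cast; ring,
          show (4 * (M : ℝ) - ((m - 1 : ℤ) : ℝ)) = 4 * (M : ℝ) - m + 1 by push_cast; ring]
        exact this
      · rw [P17_zr M m h'.ge, P17_zr M (m + 1) (by omega),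
          P17_mid M (m - 1) (by omega) (by omega)]
        simp only [mul_zero, sub_zero, zero_add]
        refine P17_edge (M : ℝ) hR _ ?_
        rw [h']
        push_cast
        ring
      · rw [P17_zr M m h'.le, P17_zr M (m + 1) (by omega), P17_zr M (m - 1) (by omega)]
        simp only [mul_zero, sub_zero, add_zero, abs_zero]
        positivity
  · intro h3 h4
    have h1 : 3 * (M : ℝ) ≤ 2 * m := by exact_mod_cast h3
    have h2 : (m : ℝ) ≤ 3 * (M : ℝ) := by exact_mod_cast h4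
    rw [P17_mid M m (by omega) (by omega), le_div_iff₀ (by positivity)]
    have h5 : (M : ℝ) ^ 2 / 2 ≤ ((m : ℝ) - M) * (4 * (M : ℝ) - m) := by
      calc (M : ℝ) ^ 2 / 2 = ((M : ℝ) / 2) * M := by ring
        _ ≤ _ := mul_le_mul (by linarith) (by linarith) hR0.le (by linarith)
    calc 1 / 4 * (M : ℝ) ^ 4 = ((M : ℝ) ^ 2 / 2) ^ 2 := by ring
      _ ≤ _ := pow_le_pow_left₀ (by positivity) h5 2

end Pool.Agent.Run7.h233.ZK
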