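import Mathlib
import Pool.Agent.Run7.h233.ZK.Base
import Pool.Agent.Run7.h233.ZK.P16

open Finset
open scoped InnerProductSpace ComplexConjugate

namespace Pool.Agent.Run7.h233.ZK

theorem P18_supp (M : ℕ) (m : ℤ) (h : m ≤ M ∨ 4 * (M : ℤ) ≤ m) : ((pw M m : ℝ) : ℂ) = 0 := by
  have h0 : pw M m = 0 := by
    rw [pw]
    rcases h with h | h
    · have : max 0 ((m : ℝ) - M) = 0 := by
        rw [max_eq_left_iff]
        have : (m : ℝ) ≤ M := by exact_mod_cast h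
        linarith
      rw [this]; simp
    · have : max 0 (4 * (M : ℝ) - m) = 0 := by
        rw [max_eq_left_iff]
        have : 4 * (M : ℝ) ≤ m := by exact_mod_cast h
        linarith
      rw [this]; simp
  rw [h0, Complex.ofReal_zero]

theorem P18_up (M : ℕ) (f : ℤ → ℂ) :
    ∑ m ∈ Finset.Icc (M : ℤ) (4 * M), (pw M m : ℂ) * f (m + 1)
      = ∑ m ∈ Finset.Icc (M : ℤ) (4 * M), (pw M (m - 1) : ℂ) * f m := by
  calc ∑ m ∈ Finset.Icc (M : ℤ) (4 * M), (pw M m : ℂ) * f (m + 1)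
      = ∑' m : ℤ, (pw M m : ℂ) * f (m + 1) := by
        refine (tsum_eq_sum fun m hm => ?_).symm
        rw [Finset.mem_Icc] at hm
        rw [P18_supp M m (by by_contra hc; push Not at hc; exact hm ⟨by omega, by omega⟩),
          zero_mul]
    _ = ∑' m : ℤ, (pw M (m - 1) : ℂ) * f m := by
        rw [← (Equiv.subRight (1 : ℤ)).tsum_eq (fun m => (pw M m : ℂ) * f (m + 1))]
        refine tsum_congr fun m => ?_
        simp only [Equiv.subRight_apply, sub_add_cancel]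
    _ = _ := by
        refine tsum_eq_sum fun m hm => ?_
        rw [Finset.mem_Icc] at hm
        rw [P18_supp M (m - 1) (by by_contra hc; push Not at hc; exact hm ⟨by omega, by omega⟩),
          zero_mul]

theorem P18_dn (M : ℕ) (f : ℤ → ℂ) :
    ∑ m ∈ Finset.Icc (M : ℤ) (4 * M), (pw M m : ℂ) * f (m - 1)
      = ∑ m ∈ Finset.Icc (M : ℤ) (4 * M), (pw M (m + 1) : ℂ) * f m := by
  calc ∑ m ∈ Finset.Icc (M : ℤ) (4 * M), (pw M m : ℂ) * f (m - 1)
      = ∑' m : ℤ, (pw M m : ℂ) * f (m - 1) := by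
        refine (tsum_eq_sum fun m hm => ?_).symm
        rw [Finset.mem_Icc] at hm
        rw [P18_supp M m (by by_contra hc; push Not at hc; exact hm ⟨by omega, by omega⟩),
          zero_mul]
    _ = ∑' m : ℤ, (pw M (m + 1) : ℂ) * f m := by
        rw [← (Equiv.addRight (1 : ℤ)).tsum_eq (fun m => (pw M m : ℂ) * f (m - 1))]
        refine tsum_congr fun m => ?_
        simp only [Equiv.coe_addRight, add_sub_cancel_right]
    _ = _ := by
        refine tsum_eq_sum fun m hm => ?_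
        rw [Finset.mem_Icc] at hm
        rw [P18_supp M (m + 1) (by by_contra hc; push Not at hc; exact hm ⟨by omega, by omega⟩),
          zero_mul]

/-- P18: the square of the windowed sum in terms of `G` (uses P16). -/
theorem P18 (D M : ℕ) (hM : 1 ≤ M) (c : ℤ → ℂ) (hc : Fin0 D c) (z : ℂ) (hz : z ≠ 0) :
    (∑ m ∈ Finset.Icc (M : ℤ) (4 * M), (pw M m : ℂ) * c (-m) * z ^ m) ^ 2
      = ∑ m ∈ Finset.Icc (M : ℤ) (4 * M), ∑ n ∈ Finset.Icc (M : ℤ) (4 * M),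
        (((pw M m) * (pw M (n + 1) - 2 * pw M n + pw M (n - 1))
          - (pw M (m + 1) - pw M m) * (pw M n - pw M (n - 1)) : ℝ) : ℂ) * G c m n * z ^ (m + n) := by
  set s := Finset.Icc (M : ℤ) (4 * M) with hs
  let Gz : ℤ → ℤ → ℂ := fun m n => G c m n * z ^ (m + n)
  have hsym : ∀ m n, Gz m n = Gz n m := fun m n => by
    simp only [Gz]; rw [(P16 D c hc m n).1, add_comm m n]
  -- the shifted sums
  have e1 : ∑ m ∈ s, ∑ n ∈ s, (pw M m : ℂ) * pw M n * Gz (m + 1) (n - 1)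
      = ∑ m ∈ s, ∑ n ∈ s, (pw M (m - 1) : ℂ) * pw M (n + 1) * Gz m n := by
    calc ∑ m ∈ s, ∑ n ∈ s, (pw M m : ℂ) * pw M n * Gz (m + 1) (n - 1)
        = ∑ m ∈ s, (pw M m : ℂ) * ∑ n ∈ s, (pw M n : ℂ) * Gz (m + 1) (n - 1) := by
          simp only [Finset.mul_sum, mul_assoc]
      _ = ∑ m ∈ s, (pw M m : ℂ) * ∑ n ∈ s, (pw M (n + 1) : ℂ) * Gz (m + 1) n := by
          refine Finset.sum_congr rfl fun m _ => ?_
          rw [hs, P18_dn M (fun n => Gz (m + 1) n)]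
      _ = ∑ m ∈ s, (pw M (m - 1) : ℂ) * ∑ n ∈ s, (pw M (n + 1) : ℂ) * Gz m n := by
          rw [hs, P18_up M (fun m => ∑ n ∈ Finset.Icc (M : ℤ) (4 * M),
            (pw M (n + 1) : ℂ) * Gz m n)]
      _ = _ := by simp only [Finset.mul_sum, mul_assoc]
  have e2 : ∑ m ∈ s, ∑ n ∈ s, (pw M m : ℂ) * pw M n * Gz (m - 1) (n + 1)
      = ∑ m ∈ s, ∑ n ∈ s, (pw M (m + 1) : ℂ) * pw M (n - 1) * Gz m n := by
    calc ∑ m ∈ s, ∑ n ∈ s, (pw M m : ℂ) * pw M n * Gz (m - 1) (n + 1)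
        = ∑ m ∈ s, (pw M m : ℂ) * ∑ n ∈ s, (pw M n : ℂ) * Gz (m - 1) (n + 1) := by
          simp only [Finset.mul_sum, mul_assoc]
      _ = ∑ m ∈ s, (pw M m : ℂ) * ∑ n ∈ s, (pw M (n - 1) : ℂ) * Gz (m - 1) n := by
          refine Finset.sum_congr rfl fun m _ => ?_
          rw [hs, P18_up M (fun n => Gz (m - 1) n)]
      _ = ∑ m ∈ s, (pw M (m + 1) : ℂ) * ∑ n ∈ s, (pw M (n - 1) : ℂ) * Gz m n := by
          rw [hs, P18_dn M (fun m => ∑ n ∈ Finset.Icc (M : ℤ) (4 * M),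
            (pw M (n - 1) : ℂ) * Gz m n)]
      _ = _ := by simp only [Finset.mul_sum, mul_assoc]
  have e3 : ∑ m ∈ s, ∑ n ∈ s, (pw M (m - 1) : ℂ) * pw M (n + 1) * Gz m n
      = ∑ m ∈ s, ∑ n ∈ s, (pw M (m + 1) : ℂ) * pw M (n - 1) * Gz m n := by
    rw [Finset.sum_comm]
    refine Finset.sum_congr rfl fun m _ => Finset.sum_congr rfl fun n _ => ?_
    rw [hsym n m]; ring
  have e4 : ∑ m ∈ s, ∑ n ∈ s, (pw M m : ℂ) * pw M (n + 1) * Gz m n
      = ∑ m ∈ s, ∑ n ∈ s, (pw M (m + 1) : ℂ) * pw M n * Gz m n := by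
    rw [Finset.sum_comm]
    refine Finset.sum_congr rfl fun m _ => Finset.sum_congr rfl fun n _ => ?_
    rw [hsym n m]; ring
  have hL : 2 * (∑ m ∈ s, (pw M m : ℂ) * c (-m) * z ^ m) ^ 2
      = ∑ m ∈ s, ∑ n ∈ s, (pw M m : ℂ) * pw M n * Gz (m + 1) (n - 1)
        - 2 * ∑ m ∈ s, ∑ n ∈ s, (pw M m : ℂ) * pw M n * Gz m n
        + ∑ m ∈ s, ∑ n ∈ s, (pw M m : ℂ) * pw M n * Gz (m - 1) (n + 1) := by
    rw [pow_two, Finset.sum_mul_sum, Finset.mul_sum, Finset.mul_sum, ← Finset.sum_sub_distrib,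
      ← Finset.sum_add_distrib]
    refine Finset.sum_congr rfl fun m _ => ?_
    rw [Finset.mul_sum, Finset.mul_sum, ← Finset.sum_sub_distrib, ← Finset.sum_add_distrib]
    refine Finset.sum_congr rfl fun n _ => ?_
    have h16 := (P16 D c hc m n).2
    simp only [Gz]
    rw [show m + 1 + (n - 1) = m + n by ring, show m - 1 + (n + 1) = m + n by ring,
      zpow_add₀ hz]
    linear_combination (-(pw M m : ℂ) * (pw M n : ℂ) * z ^ m * z ^ n) * h16
  have hR : ∑ m ∈ s, ∑ n ∈ s,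
        (((pw M m) * (pw M (n + 1) - 2 * pw M n + pw M (n - 1))
          - (pw M (m + 1) - pw M m) * (pw M n - pw M (n - 1)) : ℝ) : ℂ) * G c m n * z ^ (m + n)
      = ∑ m ∈ s, ∑ n ∈ s, (pw M m : ℂ) * pw M (n + 1) * Gz m n
        - ∑ m ∈ s, ∑ n ∈ s, (pw M m : ℂ) * pw M n * Gz m n
        - ∑ m ∈ s, ∑ n ∈ s, (pw M (m + 1) : ℂ) * pw M n * Gz m n
        + ∑ m ∈ s, ∑ n ∈ s, (pw M (m + 1) : ℂ) * pw M (n - 1) * Gz m n := by
    rw [← Finset.sum_sub_distrib, ← Finset.sum_sub_distrib, ← Finset.sum_add_distrib]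
    refine Finset.sum_congr rfl fun m _ => ?_
    rw [← Finset.sum_sub_distrib, ← Finset.sum_sub_distrib, ← Finset.sum_add_distrib]
    refine Finset.sum_congr rfl fun n _ => ?_
    simp only [Gz]
    push_cast
    ring
  rw [hR, e4]
  rw [e1, e2, e3] at hL
  have h2 : (2 : ℂ) ≠ 0 := two_ne_zero
  refine mul_left_cancel₀ h2 ?_
  rw [hL]
  ring

end Pool.Agent.Run7.h233.ZK
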