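import Mathlib
import Pool.Agent.Run7.h233.ZK.Base

/-!
# P19 of project ZK (helper233), by helper834: Parseval on a grid
-/

set_option autoImplicit false
set_option linter.all false

open Finset
open scoped InnerProductSpace ComplexConjugate

namespace Pool.Agent.Run7.h233.ZK

theorem P19_zr_eq_pow (M j : ℕ) :
    zr M j = (Complex.exp (2 * Real.pi * Complex.I / ((4 * M : ℕ) : ℂ))) ^ j := by
  rw [zr, ← Complex.exp_nat_mul]
  congr 1
  push_cast
  ring

theorem P19_norm_zr (M j : ℕ) : ‖zr M j‖ = 1 := by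
  have h : zr M j = Complex.exp (((2 * Real.pi * j / (4 * M) : ℝ) : ℂ) * Complex.I) := by
    rw [zr]; congr 1; push_cast; ring
  rw [h, Complex.norm_exp_ofReal_mul_I]

theorem P19_zr_ne_zero (M j : ℕ) : zr M j ≠ 0 := by
  rw [zr]; exact Complex.exp_ne_zero _

theorem P19_norm_zr_zpow (M j : ℕ) (m : ℤ) : ‖zr M j ^ m‖ = 1 := by
  rw [norm_zpow, P19_norm_zr, one_zpow]

theorem P19_sum_zr (M : ℕ) (hM : 1 ≤ M) (k : ℤ) (h1 : -(4 * (M : ℤ)) < k) (h2 : k < 4 * (M : ℤ)) :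
    ∑ j ∈ Finset.range (4 * M), zr M j ^ k = if k = 0 then (4 * M : ℂ) else 0 := by
  by_cases hk : k = 0
  · subst hk
    simp
  · rw [if_neg hk]
    obtain ⟨w, hw⟩ : ∃ w, w = Complex.exp (2 * Real.pi * Complex.I / ((4 * M : ℕ) : ℂ)) := ⟨_, rfl⟩
    have hprim : IsPrimitiveRoot w (4 * M) := by
      rw [hw]; exact Complex.isPrimitiveRoot_exp (4 * M) (by omega)
    have hne : w ^ k ≠ 1 := by
      rw [Ne, hprim.zpow_eq_one_iff_dvd]
      intro hd
      obtain ⟨a, ha⟩ := hd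
      push_cast at ha
      rcases lt_trichotomy a 0 with h | h | h
      · have : a ≤ -1 := by omega
        nlinarith
      · rw [h, mul_zero] at ha; exact hk ha
      · have : 1 ≤ a := by omega
        nlinarith
    have h3 : ∀ j : ℕ, zr M j ^ k = (w ^ k) ^ j := by
      intro j
      rw [P19_zr_eq_pow, ← hw, ← zpow_natCast, ← zpow_natCast, ← zpow_mul, ← zpow_mul, mul_comm]
    have h4 : (w ^ k) ^ (4 * M) = 1 := by
      rw [← zpow_natCast, ← zpow_mul, mul_comm, zpow_mul, zpow_natCast, hprim.pow_eq_one, one_zpow]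
    have h5 := mul_neg_geom_sum (w ^ k) (4 * M)
    rw [h4, sub_self] at h5
    simp only [h3]
    rcases mul_eq_zero.1 h5 with h | h
    · exact absurd (sub_eq_zero.1 h).symm hne
    · exact h

/-- P19: Parseval on the grid of `4 M` points. -/
theorem P19 (M : ℕ) (hM : 1 ≤ M) (g : ℤ → ℂ) :
    ∑ j ∈ Finset.range (4 * M), ‖∑ m ∈ Finset.Icc (M : ℤ) (4 * M), g m * zr M j ^ m‖ ^ 2
      = (4 * M : ℝ) * ∑ m ∈ Finset.Icc (M : ℤ) (4 * M), ‖g m‖ ^ 2 := by
  have h1 : ∀ j : ℕ, ((‖∑ m ∈ Finset.Icc (M : ℤ) (4 * M), g m * zr M j ^ m‖ ^ 2 : ℝ) : ℂ) =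
      ∑ m ∈ Finset.Icc (M : ℤ) (4 * M), ∑ n ∈ Finset.Icc (M : ℤ) (4 * M),
        (g m * conj (g n)) * zr M j ^ (m - n) := by
    intro j
    rw [Complex.ofReal_pow, ← Complex.mul_conj', map_sum, sum_mul_sum]
    refine sum_congr rfl fun m _ => sum_congr rfl fun n _ => ?_
    have h2 : conj (zr M j ^ n) = (zr M j ^ n)⁻¹ := by
      rw [← Complex.inv_eq_conj (P19_norm_zr_zpow M j n)]
    rw [map_mul, h2, zpow_sub₀ (P19_zr_ne_zero M j)]
    ring
  apply Complex.ofReal_injective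
  rw [Complex.ofReal_sum]
  simp only [h1]
  rw [sum_comm]
  have h2 : ∀ m ∈ Finset.Icc (M : ℤ) (4 * M), ∑ j ∈ Finset.range (4 * M),
      ∑ n ∈ Finset.Icc (M : ℤ) (4 * M), (g m * conj (g n)) * zr M j ^ (m - n) =
      (4 * M : ℂ) * (‖g m‖ ^ 2 : ℝ) := by
    intro m hm
    rw [mem_Icc] at hm
    rw [sum_comm]
    have h3 : ∀ n ∈ Finset.Icc (M : ℤ) (4 * M), ∑ j ∈ Finset.range (4 * M),
        (g m * conj (g n)) * zr M j ^ (m - n) =
        if m = n then (g m * conj (g n)) * (4 * M : ℂ) else 0 := by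
      intro n hn
      rw [mem_Icc] at hn
      rw [← mul_sum, P19_sum_zr M hM (m - n) (by omega) (by omega)]
      by_cases hmn : m = n
      · rw [if_pos hmn, if_pos (by omega)]
      · rw [if_neg hmn, if_neg (by omega), mul_zero]
    rw [sum_congr rfl h3, sum_ite_eq, if_pos (mem_Icc.2 hm), Complex.mul_conj', Complex.ofReal_pow]
    ring
  rw [sum_congr rfl h2, ← mul_sum]
  push_cast
  ring

end Pool.Agent.Run7.h233.ZK
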