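import Mathlib
import Pool.Agent.Run7.h233.ZK.Base

open Finset
open scoped InnerProductSpace ComplexConjugate

namespace Pool.Agent.Run7.h233.ZK

variable {V : Type} [NormedAddCommGroup V] [InnerProductSpace ℂ V] [FiniteDimensional ℂ V]

omit [FiniteDimensional ℂ V] in
theorem P2_aux {n : ℕ} (b : OrthonormalBasis (Fin n) ℂ V) (T : V →ₗ[ℂ] V)
    (h : ∀ i j, j < i → ⟪b i, T (b j)⟫_ℂ = 0) (p : ℕ) : ∀ i : Fin n,
    (∀ j, j < i → ⟪b i, (T ^ p) (b j)⟫_ℂ = 0) ∧ ⟪b i, (T ^ p) (b i)⟫_ℂ = ⟪b i, T (b i)⟫_ℂ ^ p := by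
  induction p with
  | zero =>
    intro i
    refine ⟨fun j hj => ?_, ?_⟩
    · rw [pow_zero, Module.End.one_apply]
      exact b.orthonormal.2 (ne_of_gt hj)
    · rw [pow_zero, pow_zero, Module.End.one_apply, inner_self_eq_norm_sq_to_K,
        b.orthonormal.1 i]
      norm_num
  | succ p ih =>
    intro i
    have key : ∀ j, ⟪b i, (T ^ (p + 1)) (b j)⟫_ℂ =
        ∑ k, ⟪b k, T (b j)⟫_ℂ * ⟪b i, (T ^ p) (b k)⟫_ℂ := by
      intro j
      rw [pow_succ, Module.End.mul_apply]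
      conv_lhs => rw [← b.sum_repr' (T (b j))]
      rw [map_sum, inner_sum]
      refine Finset.sum_congr rfl fun k _ => ?_
      rw [map_smul, inner_smul_right]
    refine ⟨fun j hj => ?_, ?_⟩
    · rw [key]
      refine Finset.sum_eq_zero fun k _ => ?_
      rcases lt_or_ge j k with h1 | h1
      · rw [h k j h1, zero_mul]
      · rw [(ih i).1 k (lt_of_le_of_lt h1 hj), mul_zero]
    · rw [key, Finset.sum_eq_single i, (ih i).2, pow_succ, mul_comm]
      · intro k _ hk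
        rcases lt_or_gt_of_ne hk with h1 | h1
        · rw [(ih i).1 k h1, mul_zero]
        · rw [h k i h1, zero_mul]
      · intro h1
        exact absurd (Finset.mem_univ i) h1

/-- P2: trace of a power of a triangular operator. -/
theorem P2 {n : ℕ} (b : OrthonormalBasis (Fin n) ℂ V) (T : V →ₗ[ℂ] V)
    (h : ∀ i j, j < i → ⟪b i, T (b j)⟫_ℂ = 0) (p : ℕ) :
    LinearMap.trace ℂ V (T ^ p) = ∑ i, ⟪b i, T (b i)⟫_ℂ ^ p := by
  rw [LinearMap.trace_eq_sum_inner _ b]
  exact Finset.sum_congr rfl fun i _ => (P2_aux b T h p i).2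

end Pool.Agent.Run7.h233.ZK
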