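import Mathlib
import Pool.Agent.Run7.h233.ZK.Base
import Pool.Agent.Run7.h233.ZK.P17
import Pool.Agent.Run7.h233.ZK.P18
import Pool.Agent.Run7.h233.ZK.P19

open Finset
open scoped InnerProductSpace ComplexConjugate

namespace Pool.Agent.Run7.h233.ZK

theorem P20_pow (s : Finset ℤ) (f : ℤ → ℝ) (hf : ∀ m, 0 ≤ f m) (k : ℕ) (hk : 1 ≤ k) :
    ∑ m ∈ s, f m ^ k ≤ (∑ m ∈ s, f m) ^ k := by
  obtain ⟨k, rfl⟩ : ∃ l, k = l + 1 := ⟨k - 1, by omega⟩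
  have h0 : 0 ≤ ∑ m ∈ s, f m := sum_nonneg fun m _ => hf m
  calc ∑ m ∈ s, f m ^ (k + 1) ≤ ∑ m ∈ s, (∑ m ∈ s, f m) ^ k * f m := by
        refine sum_le_sum fun m hm => ?_
        rw [pow_succ]
        refine mul_le_mul_of_nonneg_right ?_ (hf m)
        exact pow_le_pow_left₀ (hf m) (single_le_sum (fun i _ => hf i) hm) k
    _ = (∑ m ∈ s, f m) ^ (k + 1) := by rw [← mul_sum, pow_succ]

theorem P20_mean (n : ℕ) (hn : 1 ≤ n) (f : ℕ → ℝ) (hf : ∀ m, 0 ≤ f m) (k : ℕ) :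
    ((1 / n : ℝ) * ∑ j ∈ range n, f j) ^ k ≤ (1 / n : ℝ) * ∑ j ∈ range n, f j ^ k := by
  have hn0 : (0 : ℝ) < n := by exact_mod_cast hn
  have h := (convexOn_pow k).map_sum_le (t := range n) (w := fun _ => (1 / n : ℝ)) (p := f)
    (fun i _ => by positivity) (by
      rw [sum_const, card_range, nsmul_eq_mul]
      field_simp) (fun i _ => hf i)
  simp only [smul_eq_mul] at h
  rw [← mul_sum, ← mul_sum] at h
  exact h

theorem P20_two (a b : ℝ) (ha : 0 ≤ a) (hb : 0 ≤ b) (k : ℕ) :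
    (a + b) ^ k ≤ 2 ^ k * (a ^ k + b ^ k) := by
  rcases le_total a b with h | h
  · calc (a + b) ^ k ≤ (2 * b) ^ k := pow_le_pow_left₀ (by positivity) (by linarith) k
      _ = 2 ^ k * b ^ k := by rw [mul_pow]
      _ ≤ _ := by
        have : 0 ≤ a ^ k := by positivity
        gcongr
        linarith
  · calc (a + b) ^ k ≤ (2 * a) ^ k := pow_le_pow_left₀ (by positivity) (by linarith) k
      _ = 2 ^ k * a ^ k := by rw [mul_pow]
      _ ≤ _ := by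
        have : 0 ≤ b ^ k := by positivity
        gcongr
        linarith

/-- P20: single window estimate. -/
theorem P20 (k : ℕ) (hk : 1 ≤ k) : ∃ C : ℝ, 0 < C ∧ ∀ M : ℕ, 1 ≤ M →
    ∃ α β : Fin 2 → ℤ → ℂ, (∀ r m, ‖α r m‖ ≤ 1) ∧ (∀ r m, ‖β r m‖ ≤ 1) ∧
      (∀ r m, m ∉ Finset.Icc (M : ℤ) (4 * M) → α r m = 0 ∧ β r m = 0) ∧
      ∀ (D : ℕ) (c : ℤ → ℂ), Fin0 D c →
        (M : ℝ) ^ (2 * k + 1) * ∑ m ∈ (Finset.Icc (M : ℤ) (4 * M)).filter
            (fun m => 3 * (M : ℤ) ≤ 2 * m ∧ m ≤ 3 * (M : ℤ)), ‖c (-m)‖ ^ (2 * k)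
          ≤ C * ∑ r : Fin 2, ∑ j ∈ Finset.range (4 * M), ‖Q c M (α r) (β r) j‖ ^ k := by
  refine ⟨(128000000 : ℝ) ^ k, by positivity, fun M hM => ?_⟩
  have hM0 : (0 : ℝ) < M := by exact_mod_cast hM
  set u : Fin 2 → ℤ → ℝ := ![fun m => pw M m / 81, fun m => (pw M (m + 1) - pw M m) * (M / 1000)]
    with hu
  set v : Fin 2 → ℤ → ℝ := ![fun n => (pw M (n + 1) - 2 * pw M n + pw M (n - 1)) * ((M : ℝ) ^ 2 / 1000),
    fun n => (pw M n - pw M (n - 1)) * (M / 1000)] with hv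
  have hu1 : ∀ r m, |u r m| ≤ 1 := by
    intro r m
    obtain ⟨h1, h2, h3, -, -, -, -⟩ := P17 M hM m
    fin_cases r
    · change |pw M m / 81| ≤ 1
      rw [abs_of_nonneg (by positivity), div_le_one (by norm_num)]
      exact h2
    · change |(pw M (m + 1) - pw M m) * (M / 1000)| ≤ 1
      rw [abs_mul, abs_of_pos (show (0 : ℝ) < M / 1000 by positivity)]
      calc |pw M (m + 1) - pw M m| * (M / 1000) ≤ 1000 / M * (M / 1000) := by gcongr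
        _ = 1 := by field_simp
  have hv1 : ∀ r m, |v r m| ≤ 1 := by
    intro r m
    obtain ⟨-, -, -, h4, -, -, -⟩ := P17 M hM m
    obtain ⟨-, -, h3, -, -, -, -⟩ := P17 M hM (m - 1)
    rw [sub_add_cancel] at h3
    fin_cases r
    · change |(pw M (m + 1) - 2 * pw M m + pw M (m - 1)) * ((M : ℝ) ^ 2 / 1000)| ≤ 1
      rw [abs_mul, abs_of_pos (show (0 : ℝ) < (M : ℝ) ^ 2 / 1000 by positivity)]
      calc _ ≤ 1000 / (M : ℝ) ^ 2 * ((M : ℝ) ^ 2 / 1000) := by gcongr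
        _ = 1 := by field_simp
    · change |(pw M m - pw M (m - 1)) * (M / 1000)| ≤ 1
      rw [abs_mul, abs_of_pos (show (0 : ℝ) < M / 1000 by positivity)]
      calc |pw M m - pw M (m - 1)| * (M / 1000) ≤ 1000 / (M : ℝ) * (M / 1000) := by gcongr
        _ = 1 := by field_simp
  have hs1 : ∀ m ∈ Icc (M : ℤ) (4 * M), |√(M : ℝ) / √(m : ℝ)| ≤ 1 := by
    intro m hm
    have h1 : (M : ℝ) ≤ m := by exact_mod_cast (mem_Icc.1 hm).1
    rw [abs_of_nonneg (by positivity), div_le_one (Real.sqrt_pos.2 (hM0.trans_le h1))]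
    exact Real.sqrt_le_sqrt h1
  set α : Fin 2 → ℤ → ℂ := fun r m => if m ∈ Icc (M : ℤ) (4 * M) then
    ((u r m * (√(M : ℝ) / √(m : ℝ)) : ℝ) : ℂ) else 0 with hα
  set β : Fin 2 → ℤ → ℂ := fun r m => if m ∈ Icc (M : ℤ) (4 * M) then
    ((v r m * (√(M : ℝ) / √(m : ℝ)) : ℝ) : ℂ) else 0 with hβ
  refine ⟨α, β, fun r m => ?_, fun r m => ?_, fun r m hm => ⟨if_neg hm, if_neg hm⟩, ?_⟩
  · simp only [hα]
    split_ifs with h
    · rw [Complex.norm_real, Real.norm_eq_abs, abs_mul]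
      exact mul_le_one₀ (hu1 r m) (abs_nonneg _) (hs1 m h)
    · rw [norm_zero]; exact zero_le_one
  · simp only [hβ]
    split_ifs with h
    · rw [Complex.norm_real, Real.norm_eq_abs, abs_mul]
      exact mul_le_one₀ (hv1 r m) (abs_nonneg _) (hs1 m h)
    · rw [norm_zero]; exact zero_le_one
  intro D c hc
  have hQ : ∀ r j, Q c M (α r) (β r) j = (1 / 4 : ℂ) * ∑ m ∈ Icc (M : ℤ) (4 * M),
      ∑ n ∈ Icc (M : ℤ) (4 * M), ((u r m * v r n : ℝ) : ℂ) * G c m n * zr M j ^ (m + n) := by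
    intro r j
    unfold Q
    rw [mul_sum, mul_sum]
    refine sum_congr rfl fun m hm => ?_
    rw [mul_sum, mul_sum]
    refine sum_congr rfl fun n hn => ?_
    simp only [hα, hβ]
    rw [if_pos hm, if_pos hn]
    have h1 : (0 : ℝ) < m := hM0.trans_le (by exact_mod_cast (mem_Icc.1 hm).1)
    have h2 : (0 : ℝ) < n := hM0.trans_le (by exact_mod_cast (mem_Icc.1 hn).1)
    have h3 : (1 / (4 * M) : ℝ) * (u r m * (√(M : ℝ) / √(m : ℝ)) * (v r n * (√(M : ℝ) / √(n : ℝ)))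
        * (√(m : ℝ) * √(n : ℝ))) = 1 / 4 * (u r m * v r n) := by
      have h4 : √(M : ℝ) * √(M : ℝ) = M := Real.mul_self_sqrt hM0.le
      have h5 : √(m : ℝ) ≠ 0 := (Real.sqrt_pos.2 h1).ne'
      have h6 : √(n : ℝ) ≠ 0 := (Real.sqrt_pos.2 h2).ne'
      calc _ = (1 / (4 * M) : ℝ) * (u r m * v r n * (√(M : ℝ) * √(M : ℝ))) := by
            field_simp
        _ = _ := by rw [h4]; field_simp
    have h7 : (1 / (4 * M) : ℂ) * (((u r m * (√(M : ℝ) / √(m : ℝ)) : ℝ) : ℂ)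
        * ((v r n * (√(M : ℝ) / √(n : ℝ)) : ℝ) : ℂ) * ((√(m : ℝ) * √(n : ℝ) : ℝ) : ℂ))
        = 1 / 4 * ((u r m * v r n : ℝ) : ℂ) := by
      have h8 := congrArg (fun x : ℝ => (x : ℂ)) h3
      push_cast at h8 ⊢
      exact h8
    calc _ = ((1 / (4 * M) : ℂ) * (((u r m * (√(M : ℝ) / √(m : ℝ)) : ℝ) : ℂ)
        * ((v r n * (√(M : ℝ) / √(n : ℝ)) : ℝ) : ℂ) * ((√(m : ℝ) * √(n : ℝ) : ℝ) : ℂ)))
          * (G c m n * zr M j ^ (m + n)) := by ring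
      _ = _ := by rw [h7]; ring
  set S : ℕ → ℂ := fun j => ∑ m ∈ Icc (M : ℤ) (4 * M), (pw M m : ℂ) * c (-m) * zr M j ^ m with hS
  have hS2 : ∀ j, S j ^ 2 = ((324000 / (M : ℝ) ^ 2 : ℝ) : ℂ) * Q c M (α 0) (β 0) j
      - ((4000000 / (M : ℝ) ^ 2 : ℝ) : ℂ) * Q c M (α 1) (β 1) j := by
    intro j
    rw [hS]
    simp only
    rw [P18 D M hM c hc (zr M j) (Complex.exp_ne_zero _), hQ, hQ, ← mul_assoc, ← mul_assoc, mul_sum,
      mul_sum, ← sum_sub_distrib]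
    refine sum_congr rfl fun m hm => ?_
    rw [mul_sum, mul_sum, ← sum_sub_distrib]
    refine sum_congr rfl fun n hn => ?_
    have h1 : ((pw M m) * (pw M (n + 1) - 2 * pw M n + pw M (n - 1))
          - (pw M (m + 1) - pw M m) * (pw M n - pw M (n - 1)) : ℝ)
        = 324000 / (M : ℝ) ^ 2 * (1 / 4) * (u 0 m * v 0 n)
          - 4000000 / (M : ℝ) ^ 2 * (1 / 4) * (u 1 m * v 1 n) := by
      change _ = 324000 / (M : ℝ) ^ 2 * (1 / 4) * ((pw M m / 81) *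
        ((pw M (n + 1) - 2 * pw M n + pw M (n - 1)) * ((M : ℝ) ^ 2 / 1000)))
        - 4000000 / (M : ℝ) ^ 2 * (1 / 4) * (((pw M (m + 1) - pw M m) * (M / 1000)) *
          ((pw M n - pw M (n - 1)) * (M / 1000)))
      field_simp
      ring
    rw [h1]
    push_cast
    ring
  have hSk : ∀ j, ‖S j‖ ^ (2 * k) ≤ (8000000 / (M : ℝ) ^ 2) ^ k *
      (‖Q c M (α 0) (β 0) j‖ ^ k + ‖Q c M (α 1) (β 1) j‖ ^ k) := by
    intro j
    have h1 : ‖S j‖ ^ 2 ≤ 4000000 / (M : ℝ) ^ 2 * (‖Q c M (α 0) (β 0) j‖ + ‖Q c M (α 1) (β 1) j‖) := by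
      rw [← norm_pow, hS2 j]
      refine (norm_sub_le _ _).trans ?_
      rw [norm_mul, norm_mul, Complex.norm_real, Complex.norm_real, Real.norm_eq_abs,
        Real.norm_eq_abs, abs_of_pos (by positivity), abs_of_pos (by positivity), mul_add]
      gcongr
      norm_num
    calc ‖S j‖ ^ (2 * k) = (‖S j‖ ^ 2) ^ k := by rw [pow_mul]
      _ ≤ (4000000 / (M : ℝ) ^ 2 * (‖Q c M (α 0) (β 0) j‖ + ‖Q c M (α 1) (β 1) j‖)) ^ k :=
          pow_le_pow_left₀ (by positivity) h1 k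
      _ = (4000000 / (M : ℝ) ^ 2) ^ k * (‖Q c M (α 0) (β 0) j‖ + ‖Q c M (α 1) (β 1) j‖) ^ k := by
          rw [mul_pow]
      _ ≤ (4000000 / (M : ℝ) ^ 2) ^ k * (2 ^ k * (‖Q c M (α 0) (β 0) j‖ ^ k
          + ‖Q c M (α 1) (β 1) j‖ ^ k)) := by
          gcongr
          exact P20_two _ _ (norm_nonneg _) (norm_nonneg _) k
      _ = _ := by
          rw [← mul_assoc, ← mul_pow]
          congr 2
          ring
  -- Parseval
  have hpar := P19 M hM fun m => (pw M m : ℂ) * c (-m)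
  have hpar' : ∑ m ∈ Icc (M : ℤ) (4 * M), ‖(pw M m : ℂ) * c (-m)‖ ^ 2
      = (1 / ((4 * M : ℕ) : ℝ)) * ∑ j ∈ range (4 * M), ‖S j‖ ^ 2 := by
    rw [hS]
    simp only
    rw [hpar]
    push_cast
    field_simp
  have hmain : ∑ m ∈ Icc (M : ℤ) (4 * M), ‖(pw M m : ℂ) * c (-m)‖ ^ (2 * k)
      ≤ (1 / ((4 * M : ℕ) : ℝ)) * ∑ j ∈ range (4 * M), ‖S j‖ ^ (2 * k) := by
    calc ∑ m ∈ Icc (M : ℤ) (4 * M), ‖(pw M m : ℂ) * c (-m)‖ ^ (2 * k)
        = ∑ m ∈ Icc (M : ℤ) (4 * M), (‖(pw M m : ℂ) * c (-m)‖ ^ 2) ^ k :=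
          sum_congr rfl fun m _ => by rw [pow_mul]
      _ ≤ (∑ m ∈ Icc (M : ℤ) (4 * M), ‖(pw M m : ℂ) * c (-m)‖ ^ 2) ^ k :=
          P20_pow _ (fun m => ‖(pw M m : ℂ) * c (-m)‖ ^ 2) (fun m => by positivity) k hk
      _ = ((1 / ((4 * M : ℕ) : ℝ)) * ∑ j ∈ range (4 * M), ‖S j‖ ^ 2) ^ k := by rw [hpar']
      _ ≤ (1 / ((4 * M : ℕ) : ℝ)) * ∑ j ∈ range (4 * M), (‖S j‖ ^ 2) ^ k :=
          P20_mean (4 * M) (by omega) (fun j => ‖S j‖ ^ 2) (fun j => by positivity) k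
      _ = _ := by
          congr 1
          exact sum_congr rfl fun j _ => by rw [pow_mul]
  have hcore : ∑ m ∈ (Icc (M : ℤ) (4 * M)).filter
      (fun m => 3 * (M : ℤ) ≤ 2 * m ∧ m ≤ 3 * (M : ℤ)), ‖c (-m)‖ ^ (2 * k)
      ≤ 16 ^ k * ∑ m ∈ Icc (M : ℤ) (4 * M), ‖(pw M m : ℂ) * c (-m)‖ ^ (2 * k) := by
    rw [mul_sum]
    calc ∑ m ∈ (Icc (M : ℤ) (4 * M)).filter
            (fun m => 3 * (M : ℤ) ≤ 2 * m ∧ m ≤ 3 * (M : ℤ)), ‖c (-m)‖ ^ (2 * k)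
        ≤ ∑ m ∈ (Icc (M : ℤ) (4 * M)).filter (fun m => 3 * (M : ℤ) ≤ 2 * m ∧ m ≤ 3 * (M : ℤ)),
          16 ^ k * ‖(pw M m : ℂ) * c (-m)‖ ^ (2 * k) := by
          refine sum_le_sum fun m hm => ?_
          obtain ⟨-, hm2, hm3⟩ := mem_filter.1 hm
          have h1 := (P17 M hM m).2.2.2.2.2.2 hm2 hm3
          have h2 : ‖c (-m)‖ ≤ 4 * ‖(pw M m : ℂ) * c (-m)‖ := by
            rw [norm_mul, Complex.norm_real, Real.norm_eq_abs, abs_of_nonneg (by linarith)]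
            nlinarith [norm_nonneg (c (-m))]
          calc ‖c (-m)‖ ^ (2 * k) ≤ (4 * ‖(pw M m : ℂ) * c (-m)‖) ^ (2 * k) :=
                pow_le_pow_left₀ (norm_nonneg _) h2 _
            _ = _ := by
                rw [mul_pow, pow_mul (4 : ℝ)]
                norm_num
      _ ≤ _ := sum_le_sum_of_subset_of_nonneg (filter_subset _ _) fun m _ _ => by positivity
  have hk1 : 0 ≤ ∑ j ∈ range (4 * M), (‖Q c M (α 0) (β 0) j‖ ^ k + ‖Q c M (α 1) (β 1) j‖ ^ k) :=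
    sum_nonneg fun j _ => by positivity
  rw [Fin.sum_univ_two, ← sum_add_distrib]
  calc (M : ℝ) ^ (2 * k + 1) * ∑ m ∈ (Icc (M : ℤ) (4 * M)).filter
        (fun m => 3 * (M : ℤ) ≤ 2 * m ∧ m ≤ 3 * (M : ℤ)), ‖c (-m)‖ ^ (2 * k)
      ≤ (M : ℝ) ^ (2 * k + 1) * (16 ^ k * ((1 / ((4 * M : ℕ) : ℝ)) *
        ∑ j ∈ range (4 * M), (8000000 / (M : ℝ) ^ 2) ^ k *
          (‖Q c M (α 0) (β 0) j‖ ^ k + ‖Q c M (α 1) (β 1) j‖ ^ k))) := by
        gcongr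
        refine hcore.trans ?_
        gcongr
        refine hmain.trans ?_
        gcongr with j hj
        exact hSk j
    _ = 128000000 ^ k * (1 / 4) *
        ∑ j ∈ range (4 * M), (‖Q c M (α 0) (β 0) j‖ ^ k + ‖Q c M (α 1) (β 1) j‖ ^ k) := by
        rw [← mul_sum]
        have h1 : (128000000 : ℝ) ^ k = 16 ^ k * 8000000 ^ k := by rw [← mul_pow]; norm_num
        rw [h1, div_pow, ← pow_mul]
        push_cast
        field_simp
        ring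
    _ ≤ _ := by
        refine mul_le_mul_of_nonneg_right ?_ hk1
        have : (0 : ℝ) < 128000000 ^ k := by positivity
        linarith

end Pool.Agent.Run7.h233.ZK
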