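import Mathlib
import Pool.Agent.Run7.h233.ZK.Base
import Pool.Agent.Run7.h233.ZK.P19

open Finset
open scoped InnerProductSpace ComplexConjugate

namespace Pool.Agent.Run7.h233.ZK

theorem P21_zr_norm (M j : ℕ) : ‖zr M j‖ = 1 := by
  unfold zr
  have : (2 * Real.pi * Complex.I * j / (4 * M) : ℂ) = ((2 * Real.pi * j / (4 * M) : ℝ) : ℂ) * Complex.I := by
    push_cast
    ring
  rw [this, Complex.norm_exp_ofReal_mul_I]

/-- one window -/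
theorem P21_win (M : ℕ) (hM : 1 ≤ M) (f α : ℤ → ℂ) (hα : ∀ m, ‖α m‖ ≤ 1) :
    ∑ j ∈ range (4 * M), ‖∑ m ∈ Icc (M : ℤ) (4 * M), f m * (((1 / Real.sqrt (4 * M) : ℝ) : ℂ) * α m * zr M j ^ m)‖ ^ 2
      ≤ ∑ m ∈ Icc (M : ℤ) (4 * M), ‖f m‖ ^ 2 := by
  have h := P19 M hM (fun m => f m * α m)
  have hpos : (0 : ℝ) < 4 * M := by
    have : (1 : ℝ) ≤ M := by exact_mod_cast hM
    linarith
  have h1 : ∀ j, ‖∑ m ∈ Icc (M : ℤ) (4 * M), f m * (((1 / Real.sqrt (4 * M) : ℝ) : ℂ) * α m * zr M j ^ m)‖ ^ 2 =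
      (1 / (4 * M)) * ‖∑ m ∈ Icc (M : ℤ) (4 * M), f m * α m * zr M j ^ m‖ ^ 2 := by
    intro j
    have : ∑ m ∈ Icc (M : ℤ) (4 * M), f m * (((1 / Real.sqrt (4 * M) : ℝ) : ℂ) * α m * zr M j ^ m) =
        ((1 / Real.sqrt (4 * M) : ℝ) : ℂ) * ∑ m ∈ Icc (M : ℤ) (4 * M), f m * α m * zr M j ^ m := by
      rw [mul_sum]
      exact sum_congr rfl fun m _ => by ring
    rw [this, norm_mul, mul_pow, Complex.norm_real, Real.norm_of_nonneg (by positivity), div_pow, one_pow,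
      Real.sq_sqrt hpos.le]
  simp only [h1]
  rw [← mul_sum, h, ← mul_assoc, one_div, inv_mul_cancel₀ hpos.ne', one_mul]
  refine sum_le_sum fun m _ => ?_
  rw [norm_mul, mul_pow]
  have h2 : ‖α m‖ ^ 2 ≤ 1 := by nlinarith [hα m, norm_nonneg (α m)]
  nlinarith [sq_nonneg ‖f m‖]

/-- every point is in at most three windows -/
theorem P21_three (I : ℕ) (m : ℤ) :
    ((range I).filter fun i => m ∈ Icc ((2 ^ i : ℕ) : ℤ) (4 * (2 ^ i : ℕ))).card ≤ 3 := by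
  rcases le_or_gt m 0 with hm | hm
  · have : ((range I).filter fun i => m ∈ Icc ((2 ^ i : ℕ) : ℤ) (4 * (2 ^ i : ℕ))) = ∅ := by
      rw [filter_eq_empty_iff]
      intro i _ hi
      rw [mem_Icc] at hi
      have : 0 < ((2 ^ i : ℕ) : ℤ) := by positivity
      omega
    rw [this, card_empty]
    norm_num
  · obtain ⟨n, rfl⟩ := Int.eq_ofNat_of_zero_le hm.le
    have hn : n ≠ 0 := by
      rintro rfl
      simp at hm
    have hsub : ((range I).filter fun i => (n : ℤ) ∈ Icc ((2 ^ i : ℕ) : ℤ) (4 * (2 ^ i : ℕ))) ⊆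
        Icc (Nat.log 2 n - 2) (Nat.log 2 n) := by
      intro i hi
      rw [mem_filter, mem_Icc] at hi
      obtain ⟨_, h1, h2⟩ := hi
      have h1' : 2 ^ i ≤ n := by exact_mod_cast h1
      have h2' : n ≤ 4 * 2 ^ i := by exact_mod_cast h2
      rw [mem_Icc]
      constructor
      · have h3 : n ≤ 2 ^ (i + 2) := by
          rw [pow_add]
          omega
        have h4 : Nat.log 2 n ≤ Nat.log 2 (2 ^ (i + 2)) := Nat.log_mono_right h3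
        rw [Nat.log_pow (by norm_num)] at h4
        omega
      · have h4 : Nat.log 2 (2 ^ i) ≤ Nat.log 2 n := Nat.log_mono_right h1'
        rwa [Nat.log_pow (by norm_num)] at h4
    refine (card_le_card hsub).trans ?_
    rw [Nat.card_Icc]
    omega

/-- all windows -/
theorem P21_all (N I : ℕ) (f : ℤ → ℂ) (hf : ∀ m, m ∉ Icc (-(N : ℤ)) N → f m = 0) :
    ∑ i ∈ range I, ∑ m ∈ Icc ((2 ^ i : ℕ) : ℤ) (4 * (2 ^ i : ℕ)), ‖f m‖ ^ 2
      ≤ 3 * ∑ m ∈ Icc (-(N : ℤ)) N, ‖f m‖ ^ 2 := by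
  have h1 : ∀ i : ℕ, ∑ m ∈ Icc ((2 ^ i : ℕ) : ℤ) (4 * (2 ^ i : ℕ)), ‖f m‖ ^ 2 =
      ∑ m ∈ Icc (-(N : ℤ)) N, if m ∈ Icc ((2 ^ i : ℕ) : ℤ) (4 * (2 ^ i : ℕ)) then ‖f m‖ ^ 2 else 0 := by
    intro i
    rw [← sum_filter]
    symm
    apply sum_subset_zero_on_sdiff
    · intro m hm
      exact (mem_filter.1 hm).2
    · intro m hm
      rw [mem_sdiff, mem_filter] at hm
      have : m ∉ Icc (-(N : ℤ)) N := fun h => hm.2 ⟨h, hm.1⟩
      rw [hf m this, norm_zero]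
      norm_num
    · intro m _
      rfl
  simp only [h1]
  rw [sum_comm, mul_sum]
  refine sum_le_sum fun m _ => ?_
  rw [← sum_filter, sum_const, nsmul_eq_mul]
  have h2 : (((range I).filter fun i => m ∈ Icc ((2 ^ i : ℕ) : ℤ) (4 * (2 ^ i : ℕ))).card : ℝ) ≤ 3 := by
    exact_mod_cast P21_three I m
  exact mul_le_mul_of_nonneg_right h2 (by positivity)

/-- the extension of a vector by zero -/
noncomputable def P21_ext (N : ℕ) (e : Vs N) (m : ℤ) : ℂ := if h : m ∈ Icc (-(N : ℤ)) (N : ℤ) then e ⟨m, h⟩ else 0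

theorem P21_ext_coe (N : ℕ) (e : Vs N) (m : Bx N) : P21_ext N e m = e m := by
  unfold P21_ext
  rw [dif_pos m.2]

theorem P21_ext_zero (N : ℕ) (e : Vs N) (m : ℤ) (hm : m ∉ Icc (-(N : ℤ)) N) : P21_ext N e m = 0 := by
  unfold P21_ext
  rw [dif_neg hm]

theorem P21_norm (N : ℕ) (e : Vs N) : ∑ m ∈ Icc (-(N : ℤ)) N, ‖P21_ext N e m‖ ^ 2 = ‖e‖ ^ 2 := by
  rw [EuclideanSpace.norm_sq_eq, ← sum_coe_sort (Icc (-(N : ℤ)) (N : ℤ)) (fun m => ‖P21_ext N e m‖ ^ 2)]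
  refine sum_congr rfl fun m _ => ?_
  rw [P21_ext_coe]

theorem P21_inner (N : ℕ) (e : Vs N) (g : ℤ → ℂ) :
    ⟪e, vec N g⟫_ℂ = ∑ m ∈ Icc (-(N : ℤ)) N, conj (P21_ext N e m) * g m := by
  rw [← sum_coe_sort (Icc (-(N : ℤ)) (N : ℤ)) (fun m => conj (P21_ext N e m) * g m), PiLp.inner_apply]
  refine sum_congr rfl fun m _ => ?_
  rw [P21_ext_coe]
  unfold vec
  rw [RCLike.inner_apply, mul_comm]

theorem P21_vec_norm (N M : ℕ) (hM : 1 ≤ M) (g : ℤ → ℂ) (hg : ∀ m, ‖g m‖ ≤ 1 / Real.sqrt (4 * M)) (s : Finset ℤ)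
    (hs : s.card ≤ 4 * M) (hg0 : ∀ m, m ∉ s → g m = 0) : ‖vec N g‖ ≤ 1 := by
  have hpos : (0 : ℝ) < 4 * M := by
    have : (1 : ℝ) ≤ M := by exact_mod_cast hM
    linarith
  have h1 : ‖vec N g‖ ^ 2 ≤ 1 := by
    rw [EuclideanSpace.norm_sq_eq]
    have h2 : ∑ m : Bx N, ‖(vec N g) m‖ ^ 2 = ∑ m ∈ Icc (-(N : ℤ)) N, ‖g m‖ ^ 2 :=
      sum_coe_sort (Icc (-(N : ℤ)) (N : ℤ)) (fun m => ‖g m‖ ^ 2)
    rw [h2]
    calc ∑ m ∈ Icc (-(N : ℤ)) N, ‖g m‖ ^ 2 = ∑ m ∈ (Icc (-(N : ℤ)) N).filter (fun m => m ∈ s), ‖g m‖ ^ 2 := by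
          rw [sum_filter]
          refine sum_congr rfl fun m _ => ?_
          by_cases h : m ∈ s
          · rw [if_pos h]
          · rw [if_neg h, hg0 m h, norm_zero]
            norm_num
      _ ≤ ∑ m ∈ s, ‖g m‖ ^ 2 := by
          refine sum_le_sum_of_subset_of_nonneg (fun m hm => (mem_filter.1 hm).2) (fun _ _ _ => by positivity)
      _ ≤ ∑ m ∈ s, 1 / (4 * M : ℝ) := by
          refine sum_le_sum fun m _ => ?_
          have h3 := pow_le_pow_left₀ (norm_nonneg _) (hg m) 2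
          rwa [div_pow, one_pow, Real.sq_sqrt hpos.le] at h3
      _ = s.card / (4 * M : ℝ) := by rw [sum_const, nsmul_eq_mul, mul_one_div]
      _ ≤ 1 := by
          rw [div_le_one hpos]
          exact_mod_cast hs
  exact (sq_le_one_iff₀ (norm_nonneg _)).1 h1

/-- the sum over the box is the sum over the window -/
theorem P21_swap (N M : ℕ) (f g : ℤ → ℂ) (hf : ∀ m, m ∉ Icc (-(N : ℤ)) N → f m = 0)
    (hg : ∀ m, m ∉ Icc (M : ℤ) (4 * M) → g m = 0) :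
    ∑ m ∈ Icc (-(N : ℤ)) N, f m * g m = ∑ m ∈ Icc (M : ℤ) (4 * M), f m * g m := by
  have h1 : ∑ m ∈ Icc (-(N : ℤ)) N, f m * g m = ∑ m ∈ (Icc (-(N : ℤ)) N).filter (fun m => m ∈ Icc (M : ℤ) (4 * M)), f m * g m := by
    rw [sum_filter]
    refine sum_congr rfl fun m _ => ?_
    by_cases h : m ∈ Icc (M : ℤ) (4 * M)
    · rw [if_pos h]
    · rw [if_neg h, hg m h, mul_zero]
  rw [h1]
  refine sum_subset (fun m hm => (mem_filter.1 hm).2) ?_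
  intro m hm hm2
  have : m ∉ Icc (-(N : ℤ)) N := fun h => hm2 (mem_filter.2 ⟨h, hm⟩)
  rw [hf m this, zero_mul]

theorem P21_neg (N : ℕ) (f : ℤ → ℂ) : ∑ m ∈ Icc (-(N : ℤ)) N, f (-m) = ∑ m ∈ Icc (-(N : ℤ)) N, f m := by
  refine sum_nbij' (fun m => -m) (fun m => -m) ?_ ?_ ?_ ?_ ?_
  · intro m hm
    rw [mem_Icc] at hm ⊢
    omega
  · intro m hm
    rw [mem_Icc] at hm ⊢
    omega
  · intro m _
    ring
  · intro m _
    ring
  · intro m _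
    rfl

theorem P21_card (M : ℕ) (hM : 1 ≤ M) : (Icc (M : ℤ) (4 * M)).card ≤ 4 * M := by
  rw [Int.card_Icc]
  omega

theorem P21 (N I : ℕ) (α : ℕ → ℤ → ℂ) (hα : ∀ i m, ‖α i m‖ ≤ 1)
    (hs : ∀ i m, m ∉ Finset.Icc ((2 ^ i : ℕ) : ℤ) (4 * (2 ^ i : ℕ)) → α i m = 0) (e : Vs N) :
    (∑ i ∈ Finset.range I, ∑ j ∈ Finset.range (4 * 2 ^ i), ‖⟪e, xv N (2 ^ i) (α i) j⟫_ℂ‖ ^ 2
        ≤ 3 * ‖e‖ ^ 2) ∧
    (∑ i ∈ Finset.range I, ∑ j ∈ Finset.range (4 * 2 ^ i), ‖⟪e, yv N (2 ^ i) (α i) j⟫_ℂ‖ ^ 2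
        ≤ 3 * ‖e‖ ^ 2) ∧
    (∀ i j, ‖xv N (2 ^ i) (α i) j‖ ≤ 1) ∧ (∀ i j, ‖yv N (2 ^ i) (α i) j‖ ≤ 1) := by
  have hM : ∀ i : ℕ, 1 ≤ 2 ^ i := fun i => Nat.one_le_two_pow
  have hw0 : ∀ i j m, m ∉ Icc ((2 ^ i : ℕ) : ℤ) (4 * (2 ^ i : ℕ)) →
      (((1 / Real.sqrt (4 * (2 ^ i : ℕ)) : ℝ) : ℂ) * α i m * zr (2 ^ i) j ^ m) = 0 := by
    intro i j m hm
    rw [hs i m hm, mul_zero, zero_mul]
  have hwn : ∀ i j m, ‖(((1 / Real.sqrt (4 * (2 ^ i : ℕ)) : ℝ) : ℂ) * α i m * zr (2 ^ i) j ^ m)‖ ≤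
      1 / Real.sqrt (4 * (2 ^ i : ℕ)) := by
    intro i j m
    rw [norm_mul, norm_mul, norm_zpow, P21_zr_norm, one_zpow, mul_one, Complex.norm_real,
      Real.norm_of_nonneg (by positivity)]
    exact mul_le_of_le_one_right (by positivity) (hα i m)
  refine ⟨?_, ?_, ?_, ?_⟩
  · have h1 : ∀ i j, ‖⟪e, xv N (2 ^ i) (α i) j⟫_ℂ‖ ^ 2 = ‖∑ m ∈ Icc ((2 ^ i : ℕ) : ℤ) (4 * (2 ^ i : ℕ)), P21_ext N e m *
        (((1 / Real.sqrt (4 * (2 ^ i : ℕ)) : ℝ) : ℂ) * α i m * zr (2 ^ i) j ^ m)‖ ^ 2 := by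
      intro i j
      rw [← P21_swap N (2 ^ i) (P21_ext N e) _ (P21_ext_zero N e) (hw0 i j)]
      unfold xv
      rw [P21_inner]
      congr 1
      rw [← RCLike.norm_conj, map_sum]
      congr 1
      refine sum_congr rfl fun m _ => ?_
      rw [map_mul, Complex.conj_conj, Complex.conj_conj]
    calc ∑ i ∈ range I, ∑ j ∈ range (4 * 2 ^ i), ‖⟪e, xv N (2 ^ i) (α i) j⟫_ℂ‖ ^ 2
        ≤ ∑ i ∈ range I, ∑ m ∈ Icc ((2 ^ i : ℕ) : ℤ) (4 * (2 ^ i : ℕ)), ‖P21_ext N e m‖ ^ 2 := by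
          refine sum_le_sum fun i _ => ?_
          simp only [h1]
          exact P21_win (2 ^ i) (hM i) (P21_ext N e) (α i) (hα i)
      _ ≤ 3 * ∑ m ∈ Icc (-(N : ℤ)) N, ‖P21_ext N e m‖ ^ 2 := P21_all N I _ (P21_ext_zero N e)
      _ = 3 * ‖e‖ ^ 2 := by rw [P21_norm]
  · have hz : ∀ m, m ∉ Icc (-(N : ℤ)) N → conj (P21_ext N e (-m)) = 0 := by
      intro m hm
      rw [P21_ext_zero N e (-m), map_zero]
      intro h
      apply hm
      rw [mem_Icc] at h ⊢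
      omega
    have h1 : ∀ i j, ‖⟪e, yv N (2 ^ i) (α i) j⟫_ℂ‖ ^ 2 = ‖∑ m ∈ Icc ((2 ^ i : ℕ) : ℤ) (4 * (2 ^ i : ℕ)), conj (P21_ext N e (-m)) *
        (((1 / Real.sqrt (4 * (2 ^ i : ℕ)) : ℝ) : ℂ) * α i m * zr (2 ^ i) j ^ m)‖ ^ 2 := by
      intro i j
      rw [← P21_swap N (2 ^ i) (fun m => conj (P21_ext N e (-m))) _ hz (hw0 i j)]
      unfold yv
      rw [P21_inner]
      congr 2
      rw [← P21_neg]
      refine sum_congr rfl fun m _ => ?_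
      rw [neg_neg]
    calc ∑ i ∈ range I, ∑ j ∈ range (4 * 2 ^ i), ‖⟪e, yv N (2 ^ i) (α i) j⟫_ℂ‖ ^ 2
        ≤ ∑ i ∈ range I, ∑ m ∈ Icc ((2 ^ i : ℕ) : ℤ) (4 * (2 ^ i : ℕ)), ‖conj (P21_ext N e (-m))‖ ^ 2 := by
          refine sum_le_sum fun i _ => ?_
          simp only [h1]
          exact P21_win (2 ^ i) (hM i) (fun m => conj (P21_ext N e (-m))) (α i) (hα i)
      _ ≤ 3 * ∑ m ∈ Icc (-(N : ℤ)) N, ‖conj (P21_ext N e (-m))‖ ^ 2 := P21_all N I (fun m => conj (P21_ext N e (-m))) hz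
      _ = 3 * ‖e‖ ^ 2 := by
          rw [← P21_norm]
          congr 1
          simp only [RCLike.norm_conj]
          have := sum_nbij' (s := Icc (-(N : ℤ)) (N : ℤ)) (t := Icc (-(N : ℤ)) (N : ℤ))
            (f := fun m => ‖P21_ext N e (-m)‖ ^ 2) (g := fun m => ‖P21_ext N e m‖ ^ 2) (fun m => -m) (fun m => -m)
            (by
              intro m hm
              rw [mem_Icc] at hm ⊢
              omega)
            (by
              intro m hm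
              rw [mem_Icc] at hm ⊢
              omega)
            (fun m _ => neg_neg m) (fun m _ => neg_neg m) (fun m _ => rfl)
          exact this
  · intro i j
    unfold xv
    refine P21_vec_norm N (2 ^ i) (hM i) _ ?_ (Icc ((2 ^ i : ℕ) : ℤ) (4 * (2 ^ i : ℕ))) (P21_card (2 ^ i) (hM i)) ?_
    · intro m
      rw [RCLike.norm_conj]
      exact hwn i j m
    · intro m hm
      rw [hw0 i j m hm, map_zero]
  · intro i j
    unfold yv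
    refine P21_vec_norm N (2 ^ i) (hM i) _ ?_ ((Icc ((2 ^ i : ℕ) : ℤ) (4 * (2 ^ i : ℕ))).image (fun m => -m))
      (card_image_le.trans (P21_card (2 ^ i) (hM i))) ?_
    · intro m
      exact hwn i j (-m)
    · intro m hm
      refine hw0 i j (-m) ?_
      intro h
      apply hm
      rw [mem_image]
      exact ⟨-m, h, neg_neg m⟩

end Pool.Agent.Run7.h233.ZK
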