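import Mathlib
import Pool.Agent.Run7.h233.ZK.Base
import Pool.Agent.Run7.h233.ZK.P15

open Finset
open scoped InnerProductSpace ComplexConjugate

namespace Pool.Agent.Run7.h233.ZK

/-- P22: `Q` is a matrix element of `Wop` (uses P15). -/
theorem P22 (N D M : ℕ) (hM : 1 ≤ M) (hN : 4 * M + D ≤ N) (c : ℤ → ℂ) (hc : Fin0 D c)
    (α β : ℤ → ℂ) (hα : ∀ m, m ∉ Finset.Icc (M : ℤ) (4 * M) → α m = 0)
    (hβ : ∀ m, m ∉ Finset.Icc (M : ℤ) (4 * M) → β m = 0) (j : ℕ) :
    Q c M α β j = ⟪xv N M α j, Wop N c (yv N M β j)⟫_ℂ := by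
  have hsub : Finset.Icc (M : ℤ) (4 * M) ⊆ Finset.Icc (1 : ℤ) ((4 * M : ℕ) : ℤ) := by
    intro m hm
    rw [Finset.mem_Icc] at hm ⊢
    push_cast
    constructor <;> omega
  have hz : zr M j ≠ 0 := Complex.exp_ne_zero _
  set s : ℂ := ((1 / Real.sqrt (4 * M) : ℝ) : ℂ) with hs
  have hss : s * s = 1 / (4 * M) := by
    rw [hs, ← Complex.ofReal_mul]
    have h1 : (1 / Real.sqrt (4 * M)) * (1 / Real.sqrt (4 * M)) = 1 / (4 * (M : ℝ)) := by
      rw [div_mul_div_comm, one_mul, Real.mul_self_sqrt (by positivity)]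
    rw [h1]
    push_cast
    ring
  have h := P15 N D (4 * M) hN c hc (fun m => s * α m * zr M j ^ m) (fun m => s * β m * zr M j ^ m)
    (by
      intro m hm
      have h1 : α m = 0 := hα m fun h2 => hm (hsub h2)
      simp [h1])
    (by
      intro m hm
      have h1 : β m = 0 := hβ m fun h2 => hm (hsub h2)
      simp [h1])
  have hx : xv N M α j = vec N (fun m => conj (s * α m * zr M j ^ m)) := rfl
  have hy : yv N M β j = vec N (fun m => (fun m => s * β m * zr M j ^ m) (-m)) := rfl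
  rw [hx, hy]
  refine Eq.trans ?_ h.symm
  unfold Q
  rw [Finset.mul_sum]
  rw [Finset.sum_subset hsub (by
    intro m _ hm
    rw [hα m hm]
    simp)]
  refine Finset.sum_congr rfl fun m _ => ?_
  rw [Finset.mul_sum]
  rw [Finset.sum_subset hsub (by
    intro n _ hn
    rw [hβ n hn]
    simp)]
  refine Finset.sum_congr rfl fun n _ => ?_
  rw [zpow_add₀ hz, ← hss]
  ring

end Pool.Agent.Run7.h233.ZK
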