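import Mathlib
import Pool.Agent.Run7.h233.ZK.Base

open Finset
open scoped InnerProductSpace ComplexConjugate

namespace Pool.Agent.Run7.h233.ZK

/-- P23: every integer `n ≥ 2` is in the core of a dyadic window. -/
theorem P23 (n : ℤ) (hn : 2 ≤ n) : ∃ i : ℕ, 3 * ((2 ^ i : ℕ) : ℤ) ≤ 2 * n ∧ n ≤ 3 * ((2 ^ i : ℕ) : ℤ) ∧
    ((2 ^ i : ℕ) : ℤ) ≤ n := by
  have hex : ∃ i : ℕ, 2 * n < 3 * ((2 ^ i : ℕ) : ℤ) := by
    refine ⟨(2 * n).toNat, ?_⟩
    have h1 : (2 * n).toNat < 2 ^ (2 * n).toNat := Nat.lt_two_pow_self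
    have h2 : (((2 * n).toNat : ℕ) : ℤ) < ((2 ^ (2 * n).toNat : ℕ) : ℤ) := by exact_mod_cast h1
    have h3 : (((2 * n).toNat : ℕ) : ℤ) = 2 * n := Int.toNat_of_nonneg (by linarith)
    linarith
  classical
  have hne : Nat.find hex ≠ 0 := by
    intro h0
    have := Nat.find_spec hex
    rw [h0] at this
    norm_num at this
    linarith
  obtain ⟨i, hi⟩ := Nat.exists_eq_succ_of_ne_zero hne
  have h1 := Nat.find_spec hex
  have h2 := Nat.find_min hex (m := i) (by omega)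
  rw [hi, Nat.succ_eq_add_one, pow_succ] at h1
  push_cast at h1
  rw [not_lt] at h2
  have h0 : (0 : ℤ) ≤ ((2 ^ i : ℕ) : ℤ) := Int.natCast_nonneg _
  refine ⟨i, h2, ?_, ?_⟩
  · push_cast
    linarith
  · linarith

end Pool.Agent.Run7.h233.ZK
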