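import Mathlib
import Pool.Agent.Run7.h233.ZK.Base

open Finset
open scoped InnerProductSpace ComplexConjugate

namespace Pool.Agent.Run7.h233.ZK

variable {V : Type} [NormedAddCommGroup V] [InnerProductSpace ℂ V] [FiniteDimensional ℂ V]

theorem P3_jensen {n : ℕ} (a p : Fin n → ℝ) (ha : ∀ i, 0 ≤ a i) (hp : ∀ i, 0 ≤ p i)
    (hs : ∑ i, p i ≤ 1) (k : ℕ) (hk : 1 ≤ k) : (∑ i, p i * a i) ^ k ≤ ∑ i, p i * a i ^ k := by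
  have h := Real.pow_arith_mean_le_arith_mean_pow (Finset.univ : Finset (Fin (n + 1)))
    (Fin.cons (1 - ∑ i, p i) p) (Fin.cons 0 a) (by
      intro i _
      refine Fin.cases ?_ (fun j => ?_) i
      · rw [Fin.cons_zero]
        linarith
      · rw [Fin.cons_succ]
        exact hp j) (by
      rw [Fin.sum_univ_succ]
      simp only [Fin.cons_zero, Fin.cons_succ]
      ring) (by
      intro i _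
      refine Fin.cases ?_ (fun j => ?_) i
      · rw [Fin.cons_zero]
      · rw [Fin.cons_succ]
        exact ha j) k
  rw [Fin.sum_univ_succ, Fin.sum_univ_succ] at h
  simp only [Fin.cons_zero, Fin.cons_succ, mul_zero, zero_add,
    zero_pow (Nat.one_le_iff_ne_zero.mp hk)] at h
  exact h

/-- P3: Jensen for the spectral measure, bilinear form. -/
theorem P3 {n : ℕ} (b : OrthonormalBasis (Fin n) ℂ V) (μ : Fin n → ℝ) (w : V →ₗ[ℂ] V)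
    (hw : ∀ i, w (b i) = (μ i : ℂ) • b i) (x y : V) (hx : ‖x‖ ≤ 1) (hy : ‖y‖ ≤ 1)
    (k : ℕ) (hk : 1 ≤ k) :
    ‖⟪x, w y⟫_ℂ‖ ^ k ≤ ∑ i, |μ i| ^ k * ((‖⟪b i, x⟫_ℂ‖ ^ 2 + ‖⟪b i, y⟫_ℂ‖ ^ 2) / 2) := by
  have h1 : ⟪x, w y⟫_ℂ = ∑ i, ⟪b i, y⟫_ℂ * ((μ i : ℂ) * ⟪x, b i⟫_ℂ) := by
    conv_lhs => rw [← b.sum_repr' y]
    rw [map_sum, inner_sum]
    refine Finset.sum_congr rfl fun i _ => ?_
    rw [map_smul, inner_smul_right, hw, inner_smul_right]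
  have h2 : ‖⟪x, w y⟫_ℂ‖ ≤ ∑ i, ((‖⟪b i, x⟫_ℂ‖ ^ 2 + ‖⟪b i, y⟫_ℂ‖ ^ 2) / 2) * |μ i| := by
    rw [h1]
    refine (norm_sum_le _ _).trans (Finset.sum_le_sum fun i _ => ?_)
    rw [norm_mul, norm_mul, Complex.norm_real, Real.norm_eq_abs, norm_inner_symm x (b i)]
    have h3 : ‖⟪b i, y⟫_ℂ‖ * ‖⟪b i, x⟫_ℂ‖ ≤ (‖⟪b i, x⟫_ℂ‖ ^ 2 + ‖⟪b i, y⟫_ℂ‖ ^ 2) / 2 := by
      nlinarith [sq_nonneg (‖⟪b i, y⟫_ℂ‖ - ‖⟪b i, x⟫_ℂ‖)]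
    calc ‖⟪b i, y⟫_ℂ‖ * (|μ i| * ‖⟪b i, x⟫_ℂ‖) = (‖⟪b i, y⟫_ℂ‖ * ‖⟪b i, x⟫_ℂ‖) * |μ i| := by ring
      _ ≤ _ := mul_le_mul_of_nonneg_right h3 (abs_nonneg _)
  have h4 : ∑ i, ((‖⟪b i, x⟫_ℂ‖ ^ 2 + ‖⟪b i, y⟫_ℂ‖ ^ 2) / 2) ≤ 1 := by
    rw [← Finset.sum_div, Finset.sum_add_distrib, b.sum_sq_norm_inner_right x,
      b.sum_sq_norm_inner_right y]
    have h5 : ‖x‖ ^ 2 ≤ 1 := pow_le_one₀ (norm_nonneg _) hx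
    have h6 : ‖y‖ ^ 2 ≤ 1 := pow_le_one₀ (norm_nonneg _) hy
    linarith
  calc ‖⟪x, w y⟫_ℂ‖ ^ k ≤ (∑ i, ((‖⟪b i, x⟫_ℂ‖ ^ 2 + ‖⟪b i, y⟫_ℂ‖ ^ 2) / 2) * |μ i|) ^ k :=
        pow_le_pow_left₀ (norm_nonneg _) h2 k
    _ ≤ ∑ i, ((‖⟪b i, x⟫_ℂ‖ ^ 2 + ‖⟪b i, y⟫_ℂ‖ ^ 2) / 2) * |μ i| ^ k :=
        P3_jensen _ _ (fun i => abs_nonneg _) (fun i => by positivity) h4 k hk
    _ = _ := Finset.sum_congr rfl fun i _ => mul_comm _ _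

end Pool.Agent.Run7.h233.ZK
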