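import Mathlib
import Pool.Agent.Run7.h233.ZK.Base
import Pool.Agent.Run7.h233.ZK.P3
import Pool.Agent.Run7.h233.ZK.P20
import Pool.Agent.Run7.h233.ZK.P21
import Pool.Agent.Run7.h233.ZK.P22
import Pool.Agent.Run7.h233.ZK.P23

open Finset
open scoped InnerProductSpace ComplexConjugate

namespace Pool.Agent.Run7.h233.ZK

/-- One family of windows: the `k`-th powers of the matrix elements of `Wop` on the vectors of all
windows sum to at most three times the spectral sum. -/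
theorem P24_fam (k : ℕ) (hk : 1 ≤ k) (D : ℕ) (c : ℤ → ℂ) (hc : Fin0 D c) (N I : ℕ)
    (hN : ∀ i < I, 4 * 2 ^ i + D ≤ N) (n : ℕ) (b : OrthonormalBasis (Fin n) ℂ (Vs N))
    (μ : Fin n → ℝ) (hw : ∀ i, Wop N c (b i) = (μ i : ℂ) • b i)
    (α β : ℕ → ℤ → ℂ) (hα : ∀ i m, ‖α i m‖ ≤ 1) (hβ : ∀ i m, ‖β i m‖ ≤ 1)
    (hsα : ∀ i m, m ∉ Finset.Icc ((2 ^ i : ℕ) : ℤ) (4 * (2 ^ i : ℕ)) → α i m = 0)
    (hsβ : ∀ i m, m ∉ Finset.Icc ((2 ^ i : ℕ) : ℤ) (4 * (2 ^ i : ℕ)) → β i m = 0) :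
    ∑ i ∈ Finset.range I, ∑ j ∈ Finset.range (4 * 2 ^ i), ‖Q c (2 ^ i) (α i) (β i) j‖ ^ k
      ≤ 3 * ∑ l, |μ l| ^ k := by
  have h1 : ∀ i ∈ Finset.range I, ∀ j ∈ Finset.range (4 * 2 ^ i),
      ‖Q c (2 ^ i) (α i) (β i) j‖ ^ k
        ≤ ∑ l, |μ l| ^ k * ((‖⟪b l, xv N (2 ^ i) (α i) j⟫_ℂ‖ ^ 2
            + ‖⟪b l, yv N (2 ^ i) (β i) j⟫_ℂ‖ ^ 2) / 2) := by
    intro i hi j _
    rw [P22 N D (2 ^ i) Nat.one_le_two_pow (hN i (Finset.mem_range.1 hi)) c hc (α i) (β i)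
      (fun m hm => hsα i m hm) (fun m hm => hsβ i m hm) j]
    exact P3 b μ (Wop N c) hw _ _ ((P21 N I α hα hsα 0).2.2.1 i j)
      ((P21 N I β hβ hsβ 0).2.2.2 i j) k hk
  have h2 : ∀ l : Fin n, ∑ i ∈ Finset.range I, ∑ j ∈ Finset.range (4 * 2 ^ i),
      ((‖⟪b l, xv N (2 ^ i) (α i) j⟫_ℂ‖ ^ 2 + ‖⟪b l, yv N (2 ^ i) (β i) j⟫_ℂ‖ ^ 2) / 2) ≤ 3 := by
    intro l
    have hx := (P21 N I α hα hsα (b l)).1
    have hy := (P21 N I β hβ hsβ (b l)).2.1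
    have hb : ‖b l‖ = 1 := b.orthonormal.1 l
    rw [hb] at hx hy
    have : ∑ i ∈ Finset.range I, ∑ j ∈ Finset.range (4 * 2 ^ i),
        ((‖⟪b l, xv N (2 ^ i) (α i) j⟫_ℂ‖ ^ 2 + ‖⟪b l, yv N (2 ^ i) (β i) j⟫_ℂ‖ ^ 2) / 2)
        = (∑ i ∈ Finset.range I, ∑ j ∈ Finset.range (4 * 2 ^ i),
            ‖⟪b l, xv N (2 ^ i) (α i) j⟫_ℂ‖ ^ 2
          + ∑ i ∈ Finset.range I, ∑ j ∈ Finset.range (4 * 2 ^ i),
            ‖⟪b l, yv N (2 ^ i) (β i) j⟫_ℂ‖ ^ 2) / 2 := by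
      simp only [← Finset.sum_add_distrib, ← Finset.sum_div]
    rw [this]
    linarith
  calc ∑ i ∈ Finset.range I, ∑ j ∈ Finset.range (4 * 2 ^ i), ‖Q c (2 ^ i) (α i) (β i) j‖ ^ k
      ≤ ∑ i ∈ Finset.range I, ∑ j ∈ Finset.range (4 * 2 ^ i),
          ∑ l, |μ l| ^ k * ((‖⟪b l, xv N (2 ^ i) (α i) j⟫_ℂ‖ ^ 2
            + ‖⟪b l, yv N (2 ^ i) (β i) j⟫_ℂ‖ ^ 2) / 2) :=
        Finset.sum_le_sum fun i hi => Finset.sum_le_sum fun j hj => h1 i hi j hj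
    _ = ∑ l, ∑ i ∈ Finset.range I, ∑ j ∈ Finset.range (4 * 2 ^ i),
          |μ l| ^ k * ((‖⟪b l, xv N (2 ^ i) (α i) j⟫_ℂ‖ ^ 2
            + ‖⟪b l, yv N (2 ^ i) (β i) j⟫_ℂ‖ ^ 2) / 2) := by
        rw [Finset.sum_congr rfl fun i _ => Finset.sum_comm]
        rw [Finset.sum_comm]
    _ = ∑ l, |μ l| ^ k * ∑ i ∈ Finset.range I, ∑ j ∈ Finset.range (4 * 2 ^ i),
          ((‖⟪b l, xv N (2 ^ i) (α i) j⟫_ℂ‖ ^ 2
            + ‖⟪b l, yv N (2 ^ i) (β i) j⟫_ℂ‖ ^ 2) / 2) := by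
        simp only [Finset.mul_sum]
    _ ≤ ∑ l, |μ l| ^ k * 3 :=
        Finset.sum_le_sum fun l _ => mul_le_mul_of_nonneg_left (h2 l) (by positivity)
    _ = 3 * ∑ l, |μ l| ^ k := by
        rw [← Finset.sum_mul, mul_comm]

/-- P24: (uses P3, P20, P21, P22, P23) lower bound for the spectral sum of `Wop`. -/
theorem P24 (k : ℕ) (hk : 2 ≤ k) : ∃ C : ℝ, 0 < C ∧ ∀ (D : ℕ) (c : ℤ → ℂ), Fin0 D c →
    ∃ N0 : ℕ, ∀ N : ℕ, N0 ≤ N → ∀ (n : ℕ) (b : OrthonormalBasis (Fin n) ℂ (Vs N)) (μ : Fin n → ℝ),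
      (∀ i, Wop N c (b i) = (μ i : ℂ) • b i) →
      C * ∑ m ∈ Finset.Icc (2 : ℤ) D, (m : ℝ) ^ (2 * k + 1) * ‖c (-m)‖ ^ (2 * k)
        ≤ ∑ i, |μ i| ^ k := by
  have hk1 : 1 ≤ k := by omega
  obtain ⟨C, hC, h20⟩ := P20 k hk1
  choose! α β hα hβ hs hmain using h20
  refine ⟨1 / (6 * C * 3 ^ (2 * k + 1)), by positivity, fun D c hc => ⟨4 * 2 ^ (D + 1) + D, ?_⟩⟩
  intro N hN n b μ hw
  have hNi : ∀ i < D + 1, 4 * 2 ^ i + D ≤ N := by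
    intro i hi
    have : 2 ^ i ≤ 2 ^ (D + 1) := Nat.pow_le_pow_right (by norm_num) hi.le
    omega
  have hfam : ∀ r : Fin 2, ∑ i ∈ Finset.range (D + 1), ∑ j ∈ Finset.range (4 * 2 ^ i),
      ‖Q c (2 ^ i) (α (2 ^ i) r) (β (2 ^ i) r) j‖ ^ k ≤ 3 * ∑ l, |μ l| ^ k := fun r =>
    P24_fam k hk1 D c hc N (D + 1) hNi n b μ hw (fun i => α (2 ^ i) r) (fun i => β (2 ^ i) r)
      (fun i m => hα (2 ^ i) Nat.one_le_two_pow r m) (fun i m => hβ (2 ^ i) Nat.one_le_two_pow r m)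
      (fun i m hm => (hs (2 ^ i) Nat.one_le_two_pow r m hm).1)
      (fun i m hm => (hs (2 ^ i) Nat.one_le_two_pow r m hm).2)
  have hwin : ∀ i ∈ Finset.range (D + 1), ((2 ^ i : ℕ) : ℝ) ^ (2 * k + 1)
      * ∑ m ∈ (Finset.Icc ((2 ^ i : ℕ) : ℤ) (4 * (2 ^ i : ℕ))).filter
          (fun m => 3 * ((2 ^ i : ℕ) : ℤ) ≤ 2 * m ∧ m ≤ 3 * ((2 ^ i : ℕ) : ℤ)), ‖c (-m)‖ ^ (2 * k)
        ≤ C * ∑ r : Fin 2, ∑ j ∈ Finset.range (4 * 2 ^ i),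
            ‖Q c (2 ^ i) (α (2 ^ i) r) (β (2 ^ i) r) j‖ ^ k := fun i _ =>
    hmain (2 ^ i) Nat.one_le_two_pow D c hc
  have hcore : ∑ m ∈ Finset.Icc (2 : ℤ) D, (m : ℝ) ^ (2 * k + 1) * ‖c (-m)‖ ^ (2 * k)
      ≤ ∑ i ∈ Finset.range (D + 1), 3 ^ (2 * k + 1) * (((2 ^ i : ℕ) : ℝ) ^ (2 * k + 1)
        * ∑ m ∈ (Finset.Icc ((2 ^ i : ℕ) : ℤ) (4 * (2 ^ i : ℕ))).filter
          (fun m => 3 * ((2 ^ i : ℕ) : ℤ) ≤ 2 * m ∧ m ≤ 3 * ((2 ^ i : ℕ) : ℤ)),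
            ‖c (-m)‖ ^ (2 * k)) := by
    calc ∑ m ∈ Finset.Icc (2 : ℤ) D, (m : ℝ) ^ (2 * k + 1) * ‖c (-m)‖ ^ (2 * k)
        ≤ ∑ m ∈ Finset.Icc (2 : ℤ) D, ∑ i ∈ Finset.range (D + 1),
            (if 3 * ((2 ^ i : ℕ) : ℤ) ≤ 2 * m ∧ m ≤ 3 * ((2 ^ i : ℕ) : ℤ) then
              3 ^ (2 * k + 1) * ((2 ^ i : ℕ) : ℝ) ^ (2 * k + 1) * ‖c (-m)‖ ^ (2 * k) else 0) := by
          refine Finset.sum_le_sum fun m hm => ?_
          rw [Finset.mem_Icc] at hm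
          obtain ⟨i, hi1, hi2, hi3⟩ := P23 m hm.1
          have hiD : i < D + 1 := by
            have h1 : i < 2 ^ i := Nat.lt_two_pow_self
            have h2 : (i : ℤ) < ((2 ^ i : ℕ) : ℤ) := by exact_mod_cast h1
            have h3 : (i : ℤ) < D := by linarith [hm.2]
            have h4 : i < D := by exact_mod_cast h3
            omega
          have hle := Finset.single_le_sum (s := Finset.range (D + 1))
            (f := fun i => (if 3 * ((2 ^ i : ℕ) : ℤ) ≤ 2 * m ∧ m ≤ 3 * ((2 ^ i : ℕ) : ℤ) then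
              3 ^ (2 * k + 1) * ((2 ^ i : ℕ) : ℝ) ^ (2 * k + 1) * ‖c (-m)‖ ^ (2 * k) else 0))
            (fun j _ => by positivity) (Finset.mem_range.2 hiD)
          refine le_trans ?_ hle
          simp only [if_pos (And.intro hi1 hi2)]
          rw [← mul_pow]
          have hmr : (m : ℝ) ≤ 3 * ((2 ^ i : ℕ) : ℝ) := by exact_mod_cast hi2
          have hm0 : (0 : ℝ) ≤ (m : ℝ) := by
            have : (0 : ℤ) ≤ m := by linarith [hm.1]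
            exact_mod_cast this
          exact mul_le_mul_of_nonneg_right (pow_le_pow_left₀ hm0 hmr _) (by positivity)
      _ = ∑ i ∈ Finset.range (D + 1), ∑ m ∈ Finset.Icc (2 : ℤ) D,
            (if 3 * ((2 ^ i : ℕ) : ℤ) ≤ 2 * m ∧ m ≤ 3 * ((2 ^ i : ℕ) : ℤ) then
              3 ^ (2 * k + 1) * ((2 ^ i : ℕ) : ℝ) ^ (2 * k + 1) * ‖c (-m)‖ ^ (2 * k) else 0) :=
          Finset.sum_comm
      _ ≤ _ := by
          refine Finset.sum_le_sum fun i _ => ?_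
          rw [← Finset.sum_filter, ← mul_assoc, Finset.mul_sum]
          refine Finset.sum_le_sum_of_subset_of_nonneg ?_ (fun _ _ _ => by positivity)
          intro m hm
          rw [Finset.mem_filter, Finset.mem_Icc] at hm ⊢
          refine ⟨⟨?_, ?_⟩, hm.2⟩
          · have := hm.2.1
            have h0 : (0 : ℤ) ≤ ((2 ^ i : ℕ) : ℤ) := Int.natCast_nonneg _
            linarith
          · have := hm.2.2
            have h0 : (0 : ℤ) ≤ ((2 ^ i : ℕ) : ℤ) := Int.natCast_nonneg _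
            linarith
  have htot : ∑ m ∈ Finset.Icc (2 : ℤ) D, (m : ℝ) ^ (2 * k + 1) * ‖c (-m)‖ ^ (2 * k)
      ≤ 3 ^ (2 * k + 1) * (C * (6 * ∑ l, |μ l| ^ k)) := by
    calc _ ≤ _ := hcore
      _ ≤ ∑ i ∈ Finset.range (D + 1), 3 ^ (2 * k + 1) * (C * ∑ r : Fin 2,
            ∑ j ∈ Finset.range (4 * 2 ^ i),
            ‖Q c (2 ^ i) (α (2 ^ i) r) (β (2 ^ i) r) j‖ ^ k) :=
          Finset.sum_le_sum fun i hi => mul_le_mul_of_nonneg_left (hwin i hi) (by positivity)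
      _ = 3 ^ (2 * k + 1) * (C * ∑ r : Fin 2, ∑ i ∈ Finset.range (D + 1),
            ∑ j ∈ Finset.range (4 * 2 ^ i),
            ‖Q c (2 ^ i) (α (2 ^ i) r) (β (2 ^ i) r) j‖ ^ k) := by
          rw [← Finset.mul_sum, ← Finset.mul_sum, Finset.sum_comm]
      _ ≤ 3 ^ (2 * k + 1) * (C * ∑ r : Fin 2, (3 * ∑ l, |μ l| ^ k)) := by
          refine mul_le_mul_of_nonneg_left (mul_le_mul_of_nonneg_left ?_ hC.le) (by positivity)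
          exact Finset.sum_le_sum fun r _ => hfam r
      _ = 3 ^ (2 * k + 1) * (C * (6 * ∑ l, |μ l| ^ k)) := by
          rw [Fin.sum_univ_two]; ring
  rw [div_mul_eq_mul_div, one_mul, div_le_iff₀ (by positivity)]
  calc _ ≤ _ := htot
    _ = _ := by ring

end Pool.Agent.Run7.h233.ZK
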