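import Mathlib
import Pool.Agent.Run7.h233.ZK.Base

/-!
# ZK, piece P5: trace positivity (author helper889)
-/

set_option autoImplicit false

open Finset
open scoped InnerProductSpace ComplexConjugate

namespace Pool.Agent.Run7.h233.ZK

variable {V : Type*} [NormedAddCommGroup V] [InnerProductSpace ℂ V] [FiniteDimensional ℂ V]

/-- powers of positive operators are positive -/
theorem P5_pow (T : V →ₗ[ℂ] V) (hT : T.IsPositive) (p : ℕ) : (T ^ p).IsPositive := by
  refine ⟨hT.isSymmetric.pow p, fun x => ?_⟩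
  rcases Nat.even_or_odd p with ⟨m, hm⟩ | ⟨m, hm⟩
  · have h1 : (T ^ p) x = (T ^ m) ((T ^ m) x) := by
      rw [hm, pow_add, Module.End.mul_apply]
    rw [h1, hT.isSymmetric.pow m]
    exact inner_self_nonneg
  · have h1 : (T ^ p) x = (T ^ m) (T ((T ^ m) x)) := by
      rw [hm, show 2 * m + 1 = m + (1 + m) by ring, pow_add, pow_add, pow_one,
        Module.End.mul_apply, Module.End.mul_apply]
    rw [h1, hT.isSymmetric.pow m]
    exact hT.re_inner_nonneg_left _

/-- the trace of a product of two positive operators -/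
theorem P5_tr (P R : V →ₗ[ℂ] V) (hP : P.IsPositive) (hR : R.IsPositive) :
    0 ≤ (LinearMap.trace ℂ V (P * R)).re := by
  obtain ⟨n, hn⟩ : ∃ n, Module.finrank ℂ V = n := ⟨_, rfl⟩
  rw [(P * R).trace_eq_sum_inner (hP.isSymmetric.eigenvectorBasis hn), Complex.re_sum]
  apply Finset.sum_nonneg
  intro i _
  have h0 : 0 ≤ hP.isSymmetric.eigenvalues hn i := hP.nonneg_eigenvalues hn i
  rw [Module.End.mul_apply, ← hP.isSymmetric, hP.isSymmetric.apply_eigenvectorBasis hn,
    inner_smul_left]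
  have h1 : 0 ≤ (⟪hP.isSymmetric.eigenvectorBasis hn i,
      R (hP.isSymmetric.eigenvectorBasis hn i)⟫_ℂ).re := hR.re_inner_nonneg_right _
  have h2 : conj ((hP.isSymmetric.eigenvalues hn i : ℝ) : ℂ) =
      ((hP.isSymmetric.eigenvalues hn i : ℝ) : ℂ) := Complex.conj_ofReal _
  erw [h2]
  rw [Complex.re_ofReal_mul]
  exact mul_nonneg h0 h1

/-- P5: trace positivity. -/
theorem P5 (Y Z W : V →ₗ[ℂ] V) (hY : Y.IsPositive) (hZ : Z.IsPositive) (hW : W.IsSymmetric)
    (q r : ℕ) : 0 ≤ (LinearMap.trace ℂ V (Y ^ q * W * Z ^ r * W)).re := by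
  have h1 : Y ^ q * W * Z ^ r * W = Y ^ q * (W * Z ^ r * W) := by
    simp only [mul_assoc]
  rw [h1]
  apply P5_tr _ _ (P5_pow Y hY q)
  have hZr := P5_pow Z hZ r
  refine ⟨fun x y => ?_, fun x => ?_⟩
  · simp only [Module.End.mul_apply]
    rw [hW, hZr.isSymmetric, hW]
  · simp only [Module.End.mul_apply]
    rw [hW]
    exact hZr.re_inner_nonneg_left _

end Pool.Agent.Run7.h233.ZK
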