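import Mathlib
import Pool.Agent.Run7.h233.ZK.Base
import Pool.Agent.Run7.h233.ZK.P5
import Pool.Agent.Run7.h233.ZK.A617

open Finset
open scoped InnerProductSpace ComplexConjugate

namespace Pool.Agent.Run7.h233.ZK

variable {V : Type} [NormedAddCommGroup V] [InnerProductSpace ℂ V] [FiniteDimensional ℂ V]

theorem P6 (Y Z : V →ₗ[ℂ] V) (hY : Y.IsPositive) (hZ : Z.IsPositive) (k : ℕ) (hk : 2 ≤ k) :
    (LinearMap.trace ℂ V (Z ^ k)).re + k * (LinearMap.trace ℂ V (Z ^ (k - 1) * (Y - Z))).re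
      + (LinearMap.trace ℂ V (Y ^ (k - 2) * (Y - Z) * (Y - Z))).re
      ≤ (LinearMap.trace ℂ V (Y ^ k)).re :=
  A617.P6h (fun Y Z W h1 h2 h3 q r => P5 Y Z W h1 h2 h3 q r) Y Z hY hZ k hk

end Pool.Agent.Run7.h233.ZK
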