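import Mathlib
import Pool.Agent.Run7.h233.ZK.Base

open Finset
open scoped InnerProductSpace ComplexConjugate

namespace Pool.Agent.Run7.h233.ZK

variable {V : Type} [NormedAddCommGroup V] [InnerProductSpace ℂ V] [FiniteDimensional ℂ V]

theorem P4_ev (T : V →ₗ[ℂ] V) (hT : T.IsPositive) (i : Fin (Module.finrank ℂ V)) (x : V) (p : ℕ) :
    ⟪hT.isSymmetric.eigenvectorBasis rfl i, (T ^ p) x⟫_ℂ =
      ((hT.isSymmetric.eigenvalues rfl i ^ p : ℝ) : ℂ) *
        ⟪hT.isSymmetric.eigenvectorBasis rfl i, x⟫_ℂ := by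
  induction p with
  | zero => simp
  | succ p ih =>
    rw [pow_succ', Module.End.mul_apply, ← hT.isSymmetric, hT.isSymmetric.apply_eigenvectorBasis,
      inner_smul_left, ih]
    simp only [Complex.coe_algebraMap]
    push_cast
    simp only [Complex.conj_ofReal]
    ring

theorem P4_sum (T : V →ₗ[ℂ] V) (hT : T.IsPositive) (x : V) (p : ℕ) :
    RCLike.re ⟪x, (T ^ p) x⟫_ℂ = ∑ i : Fin (Module.finrank ℂ V),
      ‖⟪hT.isSymmetric.eigenvectorBasis rfl i, x⟫_ℂ‖ ^ 2 *
        hT.isSymmetric.eigenvalues rfl i ^ p := by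
  rw [← (hT.isSymmetric.eigenvectorBasis rfl).sum_inner_mul_inner x ((T ^ p) x), map_sum]
  refine sum_congr rfl fun i _ => ?_
  rw [P4_ev T hT i x p, ← inner_conj_symm x (hT.isSymmetric.eigenvectorBasis rfl i),
    mul_left_comm, Complex.conj_mul']
  simp only [RCLike.re_to_complex]
  rw [← Complex.ofReal_pow, ← Complex.ofReal_mul, Complex.ofReal_re, mul_comm]

/-- P4: positive operator, unit vector: `<x, T x>^p ≤ <x, T^p x>`; and powers are positive. -/
theorem P4 (T : V →ₗ[ℂ] V) (hT : T.IsPositive) (x : V) (hx : ‖x‖ = 1) (p : ℕ) :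
    (RCLike.re ⟪x, T x⟫_ℂ) ^ p ≤ RCLike.re ⟪x, (T ^ p) x⟫_ℂ := by
  have h1 := P4_sum T hT x 1
  have h0 := P4_sum T hT x 0
  simp only [pow_one] at h1
  simp only [pow_zero, mul_one, Module.End.one_apply] at h0
  rw [inner_self_eq_norm_sq, hx, one_pow] at h0
  rw [h1, P4_sum T hT x p]
  exact Real.pow_arith_mean_le_arith_mean_pow univ _ _ (fun i _ => by positivity) h0.symm
    (fun i _ => hT.nonneg_eigenvalues rfl i) p

theorem P4b (T : V →ₗ[ℂ] V) (hT : T.IsPositive) (p : ℕ) : (T ^ p).IsPositive := by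
  refine ⟨hT.isSymmetric.pow p, fun x => ?_⟩
  rw [hT.isSymmetric.pow p x x, P4_sum T hT x p]
  exact sum_nonneg fun i _ => mul_nonneg (by positivity)
    (pow_nonneg (hT.nonneg_eigenvalues rfl i) p)

end Pool.Agent.Run7.h233.ZK
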