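import Mathlib
import Pool.Agent.Run7.h233.ZK.Base
import Pool.Agent.Run7.h233.ZK.P4
import Pool.Agent.Run7.h233.ZK.A617

open Finset
open scoped InnerProductSpace ComplexConjugate

namespace Pool.Agent.Run7.h233.ZK

variable {V : Type} [NormedAddCommGroup V] [InnerProductSpace ℂ V] [FiniteDimensional ℂ V]

theorem P7 {n : ℕ} (b : OrthonormalBasis (Fin n) ℂ V) (μ : Fin n → ℝ) (m w : V →ₗ[ℂ] V)
    (hw : ∀ i, w (b i) = (μ i : ℂ) • b i) (hU : (m + w).IsPositive) (hT : (m - w).IsPositive)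
    (k : ℕ) (hk : 2 ≤ k) :
    ∑ i, |μ i| ^ k ≤ (LinearMap.trace ℂ V ((m + w) ^ (k - 2) * w * w)).re
      + (LinearMap.trace ℂ V ((m - w) ^ (k - 2) * w * w)).re :=
  A617.P7h (fun T hT x hx p => P4 T hT x hx p) b μ m w hw hU hT k hk

end Pool.Agent.Run7.h233.ZK
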