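import Mathlib
import Pool.Agent.Run7.h233.ZK.Base
import Pool.Agent.Run7.h233.ZK.P1
import Pool.Agent.Run7.h233.ZK.P2
import Pool.Agent.Run7.h233.ZK.P4

open Finset
open scoped InnerProductSpace ComplexConjugate

namespace Pool.Agent.Run7.h233.ZK

variable {V : Type} [NormedAddCommGroup V] [InnerProductSpace ℂ V] [FiniteDimensional ℂ V]

theorem P8_inner (X m : V →ₗ[ℂ] V)
    (hm : (2 : ℂ) • m = X * LinearMap.adjoint X + LinearMap.adjoint X * X) (x : V) :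
    2 * RCLike.re ⟪x, m x⟫_ℂ = ‖LinearMap.adjoint X x‖ ^ 2 + ‖X x‖ ^ 2 := by
  have h1 : ⟪x, ((2 : ℂ) • m) x⟫_ℂ = ⟪x, (X * LinearMap.adjoint X + LinearMap.adjoint X * X) x⟫_ℂ := by
    rw [hm]
  have e1 : ⟪x, X (LinearMap.adjoint X x)⟫_ℂ = ⟪LinearMap.adjoint X x, LinearMap.adjoint X x⟫_ℂ :=
    (LinearMap.adjoint_inner_left X (LinearMap.adjoint X x) x).symm
  have e2 : ⟪x, LinearMap.adjoint X (X x)⟫_ℂ = ⟪X x, X x⟫_ℂ :=
    LinearMap.adjoint_inner_right X x (X x)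
  rw [LinearMap.smul_apply, inner_smul_right, LinearMap.add_apply, inner_add_right,
    Module.End.mul_apply, Module.End.mul_apply, e1, e2, inner_self_eq_norm_sq_to_K,
    inner_self_eq_norm_sq_to_K] at h1
  have h2 := congrArg Complex.re h1
  have h3 : (2 * ⟪x, m x⟫_ℂ).re = 2 * RCLike.re ⟪x, m x⟫_ℂ := by
    simp
  rw [h3] at h2
  rw [h2]
  simp only [Complex.coe_algebraMap, Complex.add_re]
  norm_cast

theorem P8_pos (X m : V →ₗ[ℂ] V)
    (hm : (2 : ℂ) • m = X * LinearMap.adjoint X + LinearMap.adjoint X * X) : m.IsPositive := by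
  have h1 : m = (1 / 2 : ℂ) • (X * LinearMap.adjoint X + LinearMap.adjoint X * X) := by
    rw [← hm, smul_smul]
    norm_num
  rw [h1]
  apply LinearMap.IsPositive.smul_of_nonneg
  · exact (LinearMap.isPositive_self_comp_adjoint X).add (LinearMap.isPositive_adjoint_comp_self X)
  · norm_num [Complex.le_def]

theorem P8 (X m : V →ₗ[ℂ] V)
    (hm : (2 : ℂ) • m = X * LinearMap.adjoint X + LinearMap.adjoint X * X) (k : ℕ) (hk : 1 ≤ k) :
    ‖LinearMap.trace ℂ V (X ^ (2 * k))‖ ≤ (LinearMap.trace ℂ V (m ^ k)).re := by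
  obtain ⟨b, hb⟩ := P1 X _ rfl
  rw [P2 b X hb (2 * k), LinearMap.trace_eq_sum_inner _ b, Complex.re_sum]
  refine (norm_sum_le _ _).trans (Finset.sum_le_sum ?_)
  intro i _
  have hn : ‖b i‖ = 1 := b.norm_eq_one i
  refine le_trans ?_ (P4 m (P8_pos X m hm) (b i) hn k)
  rw [norm_pow, pow_mul]
  refine pow_le_pow_left₀ (by positivity) ?_ k
  have h1 := P8_inner X m hm (b i)
  have h2 : ‖⟪b i, X (b i)⟫_ℂ‖ ≤ ‖X (b i)‖ := by
    have := norm_inner_le_norm (𝕜 := ℂ) (b i) (X (b i))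
    rwa [hn, one_mul] at this
  have h3 : ‖⟪b i, X (b i)⟫_ℂ‖ ≤ ‖LinearMap.adjoint X (b i)‖ := by
    rw [← LinearMap.adjoint_inner_left]
    have := norm_inner_le_norm (𝕜 := ℂ) (LinearMap.adjoint X (b i)) (b i)
    rwa [hn, mul_one] at this
  have h4 := norm_nonneg ⟪b i, X (b i)⟫_ℂ
  nlinarith [pow_le_pow_left₀ h4 h2 2, pow_le_pow_left₀ h4 h3 2]

end Pool.Agent.Run7.h233.ZK
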