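import Mathlib
import Pool.Agent.Run7.h233.ZK.Base
import Pool.Agent.Run7.h233.ZK.P6
import Pool.Agent.Run7.h233.ZK.P7
import Pool.Agent.Run7.h233.ZK.P8

open Finset
open scoped InnerProductSpace ComplexConjugate

namespace Pool.Agent.Run7.h233.ZK

variable {V : Type} [NormedAddCommGroup V] [InnerProductSpace ℂ V] [FiniteDimensional ℂ V]

theorem P9_sq_pos (A : V →ₗ[ℂ] V) (hA : A.IsSymmetric) : (A ^ 2).IsPositive := by
  constructor
  · intro x y
    rw [pow_two, Module.End.mul_apply, Module.End.mul_apply, hA, hA]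
  · intro x
    rw [pow_two, Module.End.mul_apply, hA]
    exact inner_self_nonneg

theorem P9_conj_pow (A S : V →ₗ[ℂ] V) (hSS : S * S = 1) (p : ℕ) :
    (S * A * S) ^ p = S * A ^ p * S := by
  induction p with
  | zero => rw [pow_zero, pow_zero, mul_one, hSS]
  | succ p ih =>
    rw [pow_succ, ih, pow_succ]
    calc S * A ^ p * S * (S * A * S) = S * A ^ p * (S * S) * A * S := by
          simp only [mul_assoc]
      _ = S * (A ^ p * A) * S := by
          rw [hSS]
          simp only [mul_assoc, one_mul]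

theorem P9 {n : ℕ} (A S : V →ₗ[ℂ] V) (hA : A.IsSymmetric) (hS : S.IsSymmetric)
    (hSS : S * S = 1) (k : ℕ) (hk : 2 ≤ k) (b : OrthonormalBasis (Fin n) ℂ V) (μ : Fin n → ℝ)
    (hw : ∀ i, ((1 / 2 : ℂ) • (A ^ 2 - (S * A * S) ^ 2)) (b i) = (μ i : ℂ) • b i) :
    (1 / 2) * ∑ i, |μ i| ^ k + ‖LinearMap.trace ℂ V ((A * S) ^ (2 * k))‖
      ≤ (LinearMap.trace ℂ V (A ^ (2 * k))).re := by
  have hB : (S * A * S).IsSymmetric := by
    intro x y
    simp only [Module.End.mul_apply]
    rw [hS, hA, hS]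
  set B : V →ₗ[ℂ] V := S * A * S with hBdef
  set U : V →ₗ[ℂ] V := A ^ 2 with hU
  set T : V →ₗ[ℂ] V := B ^ 2 with hT
  have hUp : U.IsPositive := P9_sq_pos A hA
  have hTp : T.IsPositive := P9_sq_pos B hB
  set w : V →ₗ[ℂ] V := (1 / 2 : ℂ) • (U - T) with hwdef
  set m : V →ₗ[ℂ] V := (1 / 2 : ℂ) • (U + T) with hmdef
  have hmw : m + w = U := by
    rw [hmdef, hwdef, ← smul_add]
    have : U + T + (U - T) = (2 : ℂ) • U := by
      rw [two_smul]
      abel
    rw [this, smul_smul]
    norm_num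
  have hmw' : m - w = T := by
    rw [hmdef, hwdef, ← smul_sub]
    have : U + T - (U - T) = (2 : ℂ) • T := by
      rw [two_smul]
      abel
    rw [this, smul_smul]
    norm_num
  have hmp : m.IsPositive := by
    apply LinearMap.IsPositive.smul_of_nonneg (hUp.add hTp)
    norm_num [Complex.le_def]
  have h7 := P7 b μ m w hw (by rw [hmw]; exact hUp) (by rw [hmw']; exact hTp) k hk
  rw [hmw, hmw'] at h7
  have hUm : U - m = w := by
    rw [← hmw]
    abel
  have hTm : T - m = -w := by
    rw [← hmw']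
    abel
  have h6a := P6 U m hUp hmp k hk
  have h6b := P6 T m hTp hmp k hk
  rw [hUm] at h6a
  rw [hTm] at h6b
  have hneg1 : (LinearMap.trace ℂ V (m ^ (k - 1) * -w)).re =
      -(LinearMap.trace ℂ V (m ^ (k - 1) * w)).re := by
    rw [mul_neg, map_neg, Complex.neg_re]
  have hneg2 : T ^ (k - 2) * -w * -w = T ^ (k - 2) * w * w := by
    rw [mul_neg, mul_neg, neg_mul, neg_neg]
  rw [hneg1, hneg2] at h6b
  have htU : LinearMap.trace ℂ V (U ^ k) = LinearMap.trace ℂ V (A ^ (2 * k)) := by
    rw [hU, ← pow_mul]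
  have htT : LinearMap.trace ℂ V (T ^ k) = LinearMap.trace ℂ V (A ^ (2 * k)) := by
    rw [hT, ← pow_mul, hBdef, P9_conj_pow A S hSS, LinearMap.trace_mul_comm, ← mul_assoc, hSS,
      one_mul]
  rw [htU] at h6a
  rw [htT] at h6b
  have hSa : LinearMap.adjoint S = S := by
    have := (LinearMap.isSymmetric_iff_isSelfAdjoint S).mp hS
    exact this.star_eq
  have hAa : LinearMap.adjoint A = A := by
    have := (LinearMap.isSymmetric_iff_isSelfAdjoint A).mp hA
    exact this.star_eq
  have hadj : LinearMap.adjoint (A * S) = S * A := by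
    have h : LinearMap.adjoint (A * S) = LinearMap.adjoint S * LinearMap.adjoint A :=
      LinearMap.adjoint_comp A S
    rw [h, hSa, hAa]
  have h8 := P8 (A * S) m (by
    rw [hadj, hmdef, smul_smul]
    have e1 : A * S * (S * A) = U := by
      rw [hU, pow_two]
      calc A * S * (S * A) = A * (S * S) * A := by simp only [mul_assoc]
        _ = A * A := by rw [hSS, mul_one]
    have e2 : S * A * (A * S) = T := by
      rw [hT, hBdef, P9_conj_pow A S hSS, pow_two]
      simp only [mul_assoc]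
    rw [e1, e2]
    norm_num) k (by omega)
  linarith

end Pool.Agent.Run7.h233.ZK
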