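import Mathlib
import Pool.Agent.Run7.h233.ZK.Base
import Pool.Agent.Run7.h233.ZK.P9
import Pool.Agent.Run7.h233.ZK.P12
import Pool.Agent.Run7.h233.ZK.P13
import Pool.Agent.Run7.h233.ZK.P14
import Pool.Agent.Run7.h233.ZK.P24

open Finset
open scoped InnerProductSpace ComplexConjugate

namespace Pool.Agent.Run7.h233.ZK

theorem P25_fpoly (k : ℕ) (j : Fin (2 * k) → ℤ) (n : ℤ) : fpoly (-j) n = fpoly j (-n) := by
  unfold fpoly
  have h : ∀ i : Fin (2 * k), n + ∑ l ∈ Finset.Iio i, (-j) l =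
      (-1) * (-n + ∑ l ∈ Finset.Iio i, j l) := by
    intro i
    simp only [Pi.neg_apply, Finset.sum_neg_distrib]
    ring
  simp_rw [h]
  rw [Finset.prod_mul_distrib, Finset.prod_const, Finset.card_univ, Fintype.card_fin, pow_mul]
  norm_num

theorem P25_Nj (k : ℕ) (j : Fin (2 * k) → ℤ) : Nj (-j) = Nj j := by
  unfold Nj
  rw [← finsum_comp_equiv (Equiv.neg ℤ)]
  apply finsum_congr
  intro n
  rw [Equiv.neg_apply, P25_fpoly, neg_neg]

theorem P25_real (k : ℕ) (c : ℤ → ℂ) (hc : ∀ n, c (-n) = conj (c n)) : (Zk k c).im = 0 := by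
  rw [← Complex.conj_eq_iff_im]
  unfold Zk
  rw [Complex.conj_tsum]
  rw [← (Equiv.neg (Fin (2 * k) → ℤ)).tsum_eq]
  apply tsum_congr
  intro j
  rw [Equiv.neg_apply]
  unfold Zterm
  have h1 : ∑ i, (-j) i = -∑ i, j i := by
    simp [Finset.sum_neg_distrib]
  rw [h1, P25_Nj]
  by_cases h : ∑ i, j i = 0
  · rw [if_pos h, if_pos (by rw [h]; rfl)]
    rw [map_mul, map_prod]
    congr 1
    · exact map_intCast (starRingEnd ℂ) _
    · apply Finset.prod_congr rfl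
      intro i _
      rw [Pi.neg_apply, hc, Complex.conj_conj]
  · rw [if_neg h, if_neg (by simpa using h)]
    simp

theorem P25 (k : ℕ) (hk : 2 ≤ k) : ∃ C : ℝ, 0 < C ∧ ∀ (D : ℕ) (c : ℤ → ℂ), Fin0 D c →
    (∀ n, c (-n) = conj (c n)) → (Zk k c).im = 0 ∧
      C * ∑ m ∈ Finset.Icc (2 : ℤ) D, (m : ℝ) ^ (2 * k + 1) * ‖c m‖ ^ (2 * k) ≤ (Zk k c).re := by
  obtain ⟨C, hC, h24⟩ := P24 k hk
  refine ⟨C / 2, by positivity, ?_⟩
  intro D c hc hsym
  refine ⟨P25_real k c hsym, ?_⟩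
  obtain ⟨N0, hN0⟩ := h24 D c hc
  set N : ℕ := max N0 (4 * k * D) with hN
  obtain ⟨hA, hS, hSS, hW⟩ := P14 N c hsym
  have h1 := hN0 N (le_max_left _ _) _ (hW.eigenvectorBasis rfl) (hW.eigenvalues rfl)
    (fun i => hW.apply_eigenvectorBasis rfl i)
  have h2 := P9 (Aop N c) (Sop N) hA hS hSS k hk (hW.eigenvectorBasis rfl) (hW.eigenvalues rfl)
    (fun i => hW.apply_eigenvectorBasis rfl i)
  have h3 := P12 k N D (by omega) (le_max_right _ _) c hc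
  have h4 := P13 N (2 * k) c
  rw [← h4.1, ← h4.2] at h3
  have h5 : (Zk k c).re = (LinearMap.trace ℂ (Vs N) ((Aop N c) ^ (2 * k))).re -
      (LinearMap.trace ℂ (Vs N) ((Aop N c * Sop N) ^ (2 * k))).re := by
    rw [h3, Complex.sub_re]
  have h6 := Complex.re_le_norm (LinearMap.trace ℂ (Vs N) ((Aop N c * Sop N) ^ (2 * k)))
  have h7 : ∑ m ∈ Finset.Icc (2 : ℤ) D, (m : ℝ) ^ (2 * k + 1) * ‖c (-m)‖ ^ (2 * k) =
      ∑ m ∈ Finset.Icc (2 : ℤ) D, (m : ℝ) ^ (2 * k + 1) * ‖c m‖ ^ (2 * k) := by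
    apply Finset.sum_congr rfl
    intro m _
    rw [hsym, Complex.norm_conj]
  rw [h7] at h1
  rw [h5]
  linarith

end Pool.Agent.Run7.h233.ZK
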