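import Mathlib
import Pool.Agent.Run7.h233.ZK.Base

open Finset
open scoped InnerProductSpace ComplexConjugate

namespace Pool.Agent.Run7.h233.ZK

theorem P26_prod {ι : Type} (s : Finset ι) (a : ι → ℝ) (ha : ∀ i, 0 ≤ a i) :
    1 + ∑ i ∈ s, a i ≤ ∏ i ∈ s, (1 + a i) := by
  classical
  induction s using Finset.induction_on with
  | empty => simp
  | insert i s hi ih =>
    rw [Finset.sum_insert hi, Finset.prod_insert hi]
    have h1 : 0 ≤ ∑ i ∈ s, a i := Finset.sum_nonneg fun i _ => ha i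
    have h2 := ha i
    nlinarith

theorem P26_part {p : ℕ} (j : Fin p → ℤ) (i : Fin p) :
    |∑ l ∈ Finset.Iio i, j l| ≤ ∑ l, |j l| :=
  (Finset.abs_sum_le_sum_abs _ _).trans
    (Finset.sum_le_sum_of_subset_of_nonneg (Finset.subset_univ _) fun _ _ _ => abs_nonneg _)

theorem P26_nonneg (k : ℕ) (j : Fin (2 * k) → ℤ) (n : ℤ)
    (hn : n ∉ Finset.Icc (-∑ l, |j l|) (∑ l, |j l|)) : 0 ≤ fpoly j n := by
  unfold fpoly
  rw [Finset.mem_Icc, not_and_or, not_le, not_le] at hn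
  rcases hn with hn | hn
  · have h1 : ∏ i : Fin (2 * k), (n + ∑ l ∈ Finset.Iio i, j l) =
        ∏ i : Fin (2 * k), (-(n + ∑ l ∈ Finset.Iio i, j l)) := by
      rw [Finset.prod_neg, Finset.card_univ, Fintype.card_fin, pow_mul]
      simp
    rw [h1]
    refine Finset.prod_nonneg fun i _ => ?_
    have h2 := (abs_le.1 (P26_part j i)).2
    linarith
  · refine Finset.prod_nonneg fun i _ => ?_
    have h2 := (abs_le.1 (P26_part j i)).1
    linarith

/-- P26: bound for `N_j`. -/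
theorem P26 (k : ℕ) (j : Fin (2 * k) → ℤ) :
    |(Nj j : ℝ)| ≤ 4 ^ (2 * k + 2) * ∏ i, (1 + |(j i : ℝ)|) ^ (2 * k + 1) := by
  set R : ℤ := ∑ l, |j l| with hR
  have hR0 : 0 ≤ R := Finset.sum_nonneg fun _ _ => abs_nonneg _
  have hsupp : Function.support (fun n : ℤ => |fpoly j n| - fpoly j n) ⊆ ↑(Finset.Icc (-R) R) := by
    intro n hn
    by_contra h
    rw [Finset.mem_coe] at h
    apply hn
    simp only
    rw [abs_of_nonneg (P26_nonneg k j n h), sub_self]
  have hN : Nj j = ∑ n ∈ Finset.Icc (-R) R, (|fpoly j n| - fpoly j n) :=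
    finsum_eq_sum_of_support_subset _ hsupp
  set B : ℝ := ∏ i, (1 + |(j i : ℝ)|) with hB
  have hRB : 1 + (R : ℝ) ≤ B := by
    have h1 := P26_prod (Finset.univ : Finset (Fin (2 * k))) (fun i => |(j i : ℝ)|)
      (fun i => abs_nonneg _)
    have h2 : (R : ℝ) = ∑ i, |(j i : ℝ)| := by
      rw [hR]; push_cast; rfl
    rw [h2]
    exact h1
  have hRr : (0 : ℝ) ≤ R := by exact_mod_cast hR0
  have hB1 : 1 ≤ B := by linarith
  have hterm : ∀ n ∈ Finset.Icc (-R) R, |((|fpoly j n| - fpoly j n : ℤ) : ℝ)| ≤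
      2 * (2 * B) ^ (2 * k) := by
    intro n hn
    rw [Finset.mem_Icc] at hn
    have h1 : |(fpoly j n : ℝ)| ≤ (2 * B) ^ (2 * k) := by
      unfold fpoly
      push_cast
      rw [Finset.abs_prod]
      calc ∏ i : Fin (2 * k), |(n : ℝ) + ∑ l ∈ Finset.Iio i, (j l : ℝ)| ≤
          ∏ i : Fin (2 * k), (2 * B) := by
            refine Finset.prod_le_prod (fun i _ => abs_nonneg _) fun i _ => ?_
            have h2 := P26_part j i
            have h3 : |n| ≤ R := abs_le.2 ⟨hn.1, hn.2⟩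
            have h4 : |n + ∑ l ∈ Finset.Iio i, j l| ≤ 2 * R := by
              refine (abs_add_le _ _).trans ?_
              linarith
            have h5 : |(n : ℝ) + ∑ l ∈ Finset.Iio i, (j l : ℝ)| ≤ 2 * R := by exact_mod_cast h4
            linarith
        _ = (2 * B) ^ (2 * k) := by
            rw [Finset.prod_const, Finset.card_univ, Fintype.card_fin]
    push_cast
    have h6 : |(|(fpoly j n : ℝ)| - (fpoly j n : ℝ))| ≤ |(fpoly j n : ℝ)| + |(fpoly j n : ℝ)| := by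
      refine (abs_sub _ _).trans ?_
      rw [abs_abs]
    linarith
  have hcard : ((Finset.Icc (-R) R).card : ℝ) ≤ 2 * B := by
    rw [Int.card_Icc]
    have h1 : (((R + 1 - -R).toNat : ℤ) : ℝ) = 2 * R + 1 := by
      rw [Int.toNat_of_nonneg (by linarith)]
      push_cast
      ring
    have h2 : (((R + 1 - -R).toNat : ℕ) : ℝ) = 2 * R + 1 := by
      rw [← h1, Int.cast_natCast]
    rw [h2]
    linarith
  rw [hN, Int.cast_sum]
  calc |∑ n ∈ Finset.Icc (-R) R, ((|fpoly j n| - fpoly j n : ℤ) : ℝ)| ≤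
      ∑ n ∈ Finset.Icc (-R) R, |((|fpoly j n| - fpoly j n : ℤ) : ℝ)| :=
        Finset.abs_sum_le_sum_abs _ _
    _ ≤ ∑ n ∈ Finset.Icc (-R) R, 2 * (2 * B) ^ (2 * k) := Finset.sum_le_sum hterm
    _ = ((Finset.Icc (-R) R).card : ℝ) * (2 * (2 * B) ^ (2 * k)) := by
        rw [Finset.sum_const, nsmul_eq_mul]
    _ ≤ (2 * B) * (2 * (2 * B) ^ (2 * k)) := mul_le_mul_of_nonneg_right hcard (by positivity)
    _ = 2 ^ (2 * k + 2) * B ^ (2 * k + 1) := by
        rw [mul_pow]; ring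
    _ ≤ 4 ^ (2 * k + 2) * B ^ (2 * k + 1) := by
        refine mul_le_mul_of_nonneg_right ?_ (by positivity)
        exact pow_le_pow_left₀ (by norm_num) (by norm_num) _
    _ = 4 ^ (2 * k + 2) * ∏ i, (1 + |(j i : ℝ)|) ^ (2 * k + 1) := by
        rw [hB, Finset.prod_pow]

end Pool.Agent.Run7.h233.ZK
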