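import Mathlib
import Pool.Agent.Run7.h233.ZK.Base
import Pool.Agent.Run7.h233.ZK.A617

open Finset
open scoped InnerProductSpace ComplexConjugate

namespace Pool.Agent.Run7.h233.ZK

variable {V : Type} [NormedAddCommGroup V] [InnerProductSpace ℂ V] [FiniteDimensional ℂ V]

theorem P27 (p : ℕ) (g : ℤ → ℝ) (hg : ∀ n, 0 ≤ g n) (hs : Summable g) :
    Summable (fun j : Fin p → ℤ => ∏ i, g (j i)) :=
  A617.P27h p g hg hs

end Pool.Agent.Run7.h233.ZK
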