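import Mathlib
import Pool.Agent.Run7.h233.ZK.Base
import Pool.Agent.Run7.h233.ZK.P26
import Pool.Agent.Run7.h233.ZK.P27

open Finset
open scoped InnerProductSpace ComplexConjugate

namespace Pool.Agent.Run7.h233.ZK

/-- P28: (uses P26, P27) absolute convergence. -/
theorem P28 (k : ℕ) (hk : 1 ≤ k) (c : ℤ → ℂ)
    (hs : Summable fun n : ℤ => (1 + |(n : ℝ)|) ^ (2 * k + 1) * ‖c n‖) :
    Summable (fun j => ‖Zterm k c j‖) := by
  have h1 := (P27 (2 * k) (fun n : ℤ => (1 + |(n : ℝ)|) ^ (2 * k + 1) * ‖c n‖)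
    (fun n => by positivity) hs).mul_left ((4 : ℝ) ^ (2 * k + 2))
  refine Summable.of_nonneg_of_le (fun j => norm_nonneg _) (fun j => ?_) h1
  have h2 : (0 : ℝ) ≤ 4 ^ (2 * k + 2) *
      ∏ i, ((1 + |(j i : ℝ)|) ^ (2 * k + 1) * ‖c (j i)‖) := by positivity
  unfold Zterm
  split_ifs with h
  · rw [norm_mul, norm_prod, Finset.prod_mul_distrib, ← mul_assoc]
    refine mul_le_mul_of_nonneg_right ?_ (Finset.prod_nonneg fun i _ => norm_nonneg _)
    have h3 : ‖((Nj j : ℤ) : ℂ)‖ = |(Nj j : ℝ)| := by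
      rw [← Complex.ofReal_intCast, Complex.norm_real, Real.norm_eq_abs]
    rw [h3]
    exact P26 k j
  · rw [norm_zero]
    exact h2

end Pool.Agent.Run7.h233.ZK
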