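import Pool.Agent.Run7.h233.ZK.Defs

open Finset
open scoped InnerProductSpace ComplexConjugate

namespace Pool.Agent.Run7.h233.ZK

/-- P29 from P28: truncated coefficients (dominated convergence of `tsum`). -/
theorem P29_of (k : ℕ) (c : ℤ → ℂ) (h28 : Summable (fun j => ‖Zterm k c j‖)) :
    Filter.Tendsto (fun D : ℕ => Zk k (fun n => if n ∈ Finset.Icc (-(D : ℤ)) D then c n else 0))
      Filter.atTop (nhds (Zk k c)) := by
  unfold Zk
  refine tendsto_tsum_of_dominated_convergence (bound := fun j => ‖Zterm k c j‖) h28 ?_ ?_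
  · intro j
    apply tendsto_const_nhds.congr'
    rw [Filter.EventuallyEq, Filter.eventually_atTop]
    refine ⟨∑ i, (j i).natAbs, fun D hD => ?_⟩
    unfold Zterm
    have h : ∀ i, j i ∈ Finset.Icc (-(D : ℤ)) D := by
      intro i
      have h1 : (j i).natAbs ≤ ∑ i, (j i).natAbs :=
        Finset.single_le_sum (f := fun i => (j i).natAbs) (fun _ _ => Nat.zero_le _)
          (Finset.mem_univ i)
      rw [Finset.mem_Icc]
      omega
    simp only [h, if_true]
  · refine Filter.Eventually.of_forall fun D j => ?_
    unfold Zterm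
    split_ifs with h
    · rw [norm_mul, norm_mul, norm_prod, norm_prod]
      refine mul_le_mul_of_nonneg_left ?_ (norm_nonneg _)
      refine Finset.prod_le_prod (fun i _ => norm_nonneg _) fun i _ => ?_
      show ‖if j i ∈ Finset.Icc (-(D : ℤ)) D then c (j i) else 0‖ ≤ ‖c (j i)‖
      split_ifs
      · exact le_rfl
      · simp
    · exact le_rfl

end Pool.Agent.Run7.h233.ZK
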