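import Mathlib
import Pool.Agent.Run7.h233.ZK.Base
import Pool.Agent.Run7.h233.ZK.P28
import Pool.Agent.Run7.h233.ZK.P29a

namespace Pool.Agent.Run7.h233.ZK

/-- P29: (uses P28 and dominated convergence of `tsum`) truncated coefficients. -/
theorem P29 (k : ℕ) (hk : 1 ≤ k) (c : ℤ → ℂ)
    (hs : Summable fun n : ℤ => (1 + |(n : ℝ)|) ^ (2 * k + 1) * ‖c n‖) :
    Filter.Tendsto (fun D : ℕ => Zk k (fun n => if n ∈ Finset.Icc (-(D : ℤ)) D then c n else 0))
      Filter.atTop (nhds (Zk k c)) :=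
  P29_of k c (P28 k hk c hs)

end Pool.Agent.Run7.h233.ZK
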