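import Mathlib
import Pool.Agent.Run7.h233.ZK.Base

open Finset
open scoped InnerProductSpace ComplexConjugate

namespace Pool.Agent.Run7.h233.ZK

theorem P30_ibp (a : ℝ → ℝ) (ha : ContDiff ℝ (⊤ : ℕ∞) a) (hp : ∀ θ, a (θ + 2 * Real.pi) = a θ)
    (n : ℤ) : fc (deriv a) n = Complex.I * n * fc a n := by
  have hd : Differentiable ℝ a := ha.differentiable (by simp)
  have hc' : Continuous (deriv a) := ha.continuous_deriv (by simp)
  have h1 : ∀ x ∈ Set.uIcc (0 : ℝ) (2 * Real.pi),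
      HasDerivAt (fun θ : ℝ => Complex.exp (-(n : ℂ) * (θ : ℂ) * Complex.I))
        (Complex.exp (-(n : ℂ) * (x : ℂ) * Complex.I) * (-(n : ℂ) * Complex.I)) x := by
    intro x _
    have h2 : HasDerivAt (fun θ : ℝ => -(n : ℂ) * (θ : ℂ) * Complex.I) (-(n : ℂ) * Complex.I) x := by
      have h3 := ((Complex.ofRealCLM.hasDerivAt (x := x)).const_mul (-(n : ℂ))).mul_const Complex.I
      simpa using h3
    exact h2.cexp
  have h2 : ∀ x ∈ Set.uIcc (0 : ℝ) (2 * Real.pi),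
      HasDerivAt (fun θ : ℝ => ((a θ : ℝ) : ℂ)) ((deriv a x : ℝ) : ℂ) x := by
    intro x _
    exact (hd x).hasDerivAt.ofReal_comp
  have h3 := intervalIntegral.integral_mul_deriv_eq_deriv_mul h1 h2
    (Continuous.intervalIntegrable (by fun_prop) _ _)
    (Continuous.intervalIntegrable (by fun_prop) _ _)
  have h4 : Complex.exp (-(n : ℂ) * ((2 * Real.pi : ℝ) : ℂ) * Complex.I) = 1 := by
    rw [Complex.exp_eq_one_iff]
    refine ⟨-n, ?_⟩
    push_cast
    ring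
  have h5 : a (2 * Real.pi) = a 0 := by
    have := hp 0
    rwa [zero_add] at this
  simp only [h4, h5] at h3
  have h6 : Complex.exp (-(n : ℂ) * ((0 : ℝ) : ℂ) * Complex.I) = 1 := by simp
  rw [h6, sub_self, zero_sub] at h3
  unfold fc
  have h7 : (∫ θ in (0 : ℝ)..(2 * Real.pi),
      ((deriv a θ : ℝ) : ℂ) * Complex.exp (-(n : ℂ) * (θ : ℂ) * Complex.I)) =
      ∫ θ in (0 : ℝ)..(2 * Real.pi),
        Complex.exp (-(n : ℂ) * (θ : ℂ) * Complex.I) * ((deriv a θ : ℝ) : ℂ) := by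
    congr 1; funext θ; ring
  rw [h7, h3]
  have h8 : (∫ θ in (0 : ℝ)..(2 * Real.pi),
      Complex.exp (-(n : ℂ) * (θ : ℂ) * Complex.I) * (-(n : ℂ) * Complex.I) * ((a θ : ℝ) : ℂ)) =
      (-(n : ℂ) * Complex.I) * ∫ θ in (0 : ℝ)..(2 * Real.pi),
        ((a θ : ℝ) : ℂ) * Complex.exp (-(n : ℂ) * (θ : ℂ) * Complex.I) := by
    rw [← intervalIntegral.integral_const_mul]
    congr 1; funext θ; ring
  rw [h8]
  ring

theorem P30_bd (m : ℕ) : ∀ a : ℝ → ℝ, ContDiff ℝ (⊤ : ℕ∞) a → (∀ θ, a (θ + 2 * Real.pi) = a θ) →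
    ∃ C : ℝ, ∀ n : ℤ, |(n : ℝ)| ^ m * ‖fc a n‖ ≤ C := by
  induction m with
  | zero =>
    intro a ha hp
    refine ⟨‖(1 / (2 * Real.pi) : ℂ)‖ * ∫ θ in (0 : ℝ)..(2 * Real.pi), |a θ|, fun n => ?_⟩
    rw [pow_zero, one_mul]
    unfold fc
    rw [norm_mul]
    refine mul_le_mul_of_nonneg_left ?_ (norm_nonneg _)
    refine (intervalIntegral.norm_integral_le_integral_norm (by positivity)).trans (le_of_eq ?_)
    congr 1
    funext θ
    rw [norm_mul, Complex.norm_real, Real.norm_eq_abs]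
    have h1 : -(n : ℂ) * (θ : ℂ) * Complex.I = ((-(n : ℝ) * θ : ℝ) : ℂ) * Complex.I := by
      push_cast; ring
    rw [h1, Complex.norm_exp_ofReal_mul_I, mul_one]
  | succ m ih =>
    intro a ha hp
    have ha' : ContDiff ℝ (⊤ : ℕ∞) (deriv a) := (contDiff_infty_iff_deriv.1 ha).2
    have hp' : ∀ θ, deriv a (θ + 2 * Real.pi) = deriv a θ := by
      intro θ
      have h1 : (fun θ => a (θ + 2 * Real.pi)) = a := funext hp
      have h2 := deriv_comp_add_const a (2 * Real.pi) θ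
      rw [h1] at h2
      exact h2.symm
    obtain ⟨C, hC⟩ := ih (deriv a) ha' hp'
    refine ⟨C, fun n => ?_⟩
    have h1 := hC n
    rw [P30_ibp a ha hp n, norm_mul, norm_mul, Complex.norm_I, one_mul, Complex.norm_intCast] at h1
    calc |(n : ℝ)| ^ (m + 1) * ‖fc a n‖ = |(n : ℝ)| ^ m * (|(n : ℝ)| * ‖fc a n‖) := by ring
      _ ≤ C := h1

theorem P30_sum : Summable (fun n : ℤ => 1 / (1 + |(n : ℝ)|) ^ 2) := by
  have h1 : Summable (fun n : ℤ => 1 / (n : ℝ) ^ 2) := Real.summable_one_div_int_pow.2 (by norm_num)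
  have h2 : Summable (fun n : ℤ => if n = 0 then (1 : ℝ) else 0) := (hasSum_ite_eq 0 1).summable
  refine Summable.of_nonneg_of_le (fun n => by positivity) (fun n => ?_) (h1.add h2)
  by_cases hn : n = 0
  · simp [hn]
  · rw [if_neg hn, add_zero]
    have h3 : (0 : ℝ) < (n : ℝ) ^ 2 := by positivity
    refine one_div_le_one_div_of_le h3 ?_
    rw [← sq_abs (n : ℝ)]
    have := abs_nonneg (n : ℝ)
    nlinarith

/-- P30: rapid decay of the Fourier coefficients of a smooth function. -/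
theorem P30 (a : ℝ → ℝ) (ha : ContDiff ℝ (⊤ : ℕ∞) a) (hp : ∀ θ, a (θ + 2 * Real.pi) = a θ) (q : ℕ) :
    Summable (fun n : ℤ => (1 + |(n : ℝ)|) ^ q * ‖fc a n‖) := by
  obtain ⟨C0, hC0⟩ := P30_bd 0 a ha hp
  obtain ⟨C1, hC1⟩ := P30_bd (q + 2) a ha hp
  refine Summable.of_nonneg_of_le (fun n => by positivity) (fun n => ?_)
    (P30_sum.mul_left (2 ^ (q + 2) * (C0 + C1)))
  have h0 := hC0 n
  rw [pow_zero, one_mul] at h0
  have h1 := hC1 n
  set x := |(n : ℝ)| with hx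
  have hx0 : 0 ≤ x := abs_nonneg _
  set y := ‖fc a n‖ with hy
  have hy0 : 0 ≤ y := norm_nonneg _
  have h2 : (1 + x) ^ (q + 2) ≤ 2 ^ (q + 2) * (1 + x ^ (q + 2)) := by
    rcases le_total x 1 with h | h
    · calc (1 + x) ^ (q + 2) ≤ 2 ^ (q + 2) := pow_le_pow_left₀ (by linarith) (by linarith) _
        _ ≤ 2 ^ (q + 2) * (1 + x ^ (q + 2)) := by
          have : (0 : ℝ) ≤ x ^ (q + 2) := by positivity
          have h3 : (0 : ℝ) < 2 ^ (q + 2) := by positivity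
          nlinarith
    · calc (1 + x) ^ (q + 2) ≤ (2 * x) ^ (q + 2) := pow_le_pow_left₀ (by linarith) (by linarith) _
        _ = 2 ^ (q + 2) * x ^ (q + 2) := mul_pow _ _ _
        _ ≤ 2 ^ (q + 2) * (1 + x ^ (q + 2)) := by
          have h3 : (0 : ℝ) < 2 ^ (q + 2) := by positivity
          nlinarith
  have h3 : (1 + x) ^ (q + 2) * y ≤ 2 ^ (q + 2) * (C0 + C1) := by
    calc (1 + x) ^ (q + 2) * y ≤ (2 ^ (q + 2) * (1 + x ^ (q + 2))) * y :=
        mul_le_mul_of_nonneg_right h2 hy0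
      _ = 2 ^ (q + 2) * (y + x ^ (q + 2) * y) := by ring
      _ ≤ 2 ^ (q + 2) * (C0 + C1) := by
        refine mul_le_mul_of_nonneg_left ?_ (by positivity)
        linarith
  rw [mul_one_div, le_div_iff₀ (by positivity)]
  calc (1 + x) ^ q * y * (1 + x) ^ 2 = (1 + x) ^ (q + 2) * y := by ring
    _ ≤ 2 ^ (q + 2) * (C0 + C1) := h3

end Pool.Agent.Run7.h233.ZK
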