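import Pool.Agent.Run7.h233.ZK.Base

open Finset MeasureTheory
open scoped InnerProductSpace ComplexConjugate

namespace Pool.Agent.Run7.h233.ZK

/-- The Fourier coefficients of a real function. -/
theorem P31 (a : ℝ → ℝ) (n : ℤ) : fc a (-n) = conj (fc a n) := by
  unfold fc
  rw [map_mul]
  have h1 : conj (1 / (2 * Real.pi) : ℂ) = (1 / (2 * Real.pi) : ℂ) := by
    have : (1 / (2 * Real.pi) : ℂ) = ((1 / (2 * Real.pi) : ℝ) : ℂ) := by push_cast; rfl
    rw [this, Complex.conj_ofReal]
  rw [h1]
  congr 1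
  have hle : (0 : ℝ) ≤ 2 * Real.pi := by positivity
  rw [intervalIntegral.integral_of_le hle, intervalIntegral.integral_of_le hle, ← integral_conj]
  congr 1
  funext θ
  rw [map_mul, Complex.conj_ofReal, ← Complex.exp_conj]
  congr 2
  rw [map_mul, map_mul, map_neg, Complex.conj_ofReal, Complex.conj_I]
  have : conj (n : ℂ) = (n : ℂ) := by
    have h : (n : ℂ) = ((n : ℝ) : ℂ) := by push_cast; rfl
    rw [h, Complex.conj_ofReal]
  rw [this]
  push_cast
  ring

end Pool.Agent.Run7.h233.ZK
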