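import Mathlib
import Pool.Agent.Run7.h233.ZK.Base
import Pool.Agent.Run7.h233.ZK.P25
import Pool.Agent.Run7.h233.ZK.P28
import Pool.Agent.Run7.h233.ZK.P29
import Pool.Agent.Run7.h233.ZK.P30
import Pool.Agent.Run7.h233.ZK.P31

/-!
Piece P32 of project ZK (helper233): the final theorem from P25, P28, P29, P30, P31.
-/

open Finset
open scoped InnerProductSpace ComplexConjugate

namespace Pool.Agent.Run7.h233.ZK.T32

open Pool.Agent.Run7.h233.ZK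

/-- the coefficients truncated to `[-D, D]` -/
noncomputable def tr (c : ℤ → ℂ) (D : ℕ) : ℤ → ℂ :=
  fun n => if n ∈ Finset.Icc (-(D : ℤ)) D then c n else 0

lemma tr_fin0 (c : ℤ → ℂ) (D : ℕ) : Fin0 D (tr c D) := by
  intro n hn
  simp only [tr, if_neg hn]

lemma tr_conj (c : ℤ → ℂ) (hc : ∀ n, c (-n) = conj (c n)) (D : ℕ) (n : ℤ) :
    tr c D (-n) = conj (tr c D n) := by
  unfold tr
  by_cases h : n ∈ Finset.Icc (-(D : ℤ)) D
  · have h' : -n ∈ Finset.Icc (-(D : ℤ)) D := by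
      rw [Finset.mem_Icc] at h ⊢
      omega
    rw [if_pos h, if_pos h', hc]
  · have h' : -n ∉ Finset.Icc (-(D : ℤ)) D := by
      intro h'
      apply h
      rw [Finset.mem_Icc] at h' ⊢
      omega
    rw [if_neg h, if_neg h', map_zero]

lemma sum_le (k : ℕ) (c : ℤ → ℂ) (n D : ℕ) (hD : n + 1 ≤ D) :
    ∑ i ∈ Finset.range n, ((i : ℝ) + 2) ^ (2 * k + 1) * ‖c ((i : ℤ) + 2)‖ ^ (2 * k)
      ≤ ∑ m ∈ Finset.Icc (2 : ℤ) D, (m : ℝ) ^ (2 * k + 1) * ‖tr c D m‖ ^ (2 * k) := by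
  have hinj : Function.Injective (fun i : ℕ => (i : ℤ) + 2) := by
    intro a b h
    simp only at h
    omega
  have h1 : ∑ i ∈ Finset.range n, ((i : ℝ) + 2) ^ (2 * k + 1) * ‖c ((i : ℤ) + 2)‖ ^ (2 * k)
      = ∑ m ∈ (Finset.range n).map ⟨fun i : ℕ => (i : ℤ) + 2, hinj⟩,
          (m : ℝ) ^ (2 * k + 1) * ‖tr c D m‖ ^ (2 * k) := by
    rw [Finset.sum_map]
    refine Finset.sum_congr rfl fun i hi => ?_
    have hi' : i < n := Finset.mem_range.mp hi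
    have : tr c D ((i : ℤ) + 2) = c ((i : ℤ) + 2) := by
      unfold tr
      rw [if_pos]
      rw [Finset.mem_Icc]
      omega
    simp only [Function.Embedding.coeFn_mk]
    rw [this]
    push_cast
    rfl
  rw [h1]
  refine Finset.sum_le_sum_of_subset_of_nonneg ?_ ?_
  · intro m hm
    rw [Finset.mem_map] at hm
    obtain ⟨i, hi, rfl⟩ := hm
    have hi' : i < n := Finset.mem_range.mp hi
    simp only [Function.Embedding.coeFn_mk, Finset.mem_Icc]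
    omega
  · intro m hm _
    rw [Finset.mem_Icc] at hm
    have : (0 : ℝ) ≤ (m : ℝ) := by
      have : (0 : ℤ) ≤ m := by omega
      exact_mod_cast this
    positivity

theorem P32_of
    (P25 : ∀ (k : ℕ), 2 ≤ k → ∃ C : ℝ, 0 < C ∧ ∀ (D : ℕ) (c : ℤ → ℂ), Fin0 D c →
      (∀ n, c (-n) = conj (c n)) → (Zk k c).im = 0 ∧
        C * ∑ m ∈ Finset.Icc (2 : ℤ) D, (m : ℝ) ^ (2 * k + 1) * ‖c m‖ ^ (2 * k) ≤ (Zk k c).re)
    (P28 : ∀ (k : ℕ), 1 ≤ k → ∀ (c : ℤ → ℂ),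
      (Summable fun n : ℤ => (1 + |(n : ℝ)|) ^ (2 * k + 1) * ‖c n‖) →
      Summable (fun j => ‖Zterm k c j‖))
    (P29 : ∀ (k : ℕ), 1 ≤ k → ∀ (c : ℤ → ℂ),
      (Summable fun n : ℤ => (1 + |(n : ℝ)|) ^ (2 * k + 1) * ‖c n‖) →
      Filter.Tendsto (fun D : ℕ => Zk k (fun n => if n ∈ Finset.Icc (-(D : ℤ)) D then c n else 0))
        Filter.atTop (nhds (Zk k c)))
    (P30 : ∀ (a : ℝ → ℝ), ContDiff ℝ (⊤ : ℕ∞) a → (∀ θ, a (θ + 2 * Real.pi) = a θ) → ∀ q : ℕ,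
      Summable (fun n : ℤ => (1 + |(n : ℝ)|) ^ q * ‖fc a n‖))
    (P31 : ∀ (a : ℝ → ℝ) (n : ℤ), fc a (-n) = conj (fc a n))
    (k : ℕ) (hk : 2 ≤ k) : ∃ C : ℝ, 0 < C ∧ ∀ a : ℝ → ℝ, ContDiff ℝ (⊤ : ℕ∞) a →
    (∀ θ, a (θ + 2 * Real.pi) = a θ) →
      Summable (fun j => ‖Zterm k (fc a) j‖) ∧ (Zk k (fc a)).im = 0 ∧
      Summable (fun n : ℕ => ((n : ℝ) + 2) ^ (2 * k + 1) * ‖fc a ((n : ℤ) + 2)‖ ^ (2 * k)) ∧
      C * ∑' n : ℕ, ((n : ℝ) + 2) ^ (2 * k + 1) * ‖fc a ((n : ℤ) + 2)‖ ^ (2 * k)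
        ≤ (Zk k (fc a)).re := by
  obtain ⟨C, hC, h25⟩ := P25 k hk
  refine ⟨C, hC, fun a ha hp => ?_⟩
  have hk1 : 1 ≤ k := by omega
  have hs := P30 a ha hp (2 * k + 1)
  have hlim : Filter.Tendsto (fun D : ℕ => Zk k (tr (fc a) D)) Filter.atTop (nhds (Zk k (fc a))) :=
    P29 k hk1 (fc a) hs
  have hD : ∀ D : ℕ, (Zk k (tr (fc a) D)).im = 0 ∧
      C * ∑ m ∈ Finset.Icc (2 : ℤ) D, (m : ℝ) ^ (2 * k + 1) * ‖tr (fc a) D m‖ ^ (2 * k)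
        ≤ (Zk k (tr (fc a) D)).re := fun D =>
    h25 D (tr (fc a) D) (tr_fin0 _ D) (tr_conj _ (P31 a) D)
  have him : (Zk k (fc a)).im = 0 := by
    have h1 := (Complex.continuous_im.tendsto _).comp hlim
    have h2 : (Complex.im ∘ fun D : ℕ => Zk k (tr (fc a) D)) = fun _ => 0 := by
      funext D
      exact (hD D).1
    rw [h2] at h1
    exact tendsto_nhds_unique h1 tendsto_const_nhds
  have hbd : ∀ n : ℕ, ∑ i ∈ Finset.range n,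
      ((i : ℝ) + 2) ^ (2 * k + 1) * ‖fc a ((i : ℤ) + 2)‖ ^ (2 * k) ≤ (Zk k (fc a)).re / C := by
    intro n
    rw [le_div_iff₀ hC, mul_comm]
    have h1 := (Complex.continuous_re.tendsto _).comp hlim
    refine ge_of_tendsto h1 ?_
    filter_upwards [Filter.eventually_ge_atTop (n + 1)] with D hDn
    exact (mul_le_mul_of_nonneg_left (sum_le k (fc a) n D hDn) hC.le).trans (hD D).2
  have hnn : ∀ i : ℕ, 0 ≤ ((i : ℝ) + 2) ^ (2 * k + 1) * ‖fc a ((i : ℤ) + 2)‖ ^ (2 * k) := by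
    intro i
    positivity
  refine ⟨P28 k hk1 _ hs, him, summable_of_sum_range_le hnn hbd, ?_⟩
  have := Real.tsum_le_of_sum_range_le hnn hbd
  rw [le_div_iff₀ hC, mul_comm] at this
  exact this

end Pool.Agent.Run7.h233.ZK.T32


namespace Pool.Agent.Run7.h233.ZK

/-- The final theorem. -/
theorem P32 (k : ℕ) (hk : 2 ≤ k) : ∃ C : ℝ, 0 < C ∧ ∀ a : ℝ → ℝ, ContDiff ℝ (⊤ : ℕ∞) a →
    (∀ θ, a (θ + 2 * Real.pi) = a θ) →
      Summable (fun j => ‖Zterm k (fc a) j‖) ∧ (Zk k (fc a)).im = 0 ∧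
      Summable (fun n : ℕ => ((n : ℝ) + 2) ^ (2 * k + 1) * ‖fc a ((n : ℤ) + 2)‖ ^ (2 * k)) ∧
      C * ∑' n : ℕ, ((n : ℝ) + 2) ^ (2 * k + 1) * ‖fc a ((n : ℤ) + 2)‖ ^ (2 * k)
        ≤ (Zk k (fc a)).re :=
  T32.P32_of P25 P28 P29 P30 P31 k hk

end Pool.Agent.Run7.h233.ZK
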